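import Pool.Agent.SpQ.Core

/-!
Greedy form of the relation theorem, in a linear range.
-/

namespace SpQ

open Module Helper55.Pw
open Helper12.Sc (Reach Step)

variable {K M Γ : Type*} [Field K] [Ring M] [Algebra K M] [Group Γ] {k : ℕ}

/-- the elements of the group which are mapped into the algebra generated by a list -/
def gp (K : Type*) {M Γ : Type*} [Field K] [Ring M] [Algebra K M] [Group Γ]
    [FiniteDimensional K M] (R : Γ →* M) (B : List (Hd Γ k)) : Subgroup Γ :=
  hs R (alg K R (bare B))

theorem E_le_gp [FiniteDimensional K M] (R : Γ →* M) (B : List (Hd Γ k)) : E B ≤ gp K R B := by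
  have := closure_sub (k := K) R (bare B)
  rw [entries_bare] at this
  exact this

theorem alg_le_iff [FiniteDimensional K M] (R : Γ →* M) (B : List (Hd Γ k))
    (S : Subalgebra K M) : alg K R (bare B) ≤ S ↔ E B ≤ hs R S := by
  rw [alg_le', entries_bare]
  rfl

theorem alg_eq_of_E [FiniteDimensional K M] (R : Γ →* M) {B B' : List (Hd Γ k)}
    (h : E B = E B') : alg K R (bare B) = alg K R (bare B') := by
  apply le_antisymm
  · rw [alg_le_iff, h]
    exact E_le_gp R B'
  · rw [alg_le_iff, ← h]
    exact E_le_gp R B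

theorem gp_mono [FiniteDimensional K M] (R : Γ →* M) {B B' : List (Hd Γ k)}
    (h : E B ≤ E B') : gp K R B ≤ gp K R B' := by
  apply hs_mono
  rw [alg_le_iff]
  exact h.trans (E_le_gp R B')

/-- removing a handle which lies in the algebra of the others -/
theorem alg_cons [FiniteDimensional K M] (R : Γ →* M) (h : Hd Γ k) (B : List (Hd Γ k))
    (h1 : h.1.1 ∈ gp K R B) (h2 : h.1.2 ∈ gp K R B) :
    alg K R (bare (h :: B)) = alg K R (bare B) := by
  apply le_antisymm
  · rw [alg_le_iff, E_cons]
    exact sup_le (E_singleton_le.2 ⟨h1, h2⟩) (E_le_gp R B)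
  · rw [alg_le_iff]
    refine le_trans ?_ (E_le_gp R (h :: B))
    rw [E_cons]
    exact le_sup_right

/-- a handle moves to the front, the others remain unchanged -/
theorem move_front (X : List (Hd Γ k)) (s : Hd Γ k) :
    ∃ w ∈ E X, WReach (X ++ [s]) (cj1 w s :: X) := by
  induction X using List.reverseRecOn generalizing s with
  | nil =>
    refine ⟨1, Subgroup.one_mem _, ?_⟩
    have e : cj1 1 s = s := by
      unfold cj1
      simp
    rw [e]
    exact WReach.refl _
  | append_singleton X h ih =>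
    obtain ⟨⟨a, b⟩, ⟨p, q⟩⟩ := h
    obtain ⟨⟨c, d⟩, ⟨p', q'⟩⟩ := s
    obtain ⟨w, hw, hr⟩ := ih (cj1 (bd ((a, b), (p, q)))⁻¹ ((c, d), (p', q')))
    have hE : E (X ++ [((a, b), (p, q))]) = E X ⊔ E [((a, b), (p, q))] := E_append _ _
    have hb : bd ((a, b), (p, q)) ∈ E (X ++ [((a, b), (p, q))]) :=
      bd_mem_E (by simp)
    have hw' : w ∈ E (X ++ [((a, b), (p, q))]) := by
      rw [hE]
      exact (le_sup_left : E X ≤ _) hw
    refine ⟨(bd ((a, b), (p, q)))⁻¹ * w, Subgroup.mul_mem _ (Subgroup.inv_mem _ hb) hw', ?_⟩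
    have h1 := WReach.of_step (WStep.br X [] a b c d p q p' q')
    have h2 := hr.right [((a, b), (p, q))]
    have e : cj1 w (cj1 (bd ((a, b), (p, q)))⁻¹ ((c, d), (p', q'))) =
        cj1 ((bd ((a, b), (p, q)))⁻¹ * w) ((c, d), (p', q')) := by
      unfold cj1
      simp only [mul_inv_rev, mul_assoc]
    rw [e] at h2
    have h3 : WReach (X ++ [((a, b), (p, q))] ++ [((c, d), (p', q'))])
        (X ++ [cj1 (bd ((a, b), (p, q)))⁻¹ ((c, d), (p', q'))] ++ [((a, b), (p, q))]) := by
      simpa [cj1, bd] using h1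
    exact h3.trans (by simpa using h2)

/-- bring two handles to the front -/
theorem two_front (s t u v : List (Hd Γ k)) (h p : Hd Γ k) (e : s ++ t = u ++ p :: v) :
    ∃ w ∈ E s, ∃ w' ∈ E u, WReach (s ++ h :: t)
      (cj1 w' p :: cj1 (w * bd (cj1 w' p)) h :: (u ++ v)) := by
  obtain ⟨w, hw, h1⟩ := move_front s h
  obtain ⟨w', hw', h2⟩ := move_front u p
  refine ⟨w, hw, w', hw', ?_⟩
  have r1 := h1.right t
  have r2 := (h2.left [cj1 w h]).right v
  have r3 := (move_left [cj1 w h] (cj1 w' p)).right (u ++ v)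
  simp only [List.append_assoc, List.cons_append, List.nil_append, cj_cons, cj_nil] at r1 r2 r3
  rw [e] at r1
  have r4 : cj1 (bd (cj1 w' p)) (cj1 w h) = cj1 (w * bd (cj1 w' p)) h := by
    unfold cj1
    simp only [mul_inv_rev, mul_assoc]
  rw [r4] at r3
  exact (r1.trans r2).trans r3

/-- a spare good handle among the others -/
theorem exists_good_spare [FiniteDimensional K M] (R : Γ →* M) (hpos : 1 ≤ finrank K M)
    (b₀ : Hd Γ k) (G : List (Hd Γ k)) (hG : ∀ s ∈ G, Good s) (s t : List (Hd Γ k)) (h : Hd Γ k)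
    (e : b₀ :: G = s ++ h :: t) (hlen : finrank K M + 1 ≤ G.length) :
    ∃ (u v : List (Hd Γ k)) (p : Hd Γ k), s ++ t = u ++ p :: v ∧ Good p ∧
      p.1.1 ∈ gp K R (u ++ v) ∧ p.1.2 ∈ gp K R (u ++ v) := by
  have key : ∀ (C : List (Hd Γ k)), (∀ s ∈ C, Good s) → finrank K M ≤ C.length →
      ∃ (u v : List (Hd Γ k)) (p : Hd Γ k), C = u ++ p :: v ∧ Good p ∧
        p.1.1 ∈ gp K R (u ++ v) ∧ p.1.2 ∈ gp K R (u ++ v) := by
    intro C hC hl
    obtain ⟨D₁, c, d, D₂, hD, hc, hd⟩ := exists_spare (k := K) R (bare C)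
      (by rw [bare_length]; exact hl) hpos
    obtain ⟨u, w, rfl, hu, hw⟩ := List.map_eq_append_iff.1 hD
    obtain ⟨p, v, rfl, hp, hv⟩ := List.map_eq_cons_iff.1 hw
    have hle : hs R (alg K R D₁) ≤ gp K R (u ++ v) := by
      rw [← hu]
      refine gp_mono (B := u) R ?_
      rw [E_append]
      exact le_sup_left
    refine ⟨u, v, p, rfl, hC p (by simp), ?_, ?_⟩
    · rw [hp]
      exact hle hc
    · rw [hp]
      exact hle hd
  rcases s with _ | ⟨s₀, s⟩
  · rw [List.nil_append, List.cons_eq_cons] at e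
    obtain ⟨-, rfl⟩ := e
    exact key G hG (by omega)
  · rw [List.cons_append, List.cons_eq_cons] at e
    obtain ⟨rfl, rfl⟩ := e
    have hlen' : finrank K M ≤ (s ++ t).length := by
      rw [List.length_append, List.length_cons] at hlen
      rw [List.length_append]
      omega
    obtain ⟨u, v, p, hst, hp, h1, h2⟩ := key (s ++ t) (fun x hx => hG x (by
      rcases List.mem_append.1 hx with hx | hx
      · simp [hx]
      · simp [hx])) hlen'
    have hle : gp K R (u ++ v) ≤ gp K R (b₀ :: u ++ v) := by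
      apply gp_mono
      rw [List.cons_append, E_cons]
      exact le_sup_right
    exact ⟨b₀ :: u, v, p, by simp [hst], hp, hle h1, hle h2⟩

/-- the slide of a spare good handle over another handle -/
theorem slide_mem [FiniteDimensional K M] (R : Γ →* M) {B C : List (Hd Γ k)} {H : Subgroup Γ}
    (hH : ∀ (h : Hd Γ k) (B' : List (Hd Γ k)), WReach B (h :: B') →
      alg K R (bare B') = alg K R (bare B) → Good h → h.1.1 ∈ H ∧ h.1.2 ∈ H)
    {c d e f : Γ} {p q : ZMod k}
    (hr : WReach B (((c, d), ((-1 : ZMod k), (1 : ZMod k))) :: ((e, f), (p, q)) :: C))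
    (hc : c ∈ gp K R C) (hd : d ∈ gp K R C) (hcH : c ∈ H) (hdH : d ∈ H) :
    e * f * e⁻¹ ∈ H := by
  have h1 := WReach.of_step (WStep.sl [] C c d e f (-1) 1 p q)
  simp only [List.nil_append] at h1
  set Y : Γ := d * c⁻¹ * d⁻¹ * e * f * e⁻¹ * d with hY
  set z : Γ := d * c⁻¹ * d⁻¹ * e with hz
  obtain ⟨y', hy'⟩ := good_of_neg_one (k := k) c Y (1 + q - -1 + 1)
  have h2 := hy'.right (((z, f), (p - -1 + 1, q)) :: C)
  have h3 := (hr.trans h1).trans h2
  have hle : gp K R C ≤ gp K R (((z, f), (p - -1 + 1, q)) :: C) := by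
    apply gp_mono
    rw [E_cons]
    exact le_sup_right
  have hzf : z ∈ gp K R (((z, f), (p - -1 + 1, q)) :: C) ∧
      f ∈ gp K R (((z, f), (p - -1 + 1, q)) :: C) :=
    ⟨E_le_gp R _ (fst_mem_E (h := ((z, f), (p - -1 + 1, q))) (by simp)),
      E_le_gp R _ (snd_mem_E (h := ((z, f), (p - -1 + 1, q))) (by simp))⟩
  set Q := gp K R (((z, f), (p - -1 + 1, q)) :: C) with hQ
  have hcQ : c ∈ Q := hle hc
  have hdQ : d ∈ Q := hle hd
  have hYQ : Y ∈ Q := by
    have h4 : Y = z * f * (z⁻¹ * (d * c⁻¹ * d⁻¹)) * d := by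
      rw [hY, hz]
      group
    rw [h4]
    exact Q.mul_mem (Q.mul_mem (Q.mul_mem hzf.1 hzf.2) (Q.mul_mem (Q.inv_mem hzf.1)
      (Q.mul_mem (Q.mul_mem hdQ (Q.inv_mem hcQ)) (Q.inv_mem hdQ)))) hdQ
  have hEE := hy'.E_eq
  have hy'Q : y' ∈ Q := by
    have h5 : y' ∈ E [((c, Y), ((-1 : ZMod k), 1 + q - -1 + 1))] := by
      rw [← hEE]
      exact snd_mem_E (h := ((c, y'), ((-1 : ZMod k), (1 : ZMod k)))) (by simp)
    exact (E_singleton_le.2 ⟨hcQ, hYQ⟩) h5
  have halg : alg K R (bare (((z, f), (p - -1 + 1, q)) :: C)) = alg K R (bare B) := by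
    rw [← alg_cons R ((c, y'), ((-1 : ZMod k), (1 : ZMod k))) _ hcQ hy'Q]
    exact alg_eq_of_E R h3.E_eq
  obtain ⟨-, h6⟩ := hH _ _ h3 halg rfl
  have hYH : Y ∈ H := by
    have h7 : Y ∈ E [((c, y'), ((-1 : ZMod k), (1 : ZMod k)))] := by
      rw [hEE]
      exact snd_mem_E (h := ((c, Y), ((-1 : ZMod k), 1 + q - -1 + 1))) (by simp)
    exact (E_singleton_le.2 ⟨hcH, h6⟩) h7
  have h8 : e * f * e⁻¹ = (d * c⁻¹ * d⁻¹)⁻¹ * Y * d⁻¹ := by
    rw [hY, hz]
    group
  rw [h8]
  exact H.mul_mem (H.mul_mem (H.inv_mem (H.mul_mem (H.mul_mem hdH (H.inv_mem hcH))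
    (H.inv_mem hdH))) hYH) (H.inv_mem hdH)

/-- if a subgroup contains all spare good handles then it contains everything -/
theorem all_mem [FiniteDimensional K M] (R : Γ →* M) (hpos : 1 ≤ finrank K M)
    {B : List (Hd Γ k)} {H : Subgroup Γ} (hlen : finrank K M + 2 ≤ B.length)
    (hH : ∀ (h : Hd Γ k) (B' : List (Hd Γ k)), WReach B (h :: B') →
      alg K R (bare B') = alg K R (bare B) → Good h → h.1.1 ∈ H ∧ h.1.2 ∈ H) :
    E B ≤ H := by
  rcases B with _ | ⟨b, B⟩
  · simp at hlen
  obtain ⟨b₀, G, hr, hG⟩ := exists_good b B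
  have hGlen : finrank K M + 1 ≤ G.length := by
    have := hr.length_eq
    rw [List.length_cons] at this
    omega
  have hH' : ∀ (h : Hd Γ k) (B' : List (Hd Γ k)), WReach (b₀ :: G) (h :: B') →
      alg K R (bare B') = alg K R (bare (b₀ :: G)) → Good h → h.1.1 ∈ H ∧ h.1.2 ∈ H := by
    intro h B' h1 h2 h3
    refine hH h B' (hr.trans h1) (h2.trans (alg_eq_of_E R hr.E_eq)) h3
  rw [← hr.E_eq]
  have key : ∀ s t : List (Hd Γ k), b₀ :: G = s ++ t → E s ≤ H := by
    intro s
    induction s using List.reverseRecOn with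
    | nil =>
      intro t _
      rw [E_nil]
      exact bot_le
    | append_singleton s h ih =>
      intro t e
      rw [List.append_assoc, List.singleton_append] at e
      have ihs : E s ≤ H := ih _ e
      obtain ⟨u, v, p, hst, hp, hp1, hp2⟩ := exists_good_spare R hpos b₀ G hG s t h e hGlen
      obtain ⟨w, hw, w', hw', hreach⟩ := two_front s t u v h p hst
      rw [← e] at hreach
      -- the spare handle
      have hwgp : w' ∈ gp K R (u ++ v) := by
        apply E_le_gp R
        rw [E_append]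
        exact (le_sup_left : E u ≤ _) hw'
      have hc : (cj1 w' p).1.1 ∈ gp K R (u ++ v) :=
        Subgroup.mul_mem _ (Subgroup.mul_mem _ (Subgroup.inv_mem _ hwgp) hp1) hwgp
      have hd : (cj1 w' p).1.2 ∈ gp K R (u ++ v) :=
        Subgroup.mul_mem _ (Subgroup.mul_mem _ (Subgroup.inv_mem _ hwgp) hp2) hwgp
      have hgood : Good (cj1 w' p) := hp.cj1 w'
      set P := cj1 w' p with hP
      set h2 := cj1 (w * bd P) h with hh2
      have hle : gp K R (u ++ v) ≤ gp K R (h2 :: (u ++ v)) := by
        apply gp_mono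
        rw [E_cons]
        exact le_sup_right
      have halg : alg K R (bare (h2 :: (u ++ v))) = alg K R (bare (b₀ :: G)) := by
        rw [← alg_cons R P _ (hle hc) (hle hd)]
        exact alg_eq_of_E R hreach.E_eq
      obtain ⟨hcH, hdH⟩ := hH' P _ hreach halg hgood
      -- the slides
      obtain ⟨⟨c, d⟩, wt⟩ := P
      obtain rfl : wt = (-1, 1) := hgood
      obtain ⟨⟨x, y⟩, ⟨p0, q0⟩⟩ := h2
      have hs1 : x * y * x⁻¹ ∈ H := slide_mem R hH' hreach hc hd hcH hdH
      have hs2 : x ∈ H := by
        have hrot := WReach.of_step (WStep.rot [((c, d), ((-1 : ZMod k), (1 : ZMod k)))]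
          (u ++ v) x y p0 q0)
        have h3 := slide_mem R hH' (hreach.trans hrot) hc hd hcH hdH
        have e3 : y⁻¹ * (y * x * y⁻¹) * y⁻¹⁻¹ = x := by group
        rwa [e3] at h3
      have hs3 : y ∈ H := by
        have := H.mul_mem (H.mul_mem (H.inv_mem hs2) hs1) hs2
        have e3 : x⁻¹ * (x * y * x⁻¹) * x = y := by group
        rwa [e3] at this
      have hbd : bd ((c, d), ((-1 : ZMod k), (1 : ZMod k))) ∈ H := bd_mem hcH hdH
      have hww : w * bd ((c, d), ((-1 : ZMod k), (1 : ZMod k))) ∈ H :=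
        H.mul_mem (ihs hw) hbd
      have e4 : ((x, y), (p0, q0)) =
          cj1 (w * bd ((c, d), ((-1 : ZMod k), (1 : ZMod k)))) h := hh2
      have e5 : x = (w * bd ((c, d), ((-1 : ZMod k), (1 : ZMod k))))⁻¹ * h.1.1 *
          (w * bd ((c, d), ((-1 : ZMod k), (1 : ZMod k)))) := congrArg (fun h => h.1.1) e4
      have e6 : y = (w * bd ((c, d), ((-1 : ZMod k), (1 : ZMod k))))⁻¹ * h.1.2 *
          (w * bd ((c, d), ((-1 : ZMod k), (1 : ZMod k)))) := congrArg (fun h => h.1.2) e4
      rw [E_append]
      refine sup_le ihs (E_singleton_le.2 ⟨?_, ?_⟩)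
      · have := H.mul_mem (H.mul_mem hww hs2) (H.inv_mem hww)
        rw [e5] at this
        exact mem_of_eq_word (by group) this
      · have := H.mul_mem (H.mul_mem hww hs3) (H.inv_mem hww)
        rw [e6] at this
        exact mem_of_eq_word (by group) this
  exact key (b₀ :: G) [] (by simp)

/-- A linear relation which holds on the first components of weight zero of the lists reachable from
a list of length greater than twice the dimension holds on the whole group. -/
theorem relation [FiniteDimensional K M] {W : Type*} [AddCommGroup W] [Module K W]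
    (R : Γ →* M) (L : List (Hd Γ k)) (hlen : 2 * finrank K M + 1 ≤ L.length)
    (T : M →ₗ[K] W) (hT : ∀ x ∈ fc L 0, T (R x) = 0) : ∀ x ∈ E L, T (R x) = 0 := by
  rcases Nat.eq_zero_or_pos (finrank K M) with h0 | hpos
  · have hsub : Subsingleton M := Module.finrank_zero_iff.1 h0
    intro x _
    rw [Subsingleton.elim (R x) 0, map_zero]
  have hnt : Nontrivial M := Module.nontrivial_of_finrank_pos (R := K) hpos
  have hspT : ∀ P : Set Γ, (∀ x ∈ P, T (R x) = 0) → ∀ s ∈ spn K R P, T s = 0 := by
    intro P hP s hs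
    refine Submodule.span_induction (p := fun s _ => T s = 0) ?_ ?_ ?_ ?_ hs
    · rintro _ ⟨x, hx, rfl⟩
      exact hP x hx
    · exact map_zero T
    · intro a b _ _ ha hb
      rw [map_add, ha, hb, add_zero]
    · intro r a _ ha
      rw [map_smul, ha, smul_zero]
  -- a spare handle at the front
  have hspare : ∀ B : List (Hd Γ k), finrank K M ≤ B.length → ∃ (h : Hd Γ k)
      (B' : List (Hd Γ k)), WReach B (h :: B') ∧ alg K R (bare B') = alg K R (bare B) := by
    intro B hB
    obtain ⟨D₁, c, d, D₂, hD, hc, hd⟩ := exists_spare (k := K) R (bare B)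
      (by rw [bare_length]; exact hB) hpos
    obtain ⟨u, w, rfl, hu, hw⟩ := List.map_eq_append_iff.1 hD
    obtain ⟨p, v, rfl, hp, hv⟩ := List.map_eq_cons_iff.1 hw
    obtain ⟨w, hw, hr⟩ := move_front u p
    have hr' := hr.right v
    simp only [List.append_assoc, List.cons_append, List.nil_append] at hr'
    have hle : hs R (alg K R D₁) ≤ gp K R (u ++ v) := by
      rw [← hu]
      refine gp_mono (B := u) R ?_
      rw [E_append]
      exact le_sup_left
    have hwgp : w ∈ gp K R (u ++ v) := by
      apply E_le_gp R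
      rw [E_append]
      exact (le_sup_left : E u ≤ _) hw
    refine ⟨cj1 w p, u ++ v, hr', ?_⟩
    rw [← alg_cons R (cj1 w p) (u ++ v)]
    · exact alg_eq_of_E R hr'.E_eq
    · show w⁻¹ * p.1.1 * w ∈ _
      rw [hp]
      exact Subgroup.mul_mem _ (Subgroup.mul_mem _ (Subgroup.inv_mem _ hwgp) (hle hc)) hwgp
    · show w⁻¹ * p.1.2 * w ∈ _
      rw [hp]
      exact Subgroup.mul_mem _ (Subgroup.mul_mem _ (Subgroup.inv_mem _ hwgp) (hle hd)) hwgp
  have main : ∀ m : ℕ, m < finrank K M → (∀ x ∈ E L, T (R x) = 0) ∨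
      ∃ P B : List (Hd Γ k), WReach L (P ++ B) ∧ P.length = m + 1 ∧
        alg K R (bare B) = alg K R (bare L) ∧ m + 1 ≤ finrank K (spn K R (fc P 0)) := by
    intro m
    induction m with
    | zero =>
      intro _
      right
      obtain ⟨h, B, hr, hA⟩ := hspare L (by omega)
      refine ⟨[h], B, hr, rfl, hA, ?_⟩
      have h3 := Submodule.one_le_finrank_iff.2
        (spn_ne_bot (K := K) R (fc_zero_nonempty [h] (by simp)))
      simpa using h3
    | succ m ih =>
      intro hm
      rcases ih (by omega) with hdone | ⟨P, B, hr, hPlen, hA, hdim⟩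
      · exact Or.inl hdone
      have hBlen : finrank K M + 2 ≤ B.length := by
        have := hr.length_eq
        rw [List.length_append] at this
        omega
      by_cases hst : ∃ (h : Hd Γ k) (B' : List (Hd Γ k)), WReach B (h :: B') ∧
          alg K R (bare B') = alg K R (bare B) ∧
            spn K R (fc (P ++ [h]) 0) ≠ spn K R (fc P 0)
      · obtain ⟨h, B', h1, h2, h3⟩ := hst
        right
        refine ⟨P ++ [h], B', ?_, ?_, h2.trans hA, ?_⟩
        · refine hr.trans ?_
          have := h1.left P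
          simpa using this
        · rw [List.length_append, List.length_singleton, hPlen]
        · have h4 : spn K R (fc P 0) ≤ spn K R (fc (P ++ [h]) 0) :=
            spn_mono R (fc_mono (WExt.drop_right _ _) 0)
          have h5 := Submodule.finrank_lt_finrank_of_lt (lt_of_le_of_ne h4 (Ne.symm h3))
          omega
      · left
        push Not at hst
        set S := spn K R (fc P 0) with hS
        have hEB : E B ≤ hs R (stab S) := by
          refine all_mem R hpos hBlen ?_
          intro h B' h1 h2 h3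
          have hstab : ∀ z ∈ fc [h] (-1), z ∈ hs R (stab S) := by
            intro z hz s hsS
            show s * R z ∈ S
            rw [← hst h B' h1 h2]
            refine Submodule.span_induction (p := fun s _ => s * R z ∈ spn K R
              (fc (P ++ [h]) 0)) ?_ ?_ ?_ ?_ hsS
            · rintro _ ⟨γ, hγ, rfl⟩
              rw [← map_mul]
              refine Submodule.subset_span ⟨γ * z, ?_, rfl⟩
              have h4 := fc_mul hγ hz
              have e : (0 : ZMod k) + -1 + 1 = 0 := by ring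
              rw [e] at h4
              exact h4
            · rw [zero_mul]
              exact Submodule.zero_mem _
            · intro a b _ _ ha hb
              rw [add_mul]
              exact Submodule.add_mem _ ha hb
            · intro r a _ ha
              rw [smul_mul_assoc]
              exact Submodule.smul_mem _ r ha
          obtain ⟨⟨x, y⟩, wt⟩ := h
          obtain rfl : wt = (-1, 1) := h3
          refine ⟨hstab x ⟨y, 1, WExt.refl _⟩, ?_⟩
          have h4 : y⁻¹ ∈ hs R (stab S) := hstab _ ⟨_, _, WExt.rot x y (-1) 1⟩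
          exact inv_mem_iff.1 h4
        have halg : alg K R (bare L) ≤ stab S := by
          rw [← hA, alg_le_iff]
          exact hEB
        obtain ⟨γ, hγ⟩ := fc_zero_nonempty P (by
          intro h
          rw [h] at hPlen
          simp at hPlen)
        have hsub : E P ≤ E L := by
          rw [← hr.E_eq, E_append]
          exact le_sup_left
        intro x hx
        have h1 : γ⁻¹ * x ∈ E L := (E L).mul_mem ((E L).inv_mem (hsub (fc_sub hγ))) hx
        have h2 : R (γ⁻¹ * x) ∈ alg K R (bare L) := E_le_gp R L h1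
        have h3 : R γ ∈ S := Submodule.subset_span ⟨γ, hγ, rfl⟩
        have h4 := (mem_stab S (R (γ⁻¹ * x))).1 (halg h2) _ h3
        rw [← map_mul, mul_inv_cancel_left] at h4
        refine hspT _ (fun y hy => hT y ?_) _ h4
        exact fc_mono ((WExt.of_reach hr).trans (WExt.drop_right _ _)) 0 hy
  rcases main (finrank K M - 1) (by omega) with h | ⟨P, B, hr, -, -, hdim⟩
  · exact h
  · have htop : spn K R (fc P 0) = ⊤ := by
      apply Submodule.eq_top_of_finrank_eq
      have h2 := Submodule.finrank_le (spn K R (fc P 0))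
      omega
    intro x _
    refine hspT (fc P 0) (fun y hy => hT y ?_) _ (by rw [htop]; exact Submodule.mem_top)
    exact fc_mono ((WExt.of_reach hr).trans (WExt.drop_right _ _)) 0 hy

end SpQ
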