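import Pool.Agent.SpQ.Moves

/-!
Normalisation of the winding numbers of handles.
-/

namespace SpQ

variable {Γ : Type*} [Group Γ] {k : ℕ}

/-- natural powers of twists -/
theorem tw_nat (x y : Γ) (p q : ZMod k) (m : ℕ) :
    WReach [((x, y), (p, q))] [((x, y * x ^ m), (p, q + m * p))] := by
  induction m with
  | zero => simpa using WReach.refl _
  | succ m ih =>
    refine ih.trans ?_
    have h := WReach.of_step (WStep.tw [] [] x (y * x ^ m) p (q + m * p))
    have e : q + (m : ZMod k) * p + p = q + ((m + 1 : ℕ) : ZMod k) * p := by push_cast; ring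
    rw [e, mul_assoc, ← pow_succ] at h
    simpa using h

theorem tw_nat' (x y : Γ) (p q : ZMod k) (m : ℕ) :
    WReach [((x, y), (p, q))] [((x, y * (x⁻¹) ^ m), (p, q - m * p))] := by
  induction m with
  | zero => simpa using WReach.refl _
  | succ m ih =>
    refine ih.trans ?_
    have h := WReach.of_step (WStep.tw' [] [] x (y * (x⁻¹) ^ m) p (q - m * p))
    have e : q - (m : ZMod k) * p - p = q - ((m + 1 : ℕ) : ZMod k) * p := by push_cast; ring
    rw [e, mul_assoc, ← pow_succ] at h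
    simpa using h

/-- the second weight of a handle can be changed by any integral multiple of the first one -/
theorem tw_int (x y : Γ) (p q : ZMod k) (m : ℤ) :
    ∃ y' : Γ, WReach [((x, y), (p, q))] [((x, y'), (p, q + m * p))] := by
  rcases Int.eq_nat_or_neg m with ⟨n, rfl | rfl⟩
  · exact ⟨_, by simpa using tw_nat x y p q n⟩
  · refine ⟨y * (x⁻¹) ^ n, ?_⟩
    have h := tw_nat' x y p q n
    have e : q - (n : ZMod k) * p = q + ((-(n : ℤ) : ℤ) : ZMod k) * p := by push_cast; ring
    rw [e] at h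
    exact h

/-- Euclid's algorithm: the first weight of a handle can be made zero. -/
theorem euclid (P : ℕ) : ∀ (P' Q : ℤ), P'.natAbs = P → ∀ x y : Γ, ∃ h : Hd Γ k,
    WReach [((x, y), ((P' : ZMod k), (Q : ZMod k)))] [h] ∧ h.2.1 = 0 := by
  induction P using Nat.strong_induction_on with
  | _ P ih =>
    intro P' Q hP x y
    by_cases h0 : P' = 0
    · exact ⟨_, WReach.refl _, by simp [h0]⟩
    · obtain ⟨y', hy'⟩ := tw_int x y (P' : ZMod k) (Q : ZMod k) (-(Q / P'))
      have e : (Q : ZMod k) + ((-(Q / P') : ℤ) : ZMod k) * (P' : ZMod k) =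
          ((Q % P' : ℤ) : ZMod k) := by
        have := Int.emod_def Q P'
        rw [this]
        push_cast
        ring
      rw [e] at hy'
      have hrot := WReach.of_step (WStep.rot [] [] x y' (P' : ZMod k) ((Q % P' : ℤ) : ZMod k))
      have hlt : (-(Q % P')).natAbs < P := by
        rw [Int.natAbs_neg, ← hP]
        have h1 := Int.emod_nonneg Q h0
        have h2 := Int.emod_lt_abs Q h0
        have h3 : ((Q % P').natAbs : ℤ) = Q % P' := Int.natAbs_of_nonneg h1
        have h4 : (P'.natAbs : ℤ) = |P'| := Int.natCast_natAbs P'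
        omega
      obtain ⟨h, hh, hh0⟩ := ih _ hlt (-(Q % P')) P' rfl y'⁻¹ (y' * x * y'⁻¹)
      refine ⟨h, hy'.trans (WReach.trans ?_ hh), hh0⟩
      have e2 : -((Q % P' : ℤ) : ZMod k) = ((-(Q % P') : ℤ) : ZMod k) := by push_cast; ring
      rw [e2] at hrot
      simpa using hrot

theorem exists_zero (h : Hd Γ k) : ∃ h' : Hd Γ k, WReach [h] [h'] ∧ h'.2.1 = 0 := by
  obtain ⟨⟨x, y⟩, ⟨p, q⟩⟩ := h
  obtain ⟨P, rfl⟩ := ZMod.intCast_surjective p
  obtain ⟨Q, rfl⟩ := ZMod.intCast_surjective q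
  exact euclid _ P Q rfl x y

/-- a handle with first weight `1` can be made good -/
theorem good_of_one (x y : Γ) (q : ZMod k) :
    ∃ h' : Hd Γ k, WReach [((x, y), ((1 : ZMod k), q))] [h'] ∧ Good h' := by
  obtain ⟨Q, rfl⟩ := ZMod.intCast_surjective q
  obtain ⟨y', hy'⟩ := tw_int x y (1 : ZMod k) (Q : ZMod k) (1 - Q)
  have e : (Q : ZMod k) + ((1 - Q : ℤ) : ZMod k) * 1 = 1 := by push_cast; ring
  rw [e] at hy'
  refine ⟨((y'⁻¹, y' * x * y'⁻¹), (-1, 1)), hy'.trans ?_, rfl⟩
  simpa using WReach.of_step (WStep.rot [] [] x y' (1 : ZMod k) 1)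

/-- a handle with first weight `-1` can be made good without changing the first component -/
theorem good_of_neg_one (x y : Γ) (q : ZMod k) :
    ∃ y' : Γ, WReach [((x, y), ((-1 : ZMod k), q))] [((x, y'), ((-1 : ZMod k), (1 : ZMod k)))] := by
  obtain ⟨Q, rfl⟩ := ZMod.intCast_surjective q
  obtain ⟨y', hy'⟩ := tw_int x y (-1 : ZMod k) (Q : ZMod k) (Q - 1)
  have e : (Q : ZMod k) + ((Q - 1 : ℤ) : ZMod k) * (-1) = 1 := by push_cast; ring
  rw [e] at hy'
  exact ⟨y', hy'⟩

/-- every list of handles can be changed so that all handles but the first one are good -/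
theorem exists_good (h : Hd Γ k) (X : List (Hd Γ k)) :
    ∃ (h' : Hd Γ k) (G : List (Hd Γ k)), WReach (h :: X) (h' :: G) ∧ ∀ s ∈ G, Good s := by
  induction X generalizing h with
  | nil => exact ⟨h, [], WReach.refl _, by simp⟩
  | cons h1 X ih =>
    obtain ⟨h2, G, hG, hgood⟩ := ih h1
    obtain ⟨⟨⟨a, b⟩, ⟨p, q⟩⟩, ha, hp⟩ := exists_zero h
    obtain ⟨⟨⟨c, d⟩, ⟨p', q'⟩⟩, hc, hp'⟩ := exists_zero h2
    simp only at hp hp'
    subst hp hp'
    have hs := WReach.of_step (WStep.sl [] [] a b c d 0 q 0 q')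
    have e : (0 : ZMod k) - 0 + 1 = 1 := by ring
    rw [e] at hs
    obtain ⟨h3, h3r, h3g⟩ := good_of_one (b * a⁻¹ * b⁻¹ * c) d q'
    refine ⟨((a, b * a⁻¹ * b⁻¹ * c * d * c⁻¹ * b), (0, q + q' - 0 + 1)), h3 :: G, ?_, ?_⟩
    · have r1 := hG.left [h]
      have r2 := ha.right (h2 :: G)
      have r3 := (hc.left [((a, b), ((0 : ZMod k), q))]).right G
      have r4 := hs.right G
      have r5 := (h3r.left [((a, b * a⁻¹ * b⁻¹ * c * d * c⁻¹ * b),
        ((0 : ZMod k), q + q' - 0 + 1))]).right G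
      simp only [List.nil_append, List.cons_append] at r1 r2 r3 r4 r5
      exact (((r1.trans r2).trans r3).trans r4).trans r5
    · intro s hs'
      rcases List.mem_cons.1 hs' with rfl | hs'
      · exact h3g
      · exact hgood s hs'

end SpQ
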