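import Pool.Agent.Helper55.PwChain

/-!
Blocks of handles which generate the same algebra (the theorem of `Helper55.Pw`, with the lengths of
the blocks).
-/

namespace SpQ

open Module Helper55.Pw
open Helper12.Sc (Reach Step)

variable {k M Γ : Type*} [Field k] [Ring M] [Algebra k M] [Group Γ]

/-- a list of blocks can be moved to one in which all blocks generate the same algebra -/
theorem exists_equal_length [FiniteDimensional k M] (R : Γ →* M) (Bs : List (List (Γ × Γ)))
    (hBs : ∀ B ∈ Bs, finrank k M + 1 ≤ B.length) (hpos : 1 ≤ finrank k M) :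
    ∃ Cs : List (List (Γ × Γ)), Cs.map List.length = Bs.map List.length ∧
      Reach Bs.flatten Cs.flatten ∧ ∀ C ∈ Cs, alg k R C = alg k R Bs.flatten := by
  -- choose a maximum
  obtain ⟨Cs, ⟨hlen, hreach⟩, hmax⟩ : ∃ Cs : List (List (Γ × Γ)),
      (Cs.map List.length = Bs.map List.length ∧ Reach Bs.flatten Cs.flatten) ∧
      ∀ Ds : List (List (Γ × Γ)), Ds.map List.length = Bs.map List.length ∧
        Reach Bs.flatten Ds.flatten → pot k R Ds ≤ pot k R Cs := by
    have hbd : ∃ N, ∀ Ds : List (List (Γ × Γ)), (Ds.map List.length = Bs.map List.length ∧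
        Reach Bs.flatten Ds.flatten) → pot k R Ds ≤ N := by
      refine ⟨Bs.length * finrank k M, fun Ds hDs => ?_⟩
      have h1 : Ds.length = Bs.length := by
        have := congrArg List.length hDs.1
        simpa using this
      rw [← h1]
      exact pot_le R Ds
    obtain ⟨N, hN⟩ := hbd
    classical
    have hex : ∃ m, ∃ Ds : List (List (Γ × Γ)), (Ds.map List.length = Bs.map List.length ∧
        Reach Bs.flatten Ds.flatten) ∧ N - pot k R Ds = m := ⟨_, Bs, ⟨rfl, Reach.refl _⟩, rfl⟩
    obtain ⟨Cs, hCs, hm⟩ := Nat.find_spec hex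
    refine ⟨Cs, hCs, fun Ds hDs => ?_⟩
    have h1 := Nat.find_min' hex ⟨Ds, hDs, rfl⟩
    rw [← hm] at h1
    have h2 := hN Ds hDs
    have h3 := hN Cs hCs
    omega
  have hlenCs : Cs.length = Bs.length := by
    have := congrArg List.length hlen
    simpa using this
  have hbig : ∀ C ∈ Cs, finrank k M + 1 ≤ C.length := by
    intro C hC
    have h1 : C.length ∈ Cs.map List.length := List.mem_map_of_mem hC
    rw [hlen] at h1
    obtain ⟨B, hB, hBC⟩ := List.mem_map.1 h1
    rw [← hBC]
    exact hBs B hB
  -- adjacent blocks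
  have hadj : ∀ (Us Vs : List (List (Γ × Γ))) (B C : List (Γ × Γ)), Cs = Us ++ B :: C :: Vs →
      alg k R B = alg k R C := by
    intro Us Vs B C hCs
    refine block_eq ?_ (hbig B (by rw [hCs]; simp)) (hbig C (by rw [hCs]; simp)) hpos
    intro B' C' hB' hC' hr
    have h1 := hmax (Us ++ B' :: C' :: Vs) ⟨?_, ?_⟩
    · rw [hCs, pot_append, pot_append, pot_cons, pot_cons, pot_cons, pot_cons] at h1
      omega
    · rw [← hlen, hCs]
      simp [hB', hC']
    · refine hreach.trans ?_
      rw [hCs]
      have h2 := hr.context Us.flatten Vs.flatten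
      simpa using h2
  have hall : ∀ (Vs : List (List (Γ × Γ))) (B : List (Γ × Γ)) (Us : List (List (Γ × Γ))),
      Cs = Us ++ B :: Vs → ∀ C ∈ Vs, alg k R C = alg k R B := by
    intro Vs
    induction Vs with
    | nil =>
      intro B Us _ C hC
      exact absurd hC (List.not_mem_nil)
    | cons D Vs ih =>
      intro B Us hCs C hC
      have h1 := hadj Us Vs B D hCs
      rcases List.mem_cons.1 hC with rfl | hC
      · exact h1.symm
      · rw [h1]
        exact ih D (Us ++ [B]) (by rw [hCs]; simp) C hC
  refine ⟨Cs, hlen, hreach, ?_⟩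
  rw [← alg_reach R hreach]
  rcases Cs with _ | ⟨B, Vs⟩
  · intro C hC
    exact absurd hC (List.not_mem_nil)
  · have h1 : ∀ C ∈ B :: Vs, alg k R C = alg k R B := by
      intro C hC
      rcases List.mem_cons.1 hC with rfl | hC
      · rfl
      · exact hall Vs B [] (by simp) C hC
    have h2 : alg k R (B :: Vs).flatten = alg k R B := by
      apply le_antisymm
      · rw [alg_le]
        rintro x ⟨p, hp, hx⟩
        obtain ⟨C, hC, hpC⟩ := List.mem_flatten.1 hp
        rw [← h1 C hC]
        exact entries_sub R C ⟨p, hpC, hx⟩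
      · apply alg_mono
        rintro x ⟨p, hp, hx⟩
        exact ⟨p, List.mem_flatten.2 ⟨B, by simp, hp⟩, hx⟩
    intro C hC
    rw [h2]
    exact h1 C hC

end SpQ
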