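import Pool.Agent.SpQ.Lift
import Pool.Agent.SpQ.Norm
import Pool.Agent.SpQ.Equal

/-!
A linear relation which holds on the first components of weight zero holds on the whole group.
-/

namespace SpQ

open Module Helper55.Pw
open Helper12.Sc (Reach Step)

variable {K M Γ : Type*} [Field K] [Ring M] [Algebra K M] [Group Γ] {k : ℕ}

/-- the first components of a given weight -/
def fc (L : List (Hd Γ k)) (p : ZMod k) : Set Γ := {x | ∃ y q, WExt L [((x, y), (p, q))]}

theorem fc_mono {L L' : List (Hd Γ k)} (h : WExt L L') (p : ZMod k) : fc L' p ⊆ fc L p := by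
  rintro x ⟨y, q, hy⟩
  exact ⟨y, q, h.trans hy⟩

theorem fc_mul {L L' : List (Hd Γ k)} {p p' : ZMod k} {x x' : Γ} (hx : x ∈ fc L p)
    (hx' : x' ∈ fc L' p') : x * x' ∈ fc (L ++ L') (p + p' + 1) := by
  obtain ⟨y, q, hy⟩ := hx
  obtain ⟨y', q', hy'⟩ := hx'
  exact ⟨y', q', (hy.append hy').trans (WExt.merge x y x' y' p q p' q')⟩

theorem fc_sub {L : List (Hd Γ k)} {p : ZMod k} {x : Γ} (hx : x ∈ fc L p) : x ∈ E L := by
  obtain ⟨y, q, junk, h⟩ := hx
  rw [← h.E_eq]
  exact fst_mem_E (h := ((x, y), (p, q))) (by simp)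

/-- every weight occurs in the group of a good handle -/
theorem fc_good {h : Hd Γ k} (hh : Good h) (t : ZMod k) : ∃ z, z ∈ fc [h] t := by
  obtain ⟨⟨x, y⟩, w⟩ := h
  obtain rfl : w = (-1, 1) := hh
  obtain ⟨m, hm⟩ := ZMod.intCast_surjective (1 - t)
  obtain ⟨y', hy'⟩ := tw_int x y (-1 : ZMod k) 1 m
  have e : (1 : ZMod k) + m * (-1) = t := by rw [hm]; ring
  rw [e] at hy'
  exact ⟨x * y' * x⁻¹, x⁻¹, -(-1), (WExt.of_reach hy').trans (WExt.rot' _ _ _ _)⟩

/-- the group generated by the first components of weight `-1` -/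
theorem entries_le (h g : Hd Γ k) (G : List (Hd Γ k)) (hG : ∀ s ∈ g :: G, Good s) :
    E (h :: g :: G) ≤ Subgroup.closure (fc (h :: g :: G) (-1)) := by
  set H := Subgroup.closure (fc (h :: g :: G) (-1)) with hH
  have hgood : ∀ s ∈ g :: G, s.1.1 ∈ H ∧ s.1.2 ∈ H := by
    intro s hs
    have hx : WExt (h :: g :: G) [s] := WExt.mem (List.mem_cons_of_mem _ hs)
    have hgs := hG s hs
    obtain ⟨⟨x, y⟩, w⟩ := s
    obtain rfl : w = (-1, 1) := hgs
    refine ⟨Subgroup.subset_closure ⟨y, 1, hx⟩, ?_⟩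
    have h1 : y⁻¹ ∈ H := Subgroup.subset_closure
      ⟨y * x * y⁻¹, -1, hx.trans (WExt.rot x y (-1) 1)⟩
    exact inv_mem_iff.1 h1
  have hEg : E [g] ≤ H := E_singleton_le.2 (hgood g (by simp))
  have key : ∀ (x : Γ) (p : ZMod k), x ∈ fc [h] p → x ∈ H := by
    intro x p hx
    obtain ⟨z, hz⟩ := fc_good (hG g (by simp)) (-2 - p)
    have h1 : x * z ∈ fc ([h] ++ [g]) (p + (-2 - p) + 1) := fc_mul hx hz
    have e : p + (-2 - p) + 1 = -1 := by ring
    rw [e] at h1
    have h2 : x * z ∈ H := by
      refine Subgroup.subset_closure (fc_mono (L' := [h] ++ [g]) ?_ _ h1)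
      simpa using WExt.drop_right [h, g] G
    have h3 : z ∈ H := hEg (fc_sub hz)
    have := H.mul_mem h2 (H.inv_mem h3)
    rwa [mul_inv_cancel_right] at this
  rw [E_le]
  intro s hs
  rcases List.mem_cons.1 hs with rfl | hs
  · obtain ⟨⟨x, y⟩, ⟨p, q⟩⟩ := s
    refine ⟨key x p ⟨y, q, WExt.refl _⟩, ?_⟩
    have h1 : y⁻¹ ∈ H := key _ (-q) ⟨_, _, WExt.rot x y p q⟩
    exact inv_mem_iff.1 h1
  · exact hgood s hs

theorem closure_fc (C : List (Hd Γ k)) (hC : 2 ≤ C.length) :
    E C ≤ Subgroup.closure (fc C (-1)) := by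
  rcases C with _ | ⟨h, X⟩
  · simp at hC
  obtain ⟨h', G, hr, hG⟩ := exists_good h X
  rcases G with _ | ⟨g, G⟩
  · have := hr.length_eq
    rw [← this] at hC
    simp at hC
  rw [← hr.E_eq]
  exact (entries_le h' g G hG).trans (Subgroup.closure_mono (fc_mono (WExt.of_reach hr) _))

theorem fc_zero_nonempty (C : List (Hd Γ k)) (hC : C ≠ []) : (fc C 0).Nonempty := by
  rcases C with _ | ⟨h, X⟩
  · exact absurd rfl hC
  obtain ⟨⟨⟨x, y⟩, ⟨p, q⟩⟩, hr, hp⟩ := exists_zero h
  simp only at hp
  subst hp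
  exact ⟨x, y, q, (WExt.drop_right [h] X).trans (WExt.of_reach hr)⟩

/-- a decorated list whose bare list is a concatenation -/
theorem split_blocks (Cs : List (List (Γ × Γ))) (L : List (Hd Γ k)) (h : bare L = Cs.flatten) :
    ∃ Ds : List (List (Hd Γ k)), L = Ds.flatten ∧ Ds.map bare = Cs := by
  induction Cs generalizing L with
  | nil =>
    refine ⟨[], ?_, rfl⟩
    have : L.length = 0 := by
      rw [← bare_length, h]
      rfl
    simpa using this
  | cons C Cs ih =>
    rw [List.flatten_cons] at h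
    obtain ⟨L1, L2, rfl, h1, h2⟩ := List.map_eq_append_iff.1 h
    obtain ⟨Ds, rfl, rfl⟩ := ih L2 h2
    refine ⟨L1 :: Ds, by simp, ?_⟩
    rw [List.map_cons]
    exact congrArg (· :: Ds.map bare) h1

theorem spn_ne_bot [Nontrivial M] (R : Γ →* M) {P : Set Γ} (hP : P.Nonempty) :
    spn K R P ≠ ⊥ := by
  obtain ⟨x, hx⟩ := hP
  intro h
  have h1 : R x ∈ spn K R P := Submodule.subset_span ⟨x, hx, rfl⟩
  rw [h, Submodule.mem_bot] at h1
  have h2 : R x * R x⁻¹ = 1 := by rw [← map_mul, mul_inv_cancel, map_one]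
  rw [h1, zero_mul] at h2
  exact zero_ne_one h2

/-- the spans of the products stabilise or exhaust the algebra -/
theorem exists_stable [FiniteDimensional K M] [Nontrivial M] (R : Γ →* M)
    (C₀ : List (Hd Γ k)) (Cs : List (List (Hd Γ k))) (h₀ : C₀ ≠ [])
    (hlen : finrank K M ≤ Cs.length + 1) :
    spn K R (fc (C₀ :: Cs).flatten 0) = ⊤ ∨
      ∃ (As : List (List (Hd Γ k))) (C : List (Hd Γ k)) (Ds : List (List (Hd Γ k))),
        Cs = As ++ C :: Ds ∧
        spn K R (fc ((C₀ :: As).flatten ++ C) 0) = spn K R (fc (C₀ :: As).flatten 0) := by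
  by_contra hcon
  push Not at hcon
  obtain ⟨hcon1, hcon2⟩ := hcon
  have hne : ∀ As : List (List (Hd Γ k)), (fc (C₀ :: As).flatten 0).Nonempty := by
    intro As
    apply fc_zero_nonempty
    rw [List.flatten_cons]
    simp [h₀]
  have key : ∀ As Ds : List (List (Hd Γ k)), Cs = As ++ Ds →
      As.length + 1 ≤ finrank K (spn K R (fc (C₀ :: As).flatten 0)) := by
    intro As
    induction As using List.reverseRecOn with
    | nil =>
      intro Ds _
      have h3 := Submodule.one_le_finrank_iff.2 (spn_ne_bot (K := K) R (hne []))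
      simpa using h3
    | append_singleton As C ih =>
      intro Ds hCs
      have h1 := ih (C :: Ds) (by rw [hCs]; simp)
      have h2 := hcon2 As C Ds (by rw [hCs]; simp)
      have e : (C₀ :: (As ++ [C])).flatten = (C₀ :: As).flatten ++ C := by simp
      rw [e]
      have h3 : spn K R (fc (C₀ :: As).flatten 0) ≤
          spn K R (fc ((C₀ :: As).flatten ++ C) 0) :=
        spn_mono R (fc_mono (WExt.drop_right _ _) 0)
      have h4 := lt_of_le_of_ne h3 (Ne.symm h2)
      have h5 := Submodule.finrank_lt_finrank_of_lt h4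
      rw [List.length_append, List.length_singleton]
      omega
  have h1 := key Cs [] (by simp)
  apply hcon1
  apply Submodule.eq_top_of_finrank_eq
  have h2 := Submodule.finrank_le (spn K R (fc (C₀ :: Cs).flatten 0))
  omega

/-- A linear relation which holds on the first components of weight zero of the lists reachable from
a long list holds on the whole group. -/
theorem core [FiniteDimensional K M] {W : Type*} [AddCommGroup W] [Module K W]
    (R : Γ →* M) (L : List (Hd Γ k)) (hlen : finrank K M * (finrank K M + 1) ≤ L.length)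
    (T : M →ₗ[K] W) (hT : ∀ x ∈ fc L 0, T (R x) = 0) : ∀ x ∈ E L, T (R x) = 0 := by
  rcases Nat.eq_zero_or_pos (finrank K M) with h0 | hpos
  · have hsub : Subsingleton M := Module.finrank_zero_iff.1 h0
    intro x _
    rw [Subsingleton.elim (R x) 0, map_zero]
  have hnt : Nontrivial M := Module.nontrivial_of_finrank_pos (R := K) hpos
  obtain ⟨m, hm⟩ : ∃ m, finrank K M = m + 1 := ⟨finrank K M - 1, by omega⟩
  obtain ⟨Bs, hBlen, hBs, hfl⟩ := chunks (finrank K M + 1) m (bare L)
    (by rw [← hm, bare_length]; exact hlen)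
  obtain ⟨Cs, hClen, hreach, hCs⟩ := exists_equal_length R Bs hBs hpos
  have hClen' : Cs.length = m + 1 := by
    have := congrArg List.length hClen
    simpa [hBlen] using this
  rw [hfl] at hreach hCs
  obtain ⟨L', hL', hbare⟩ := reach_lift rfl hreach
  obtain ⟨Ds, rfl, rfl⟩ := split_blocks Cs L' hbare
  have hlong : ∀ D ∈ Ds, 2 ≤ D.length := by
    intro D hD
    have h1 : (bare D).length ∈ (Ds.map bare).map List.length :=
      List.mem_map_of_mem (List.mem_map_of_mem hD)
    rw [hClen] at h1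
    obtain ⟨B, hB, hBD⟩ := List.mem_map.1 h1
    have h2 := hBs B hB
    rw [bare_length] at hBD
    omega
  have hfcT : ∀ x ∈ fc Ds.flatten 0, T (R x) = 0 := fun x hx =>
    hT x (fc_mono (WExt.of_reach hL') 0 hx)
  have hspT : ∀ P : Set Γ, (∀ x ∈ P, T (R x) = 0) → ∀ s ∈ spn K R P, T s = 0 := by
    intro P hP s hs
    refine Submodule.span_induction (p := fun s _ => T s = 0) ?_ ?_ ?_ ?_ hs
    · rintro _ ⟨x, hx, rfl⟩
      exact hP x hx
    · exact map_zero T
    · intro a b _ _ ha hb
      rw [map_add, ha, hb, add_zero]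
    · intro r a _ ha
      rw [map_smul, ha, smul_zero]
  rcases Ds with _ | ⟨D₀, Ds⟩
  · simp at hClen'
  have hD₀ : D₀ ≠ [] := by
    have := hlong D₀ (by simp)
    rintro rfl
    simp at this
  rw [List.length_map, List.length_cons] at hClen'
  rcases exists_stable (K := K) R D₀ Ds hD₀ (by omega) with htop | ⟨As, C, Es, hdec, hst⟩
  · intro x _
    exact hspT _ hfcT _ (by rw [htop]; exact Submodule.mem_top)
  · set S := spn K R (fc (D₀ :: As).flatten 0) with hS
    have hCmem : C ∈ D₀ :: Ds := by rw [hdec]; simp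
    have hfcstab : fc C (-1) ⊆ (hs R (stab S) : Set Γ) := by
      intro z hz s hsS
      show s * R z ∈ S
      rw [← hst]
      refine Submodule.span_induction (p := fun s _ => s * R z ∈ spn K R
        (fc ((D₀ :: As).flatten ++ C) 0)) ?_ ?_ ?_ ?_ hsS
      · rintro _ ⟨γ, hγ, rfl⟩
        rw [← map_mul]
        refine Submodule.subset_span ⟨γ * z, ?_, rfl⟩
        have h1 := fc_mul hγ hz
        have e : (0 : ZMod k) + -1 + 1 = 0 := by ring
        rw [e] at h1
        exact h1
      · rw [zero_mul]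
        exact Submodule.zero_mem _
      · intro a b _ _ ha hb
        rw [add_mul]
        exact Submodule.add_mem _ ha hb
      · intro r a _ ha
        rw [smul_mul_assoc]
        exact Submodule.smul_mem _ r ha
    have hEC : E C ≤ hs R (stab S) :=
      (closure_fc C (hlong C hCmem)).trans ((Subgroup.closure_le _).2 hfcstab)
    have halg : alg K R (bare L) ≤ stab S := by
      rw [← hCs (bare C) (List.mem_map_of_mem hCmem), alg_le', entries_bare]
      exact hEC
    have hsub : E (D₀ :: As).flatten ≤ E L := by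
      rw [← hL'.E_eq, List.flatten_cons, List.flatten_cons, hdec, List.flatten_append,
        E_append, E_append, E_append]
      exact sup_le_sup_left le_sup_left _
    obtain ⟨γ, hγ⟩ := fc_zero_nonempty (D₀ :: As).flatten (by rw [List.flatten_cons]; simp [hD₀])
    intro x hx
    have h1 : γ⁻¹ * x ∈ E L := (E L).mul_mem ((E L).inv_mem (hsub (fc_sub hγ))) hx
    have h2 : R (γ⁻¹ * x) ∈ alg K R (bare L) := by
      have h3 := closure_sub (k := K) R (bare L)
      rw [entries_bare] at h3
      exact h3 h1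
    have h3 : R γ ∈ S := Submodule.subset_span ⟨γ, hγ, rfl⟩
    have h4 := (mem_stab S (R (γ⁻¹ * x))).1 (halg h2) _ h3
    rw [← map_mul, mul_inv_cancel_left] at h4
    refine hspT _ (fun y hy => hfcT y ?_) _ h4
    refine fc_mono ?_ 0 hy
    rw [List.flatten_cons, List.flatten_cons, hdec, List.flatten_append, ← List.append_assoc]
    exact WExt.drop_right _ _

end SpQ
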