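import Pool.Agent.SpQ.Wts
import Pool.Agent.SpQ.Core

/-!
The lists reachable from the decorated standard list are the images of the standard list under
orientation preserving automorphisms, decorated with their winding numbers.
-/

namespace SpQ

open Helper12.Sc Helper12.Sc.SurfaceGroup

variable {g k : ℕ} {w : SurfaceGroup g → ZMod k}

theorem step_bare {Γ : Type*} [Group Γ] {L L' : List (Hd Γ k)} (h : WStep L L') :
    Step (bare L) (bare L') := by
  unfold bare
  cases h with
  | tw u v x y p q => simpa using Step.tw (u.map Prod.fst) (v.map Prod.fst) x y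
  | tw' u v x y p q => simpa using Step.tw' (u.map Prod.fst) (v.map Prod.fst) x y
  | rot u v x y p q => simpa using Step.rot (u.map Prod.fst) (v.map Prod.fst) x y
  | rot' u v x y p q => simpa using Step.rot' (u.map Prod.fst) (v.map Prod.fst) x y
  | sl u v a b c d p q p' q' => simpa using Step.sl (u.map Prod.fst) (v.map Prod.fst) a b c d
  | sl' u v a b c d p q p' q' => simpa using Step.sl' (u.map Prod.fst) (v.map Prod.fst) a b c d
  | br u v a b c d p q p' q' => simpa using Step.br (u.map Prod.fst) (v.map Prod.fst) a b c d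
  | br' u v a b c d p q p' q' => simpa using Step.br' (u.map Prod.fst) (v.map Prod.fst) a b c d

theorem bare_decor (φ : SurfaceGroup g ≃* SurfaceGroup g) :
    bare (decor w φ) = (std g).map (Prod.map φ φ) := by
  unfold bare decor std
  rw [List.map_ofFn, List.map_ofFn]
  rfl

theorem decor_get {φ : SurfaceGroup g ≃* SurfaceGroup g} {u v : List (Hd (SurfaceGroup g) k)}
    {h : Hd (SurfaceGroup g) k} (e : u ++ h :: v = decor w φ) :
    ∃ i : Fin g, (i : ℕ) = u.length ∧
      h = ((φ (a i), φ (b i)), (w (φ (a i)), w (φ (b i)))) := by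
  have hlen := congrArg List.length e
  unfold decor at hlen e
  rw [List.length_append, List.length_cons, List.length_ofFn] at hlen
  refine ⟨⟨u.length, by omega⟩, rfl, ?_⟩
  have h1 : (u ++ h :: v)[u.length]? = some h := by
    rw [List.getElem?_append_right le_rfl, Nat.sub_self, List.getElem?_cons_zero]
  rw [e, List.getElem?_ofFn, dif_pos (by omega)] at h1
  exact (Option.some_injective _ h1).symm

/-- the decorations are the winding numbers -/
def Adapted (w : SurfaceGroup g → ZMod k) (L : List (Hd (SurfaceGroup g) k)) : Prop :=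
  ∀ h ∈ L, h.2 = (w h.1.1, w h.1.2)

theorem adapted_decor (φ : SurfaceGroup g ≃* SurfaceGroup g) : Adapted w (decor w φ) := by
  intro h hh
  unfold decor at hh
  obtain ⟨i, rfl⟩ := (List.mem_ofFn' _ _).1 hh
  rfl

theorem adapted_one {u v : List (Hd (SurfaceGroup g) k)} {h h' : Hd (SurfaceGroup g) k}
    (h1 : Adapted w (u ++ h :: v)) (h2 : h'.2 = (w h'.1.1, w h'.1.2)) :
    Adapted w (u ++ h' :: v) := by
  intro s hs
  rcases List.mem_append.1 hs with hs | hs
  · exact h1 s (by simp [hs])
  · rcases List.mem_cons.1 hs with rfl | hs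
    · exact h2
    · exact h1 s (by simp [hs])

theorem adapted_two {u v : List (Hd (SurfaceGroup g) k)} {h h' s s' : Hd (SurfaceGroup g) k}
    (h1 : Adapted w (u ++ h :: h' :: v)) (h2 : s.2 = (w s.1.1, w s.1.2))
    (h3 : s'.2 = (w s'.1.1, w s'.1.2)) : Adapted w (u ++ s :: s' :: v) := by
  intro t ht
  rcases List.mem_append.1 ht with ht | ht
  · exact h1 t (by simp [ht])
  · rcases List.mem_cons.1 ht with rfl | ht
    · exact h2
    · rcases List.mem_cons.1 ht with rfl | ht
      · exact h3
      · exact h1 t (by simp [ht])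

theorem eq_of_adapted {L L' : List (Hd (SurfaceGroup g) k)} (h : Adapted w L)
    (h' : Adapted w L') (e : bare L = bare L') : L = L' := by
  have key : ∀ L : List (Hd (SurfaceGroup g) k), Adapted w L →
      L = (bare L).map fun p => (p, (w p.1, w p.2)) := by
    intro L hL
    unfold bare
    rw [List.map_map]
    conv_lhs => rw [← List.map_id L]
    apply List.map_congr_left
    intro h hh
    exact Prod.ext rfl (hL h hh)
  rw [key L h, key L' h', e]

theorem adapted_step (hw : IsSpinStructure k w) {φ : SurfaceGroup g ≃* SurfaceGroup g}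
    (hφ : IsOrientationPreserving φ) {S L : List (Hd (SurfaceGroup g) k)} (hS : S = decor w φ)
    (h : WStep S L) : Adapted w L := by
  have hA : Adapted w S := by
    rw [hS]
    exact adapted_decor φ
  cases h with
  | tw u v x y p q =>
    obtain ⟨i, -, hh⟩ := decor_get hS
    simp only [Prod.mk.injEq] at hh
    obtain ⟨⟨rfl, rfl⟩, rfl, rfl⟩ := hh
    refine adapted_one hA ?_
    simp only
    rw [← map_mul, hw.twist φ hφ i]
  | tw' u v x y p q =>
    obtain ⟨i, -, hh⟩ := decor_get hS
    simp only [Prod.mk.injEq] at hh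
    obtain ⟨⟨rfl, rfl⟩, rfl, rfl⟩ := hh
    refine adapted_one hA ?_
    simp only
    rw [w_tw' hw hφ i]
  | rot u v x y p q =>
    obtain ⟨i, -, hh⟩ := decor_get hS
    simp only [Prod.mk.injEq] at hh
    obtain ⟨⟨rfl, rfl⟩, rfl, rfl⟩ := hh
    refine adapted_one hA ?_
    simp only
    rw [hw.inv _ (simple_aut (simple_b i) φ), hw.conj _ _ (simple_aut (simple_a i) φ)]
  | rot' u v x y p q =>
    obtain ⟨i, -, hh⟩ := decor_get hS
    simp only [Prod.mk.injEq] at hh
    obtain ⟨⟨rfl, rfl⟩, rfl, rfl⟩ := hh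
    refine adapted_one hA ?_
    simp only
    rw [hw.inv _ (simple_aut (simple_a i) φ), hw.conj _ _ (simple_aut (simple_b i) φ)]
  | sl u v x y z t p q p' q' =>
    obtain ⟨i, hi, hh⟩ := decor_get hS
    obtain ⟨j, hj, hh'⟩ := decor_get (u := u ++ [((x, y), (p, q))]) (v := v)
      (h := ((z, t), (p', q'))) (by rw [← hS]; simp)
    rw [List.length_append, List.length_singleton, ← hi] at hj
    simp only [Prod.mk.injEq] at hh hh'
    obtain ⟨⟨rfl, rfl⟩, rfl, rfl⟩ := hh
    obtain ⟨⟨rfl, rfl⟩, rfl, rfl⟩ := hh'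
    refine adapted_two hA ?_ ?_
    · simp only
      rw [w_sl2 hw hφ i j hj]
    · simp only
      rw [w_sl hw hφ i j hj]
  | sl' u v x y z t p q p' q' =>
    obtain ⟨i, hi, hh⟩ := decor_get hS
    obtain ⟨j, hj, hh'⟩ := decor_get (u := u ++ [((x, y), (p, q))]) (v := v)
      (h := ((z, t), (p', q'))) (by rw [← hS]; simp)
    rw [List.length_append, List.length_singleton, ← hi] at hj
    simp only [Prod.mk.injEq] at hh hh'
    obtain ⟨⟨rfl, rfl⟩, rfl, rfl⟩ := hh
    obtain ⟨⟨rfl, rfl⟩, rfl, rfl⟩ := hh'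
    refine adapted_two hA ?_ ?_
    · simp only
      rw [(w_sl' hw hφ i j hj).1]
    · simp only
      rw [(w_sl' hw hφ i j hj).2]
  | br u v x y z t p q p' q' =>
    obtain ⟨i, hi, hh⟩ := decor_get hS
    obtain ⟨j, hj, hh'⟩ := decor_get (u := u ++ [((x, y), (p, q))]) (v := v)
      (h := ((z, t), (p', q'))) (by rw [← hS]; simp)
    simp only [Prod.mk.injEq] at hh hh'
    obtain ⟨⟨rfl, rfl⟩, rfl, rfl⟩ := hh
    obtain ⟨⟨rfl, rfl⟩, rfl, rfl⟩ := hh'
    refine adapted_two hA ?_ rfl
    simp only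
    rw [hw.conj _ _ (simple_aut (simple_a j) φ), hw.conj _ _ (simple_aut (simple_b j) φ)]
  | br' u v x y z t p q p' q' =>
    obtain ⟨i, hi, hh⟩ := decor_get hS
    obtain ⟨j, hj, hh'⟩ := decor_get (u := u ++ [((x, y), (p, q))]) (v := v)
      (h := ((z, t), (p', q'))) (by rw [← hS]; simp)
    simp only [Prod.mk.injEq] at hh hh'
    obtain ⟨⟨rfl, rfl⟩, rfl, rfl⟩ := hh
    obtain ⟨⟨rfl, rfl⟩, rfl, rfl⟩ := hh'
    refine adapted_two hA rfl ?_
    simp only
    have e1 := hw.conj _ (φ (a j) * φ (b j) * (φ (a j))⁻¹ * (φ (b j))⁻¹)⁻¹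
      (simple_aut (simple_a i) φ)
    have e2 := hw.conj _ (φ (a j) * φ (b j) * (φ (a j))⁻¹ * (φ (b j))⁻¹)⁻¹
      (simple_aut (simple_b i) φ)
    rw [inv_inv] at e1 e2
    rw [e1, e2]

theorem step_decor (hw : IsSpinStructure k w) {φ : SurfaceGroup g ≃* SurfaceGroup g}
    (hφ : IsOrientationPreserving φ) {L : List (Hd (SurfaceGroup g) k)}
    (h : WStep (decor w φ) L) : ∃ φ' : SurfaceGroup g ≃* SurfaceGroup g,
      IsOrientationPreserving φ' ∧ L = decor w φ' := by
  have hA := adapted_step hw hφ rfl h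
  have h1 := step_bare h
  rw [bare_decor] at h1
  have h2 := h1.map (φ.symm : SurfaceGroup g →* SurfaceGroup g)
  have h3 : ((std g).map (Prod.map φ φ)).map
      (Prod.map (φ.symm : SurfaceGroup g →* SurfaceGroup g)
        (φ.symm : SurfaceGroup g →* SurfaceGroup g)) = std g := by
    rw [List.map_map]
    conv_rhs => rw [← List.map_id (std g)]
    congr 1
    funext p
    exact Prod.ext (φ.symm_apply_apply _) (φ.symm_apply_apply _)
  rw [h3] at h2
  obtain ⟨ψ, hψ, hL⟩ := exists_op_aut h2
  refine ⟨ψ.trans φ, op_trans hψ hφ, eq_of_adapted hA (adapted_decor _) ?_⟩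
  rw [bare_decor]
  have h4 := congrArg (List.map (Prod.map φ φ)) hL
  rw [List.map_map, List.map_map] at h4
  have h5 : (Prod.map φ φ ∘ Prod.map (φ.symm : SurfaceGroup g →* SurfaceGroup g)
      (φ.symm : SurfaceGroup g →* SurfaceGroup g)) = id := by
    funext p
    exact Prod.ext (φ.apply_symm_apply _) (φ.apply_symm_apply _)
  rw [h5, List.map_id] at h4
  rw [h4]
  rfl

theorem reach_decor (hw : IsSpinStructure k w) {φ : SurfaceGroup g ≃* SurfaceGroup g}
    (hφ : IsOrientationPreserving φ) {L : List (Hd (SurfaceGroup g) k)}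
    (h : WReach (decor w φ) L) : ∃ φ' : SurfaceGroup g ≃* SurfaceGroup g,
      IsOrientationPreserving φ' ∧ L = decor w φ' := by
  induction h with
  | refl => exact ⟨φ, hφ, rfl⟩
  | tail _ hs ih =>
    obtain ⟨φ', hφ', rfl⟩ := ih
    exact step_decor hw hφ' hs

/-- the first components of weight zero are simple curves of winding number zero -/
theorem fc_decor (hw : IsSpinStructure k w) {φ : SurfaceGroup g ≃* SurfaceGroup g}
    (hφ : IsOrientationPreserving φ) {x : SurfaceGroup g} (hx : x ∈ fc (decor w φ) 0) :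
    IsNonseparatingSimple x ∧ w x = 0 := by
  obtain ⟨y, q, junk, h⟩ := hx
  obtain ⟨φ', hφ', he⟩ := reach_decor hw hφ h
  obtain ⟨i, -, hi⟩ := decor_get he
  simp only [Prod.mk.injEq] at hi
  obtain ⟨⟨rfl, -⟩, h0, -⟩ := hi
  exact ⟨simple_aut (simple_a i) φ', h0.symm⟩

/-! ### weight types -/

/-- the standard list with arbitrary weights -/
def stdw (τ : Fin g → ZMod k × ZMod k) : List (Hd (SurfaceGroup g) k) :=
  List.ofFn fun i : Fin g => ((a i, b i), τ i)

/-- the weight type of an automorphism -/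
def wtype (w : SurfaceGroup g → ZMod k) (φ : SurfaceGroup g ≃* SurfaceGroup g) :
    Fin g → ZMod k × ZMod k := fun i => (w (φ (a i)), w (φ (b i)))

/-- image of a decorated list -/
def mapH {Γ Δ : Type*} [Group Γ] [Group Δ] (f : Γ →* Δ) (L : List (Hd Γ k)) : List (Hd Δ k) :=
  L.map fun h => ((f h.1.1, f h.1.2), h.2)

theorem mapH_stdw (φ : SurfaceGroup g ≃* SurfaceGroup g) :
    mapH (φ : SurfaceGroup g →* SurfaceGroup g) (stdw (wtype w φ)) = decor w φ := by
  unfold mapH stdw decor
  rw [List.map_ofFn]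
  rfl

theorem mapH_step {Γ Δ : Type*} [Group Γ] [Group Δ] (f : Γ →* Δ) {L L' : List (Hd Γ k)}
    (h : WStep L L') : WStep (mapH f L) (mapH f L') := by
  unfold mapH
  cases h with
  | tw u v x y p q =>
    simpa using WStep.tw (u.map fun h => ((f h.1.1, f h.1.2), h.2))
      (v.map fun h => ((f h.1.1, f h.1.2), h.2)) (f x) (f y) p q
  | tw' u v x y p q =>
    simpa using WStep.tw' (u.map fun h => ((f h.1.1, f h.1.2), h.2))
      (v.map fun h => ((f h.1.1, f h.1.2), h.2)) (f x) (f y) p q
  | rot u v x y p q =>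
    simpa using WStep.rot (u.map fun h => ((f h.1.1, f h.1.2), h.2))
      (v.map fun h => ((f h.1.1, f h.1.2), h.2)) (f x) (f y) p q
  | rot' u v x y p q =>
    simpa using WStep.rot' (u.map fun h => ((f h.1.1, f h.1.2), h.2))
      (v.map fun h => ((f h.1.1, f h.1.2), h.2)) (f x) (f y) p q
  | sl u v a b c d p q p' q' =>
    simpa using WStep.sl (u.map fun h => ((f h.1.1, f h.1.2), h.2))
      (v.map fun h => ((f h.1.1, f h.1.2), h.2)) (f a) (f b) (f c) (f d) p q p' q'
  | sl' u v a b c d p q p' q' =>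
    simpa using WStep.sl' (u.map fun h => ((f h.1.1, f h.1.2), h.2))
      (v.map fun h => ((f h.1.1, f h.1.2), h.2)) (f a) (f b) (f c) (f d) p q p' q'
  | br u v a b c d p q p' q' =>
    simpa using WStep.br (u.map fun h => ((f h.1.1, f h.1.2), h.2))
      (v.map fun h => ((f h.1.1, f h.1.2), h.2)) (f a) (f b) (f c) (f d) p q p' q'
  | br' u v a b c d p q p' q' =>
    simpa using WStep.br' (u.map fun h => ((f h.1.1, f h.1.2), h.2))
      (v.map fun h => ((f h.1.1, f h.1.2), h.2)) (f a) (f b) (f c) (f d) p q p' q'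

theorem mapH_reach {Γ Δ : Type*} [Group Γ] [Group Δ] (f : Γ →* Δ) {L L' : List (Hd Γ k)}
    (h : WReach L L') : WReach (mapH f L) (mapH f L') := by
  induction h with
  | refl => exact WReach.refl _
  | tail _ hs ih => exact ih.tail (mapH_step f hs)

theorem fc_map {Γ Δ : Type*} [Group Γ] [Group Δ] (f : Γ →* Δ) {L : List (Hd Γ k)} {p : ZMod k}
    {x : Γ} (hx : x ∈ fc L p) : f x ∈ fc (mapH f L) p := by
  obtain ⟨y, q, junk, h⟩ := hx
  refine ⟨f y, q, mapH f junk, ?_⟩
  have := mapH_reach f h
  unfold mapH at this ⊢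
  simpa using this

/-- the image of a first component of weight zero -/
theorem fc_stdw (hw : IsSpinStructure k w) {φ : SurfaceGroup g ≃* SurfaceGroup g}
    (hφ : IsOrientationPreserving φ) {x : SurfaceGroup g} (hx : x ∈ fc (stdw (wtype w φ)) 0) :
    IsNonseparatingSimple (φ x) ∧ w (φ x) = 0 := by
  apply fc_decor hw hφ
  rw [← mapH_stdw]
  exact fc_map (φ : SurfaceGroup g →* SurfaceGroup g) hx

theorem E_stdw (τ : Fin g → ZMod k × ZMod k) : E (stdw τ) = ⊤ := by
  unfold E
  rw [← entries_bare]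
  have : bare (stdw τ) = std g := by
    unfold bare stdw std
    rw [List.map_ofFn]
    rfl
  rw [this, closure_std]

end SpQ
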