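import Pool.Agent.Helper55.PwFin

/-!
Equalities of traces on an arbitrary set of elements of a surface group are implied by finitely
many of them.
-/

namespace SpQ

open Helper12.Sc Helper55.Pw Module SurfaceGroup MvPolynomial

/-- For every set of elements of the surface group a finite subset suffices to check that two
representations of rank `r` have equal traces on the whole set. -/
theorem exists_finset (r g : ℕ) (Lam : Set (SurfaceGroup g)) :
    ∃ s : Finset (SurfaceGroup g), (∀ x ∈ s, x ∈ Lam) ∧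
      ∀ ρ₁ ρ₂ : SurfaceGroup g →* GL (Fin r) ℂ,
        (∀ x ∈ s, (ρ₁ x : Matrix (Fin r) (Fin r) ℂ).trace =
          (ρ₂ x : Matrix (Fin r) (Fin r) ℂ).trace) →
        ∀ x ∈ Lam, (ρ₁ x : Matrix (Fin r) (Fin r) ℂ).trace =
          (ρ₂ x : Matrix (Fin r) (Fin r) ℂ).trace := by
  classical
  let f : SurfaceGroup g → MvPolynomial (Var r g) ℂ :=
    fun x => trw r g true (wd x) - trw r g false (wd x)
  have hf : ∀ (ρ₁ ρ₂ : SurfaceGroup g →* GL (Fin r) ℂ) (x : SurfaceGroup g),
      eval (pt ρ₁ ρ₂) (f x) = (ρ₁ x : Matrix (Fin r) (Fin r) ℂ).trace -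
        (ρ₂ x : Matrix (Fin r) (Fin r) ℂ).trace := by
    intro ρ₁ ρ₂ x
    simp only [f]
    rw [map_sub, eval_trw, eval_trw, wd_spec]
    rfl
  obtain ⟨t, ht, hspan⟩ := Submodule.fg_span_iff_fg_span_finset_subset (f '' Lam) |>.1
    (IsNoetherian.noetherian (Ideal.span (f '' Lam)))
  obtain ⟨s, hs, hst⟩ := Finset.subset_set_image_iff.1 ht
  refine ⟨s, fun x hx => hs hx, fun ρ₁ ρ₂ h => ?_⟩
  intro x hx
  have h1 : f x ∈ Submodule.span (MvPolynomial (Var r g) ℂ) (t : Set _) := by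
    rw [← hspan]
    exact Submodule.subset_span ⟨x, hx, rfl⟩
  have h2 : Submodule.span (MvPolynomial (Var r g) ℂ) (t : Set (MvPolynomial (Var r g) ℂ)) ≤
      RingHom.ker (eval (pt ρ₁ ρ₂)) := by
    rw [Submodule.span_le]
    intro p hp
    rw [← hst, Finset.coe_image] at hp
    obtain ⟨y, hy, rfl⟩ := hp
    show f y ∈ RingHom.ker (eval (pt ρ₁ ρ₂))
    rw [RingHom.mem_ker, hf, h y hy, sub_self]
  have h3 := h2 h1
  rw [RingHom.mem_ker, hf] at h3
  exact sub_eq_zero.1 h3

end SpQ
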