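import Pool.Agent.SpQ.Bridge
import Pool.Agent.SpQ.Greedy
import Pool.Agent.SpQ.Fin

/-!
Characters are determined by the simple curves of winding number zero, and the mapping class group
orbit of a character with finitely many values on these curves is finite.
-/

namespace SpQ

open Helper12.Sc Helper12.Sc.SurfaceGroup Module

variable {g k : ℕ} {w : SurfaceGroup g → ZMod k}

/-- Characters are determined by the first components of weight zero of a fixed weight type. -/
theorem trace_eq (r : ℕ) (hg : 4 * r ^ 2 < g) (τ : Fin g → ZMod k × ZMod k)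
    {K : Type*} [Field K] (ρ₁ ρ₂ : SurfaceGroup g →* GL (Fin r) K)
    (h : ∀ x ∈ fc (stdw τ) 0,
      (ρ₁ x : Matrix (Fin r) (Fin r) K).trace = (ρ₂ x : Matrix (Fin r) (Fin r) K).trace)
    (x : SurfaceGroup g) :
    (ρ₁ x : Matrix (Fin r) (Fin r) K).trace = (ρ₂ x : Matrix (Fin r) (Fin r) K).trace := by
  let R : SurfaceGroup g →* Matrix (Fin r) (Fin r) K × Matrix (Fin r) (Fin r) K :=
    ((Units.coeHom _).comp ρ₁).prod ((Units.coeHom _).comp ρ₂)
  let T : Matrix (Fin r) (Fin r) K × Matrix (Fin r) (Fin r) K →ₗ[K] K :=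
    (Matrix.traceLinearMap (Fin r) K K).comp (LinearMap.fst K _ _) -
      (Matrix.traceLinearMap (Fin r) K K).comp (LinearMap.snd K _ _)
  have hTR : ∀ y : SurfaceGroup g, T (R y) = (ρ₁ y : Matrix (Fin r) (Fin r) K).trace -
      (ρ₂ y : Matrix (Fin r) (Fin r) K).trace := fun y => rfl
  have hfin : finrank K (Matrix (Fin r) (Fin r) K × Matrix (Fin r) (Fin r) K) = 2 * r ^ 2 := by
    rw [Module.finrank_prod, Module.finrank_matrix, Fintype.card_fin, Module.finrank_self]
    ring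
  have h1 := relation R (stdw τ) (by
    rw [hfin]
    unfold stdw
    rw [List.length_ofFn]
    omega) T (fun y hy => by rw [hTR, h y hy, sub_self]) x (by
      rw [E_stdw]
      exact Subgroup.mem_top x)
  rw [hTR] at h1
  exact sub_eq_zero.1 h1

/-- Characters are determined by the non-separating simple curves of winding number zero. -/
theorem trace_eq_spin (r : ℕ) (hg : 4 * r ^ 2 < g) (hw : IsSpinStructure k w)
    {K : Type*} [Field K] (ρ₁ ρ₂ : SurfaceGroup g →* GL (Fin r) K)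
    (h : ∀ x : SurfaceGroup g, IsNonseparatingSimple x → w x = 0 →
      (ρ₁ x : Matrix (Fin r) (Fin r) K).trace = (ρ₂ x : Matrix (Fin r) (Fin r) K).trace)
    (x : SurfaceGroup g) :
    (ρ₁ x : Matrix (Fin r) (Fin r) K).trace = (ρ₂ x : Matrix (Fin r) (Fin r) K).trace := by
  refine trace_eq r hg (wtype w (MulEquiv.refl _)) ρ₁ ρ₂ (fun y hy => ?_) x
  obtain ⟨h1, h2⟩ := fc_stdw hw (op_refl g) hy
  exact h y h1 h2

/-- If a character takes finitely many values on the simple curves of winding number zero then its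
orbit under the mapping class group is finite. -/
theorem finite_orbit_of_traces (r : ℕ) (hk : 0 < k) (hg : 4 * r ^ 2 < g)
    (hw : IsSpinStructure k w) (ρ : SurfaceGroup g →* GL (Fin r) ℂ)
    (hρ : {z : ℂ | ∃ x : SurfaceGroup g, IsNonseparatingSimple x ∧ w x = 0 ∧
      z = (ρ x : Matrix (Fin r) (Fin r) ℂ).trace}.Finite) :
    {χ : SurfaceGroup g → ℂ | ∃ φ : SurfaceGroup g ≃* SurfaceGroup g,
      IsOrientationPreserving φ ∧
        χ = fun x => (ρ (φ x) : Matrix (Fin r) (Fin r) ℂ).trace}.Finite := by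
  classical
  have : NeZero k := ⟨hk.ne'⟩
  set T : Set ℂ := {z : ℂ | ∃ x : SurfaceGroup g, IsNonseparatingSimple x ∧ w x = 0 ∧
      z = (ρ x : Matrix (Fin r) (Fin r) ℂ).trace} with hTdef
  have hpiece : ∀ τ : Fin g → ZMod k × ZMod k,
      {χ : SurfaceGroup g → ℂ | ∃ φ : SurfaceGroup g ≃* SurfaceGroup g,
        IsOrientationPreserving φ ∧ wtype w φ = τ ∧
          χ = fun x => (ρ (φ x) : Matrix (Fin r) (Fin r) ℂ).trace}.Finite := by
    intro τ
    obtain ⟨s, hs, hdet⟩ := exists_finset r g (fc (stdw τ) 0)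
    have hfin : (Set.univ.pi fun _ : s => T).Finite := Set.Finite.pi fun _ => hρ
    refine Set.Finite.of_finite_image (f := fun (χ : SurfaceGroup g → ℂ) (x : s) => χ x)
      (hfin.subset ?_) ?_
    · rintro _ ⟨_, ⟨φ, hφ, hτ, rfl⟩, rfl⟩ x _
      have h1 := hs x x.2
      rw [← hτ] at h1
      obtain ⟨h2, h3⟩ := fc_stdw hw hφ h1
      exact ⟨φ x, h2, h3, rfl⟩
    · rintro _ ⟨φ, hφ, hτ, rfl⟩ _ ⟨ψ, hψ, hτ', rfl⟩ h
      have h1 := hdet (ρ.comp φ.toMonoidHom) (ρ.comp ψ.toMonoidHom) (fun y hy =>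
        congrFun h ⟨y, hy⟩)
      funext x
      exact trace_eq r hg τ (ρ.comp φ.toMonoidHom) (ρ.comp ψ.toMonoidHom) h1 x
  have hU := Set.finite_iUnion hpiece
  refine hU.subset ?_
  rintro χ ⟨φ, hφ, rfl⟩
  rw [Set.mem_iUnion]
  exact ⟨wtype w φ, φ, hφ, rfl, rfl⟩

/-- there are finitely many sums of `r` roots of unity of bounded order -/
theorem finite_sums (r N : ℕ) (hN : 0 < N) :
    {z : ℂ | ∃ U : Matrix (Fin r) (Fin r) ℂ, (∀ c : ℂ, U.charpoly.IsRoot c → c ^ N = 1) ∧
      U.trace = z}.Finite := by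
  classical
  let Z : Finset ℂ := (Polynomial.nthRoots N (1 : ℂ)).toFinset
  have hfin : (Set.range fun F : Fin r → Z => ∑ i, (F i : ℂ)).Finite := Set.finite_range _
  refine hfin.subset ?_
  rintro z ⟨U, hU, rfl⟩
  have hcard : U.charpoly.roots.card = r := by
    have h1 := (IsAlgClosed.splits U.charpoly).natDegree_eq_card_roots
    rw [Matrix.charpoly_natDegree_eq_dim, Fintype.card_fin] at h1
    exact h1.symm
  have htr : U.trace = U.charpoly.roots.sum :=
    Matrix.trace_eq_sum_roots_charpoly U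
  have hroot : ∀ c ∈ U.charpoly.roots, c ∈ Z := by
    intro c hc
    have h1 := hU c (Polynomial.isRoot_of_mem_roots hc)
    simp only [Z]
    rw [Multiset.mem_toFinset, Polynomial.mem_nthRoots hN]
    exact h1
  obtain ⟨l, hl⟩ := Quot.exists_rep U.charpoly.roots
  have hl' : (l : Multiset ℂ) = U.charpoly.roots := hl
  have hlen : l.length = r := by
    rw [← hcard, ← hl', Multiset.coe_card]
  subst hlen
  refine ⟨fun i => ⟨l.get i, hroot _ (by rw [← hl']; exact List.get_mem l i)⟩, ?_⟩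
  simp only
  rw [htr, ← hl', Multiset.sum_coe, ← List.sum_ofFn, List.ofFn_get]

/-- A representation takes finitely many traces on the elements whose eigenvalues are roots of
unity. -/
theorem finite_traces (r : ℕ) (ρ : SurfaceGroup g →* GL (Fin r) ℂ) (S : Set (SurfaceGroup g))
    (hS : ∀ x ∈ S, ∀ z : ℂ, (ρ x : Matrix (Fin r) (Fin r) ℂ).charpoly.IsRoot z →
      ∃ n : ℕ, 0 < n ∧ z ^ n = 1) :
    {z : ℂ | ∃ x ∈ S, z = (ρ x : Matrix (Fin r) (Fin r) ℂ).trace}.Finite := by
  have hfg : (MonoidHom.range ρ).FG := by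
    rw [Subgroup.fg_iff]
    refine ⟨Helper12.Sc.entries ((std g).map (Prod.map ρ ρ)), ?_, entries_finite _⟩
    rw [MonoidHom.range_eq_map, ← closure_std g, MonoidHom.map_closure]
    congr 1
    ext z
    constructor
    · rintro ⟨p, hp, hz⟩
      obtain ⟨q, hq, rfl⟩ := List.mem_map.1 hp
      rcases hz with rfl | rfl
      · exact ⟨q.1, ⟨q, hq, Or.inl rfl⟩, rfl⟩
      · exact ⟨q.2, ⟨q, hq, Or.inr rfl⟩, rfl⟩
    · rintro ⟨z, ⟨q, hq, hz⟩, rfl⟩
      refine ⟨Prod.map ρ ρ q, List.mem_map_of_mem hq, ?_⟩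
      rcases hz with rfl | rfl
      · exact Or.inl rfl
      · exact Or.inr rfl
  obtain ⟨F, _, _, π, hπ⟩ := exists_finite_quotient r (MonoidHom.range ρ) hfg
  refine (finite_sums r (Nat.card F) Nat.card_pos).subset ?_
  rintro z ⟨x, hx, rfl⟩
  refine ⟨(ρ x : Matrix (Fin r) (Fin r) ℂ), ?_, rfl⟩
  intro c hc
  obtain ⟨n, hn, hcn⟩ := hS x hx c hc
  have hmem : ρ x ∈ MonoidHom.range ρ := ⟨x, rfl⟩
  refine hπ (⟨ρ x, hmem⟩ ^ Nat.card F) ?_ (c ^ Nat.card F) ?_ n hn ?_
  · rw [map_pow, pow_card_eq_one']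
  · have := isRoot_pow hc (Nat.card F)
    simpa using this
  · rw [← pow_mul, mul_comm, pow_mul, hcn, one_pow]

/-- If all eigenvalues of the simple curves of winding number zero are roots of unity then the orbit
of the character under the mapping class group is finite. -/
theorem finite_orbit (r : ℕ) (hk : 0 < k) (hg : 4 * r ^ 2 < g)
    (hw : IsSpinStructure k w) (ρ : SurfaceGroup g →* GL (Fin r) ℂ)
    (hρ : ∀ x : SurfaceGroup g, IsNonseparatingSimple x → w x = 0 → ∀ z : ℂ,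
      (ρ x : Matrix (Fin r) (Fin r) ℂ).charpoly.IsRoot z → ∃ n : ℕ, 0 < n ∧ z ^ n = 1) :
    {χ : SurfaceGroup g → ℂ | ∃ φ : SurfaceGroup g ≃* SurfaceGroup g,
      IsOrientationPreserving φ ∧
        χ = fun x => (ρ (φ x) : Matrix (Fin r) (Fin r) ℂ).trace}.Finite := by
  refine finite_orbit_of_traces r hk hg hw ρ ?_
  refine (finite_traces r ρ {x | IsNonseparatingSimple x ∧ w x = 0}
    (fun x hx => hρ x hx.1 hx.2)).subset ?_
  rintro z ⟨x, hx1, hx2, rfl⟩
  exact ⟨x, ⟨hx1, hx2⟩, rfl⟩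

end SpQ
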