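import Pool.Agent.SpQ.Bridge
import Pool.Agent.H2R.Stm

/-!
# A chain of curves with winding number zero

If the winding numbers of the first `m` handles are `(-i, 0)`, `i = 0, ..., m - 1`, then these
handles contain a chain of `2 m` curves with winding number zero, and all curves which are obtained
from it by twists have winding number zero.
-/

set_option autoImplicit false

namespace SpQ

open Helper12.Sc Helper12.Sc.SurfaceGroup
open Pool.Agent.H2R (Twisted IsVanishing)

section words

variable {Γ : Type*} [Group Γ]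

/-- the members of the chain: `a 0`, `(b 0)⁻¹`, `b 0 (a 0)⁻¹ (b 0)⁻¹ (a 1)`, `(b 1)⁻¹`, ... -/
def ch (A B : ℕ → Γ) : ℕ → Γ
  | 0 => A 0
  | j + 1 => if Even j then (B (j / 2))⁻¹ else
      B (j / 2) * (A (j / 2))⁻¹ * (B (j / 2))⁻¹ * A (j / 2 + 1)

theorem ch_zero (A B : ℕ → Γ) : ch A B 0 = A 0 := rfl

theorem ch_odd (A B : ℕ → Γ) (i : ℕ) : ch A B (2 * i + 1) = (B i)⁻¹ := by
  have h : 2 * i / 2 = i := by omega
  rw [ch, if_pos (even_two_mul i), h]

theorem ch_even (A B : ℕ → Γ) (i : ℕ) :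
    ch A B (2 * i + 2) = B i * (A i)⁻¹ * (B i)⁻¹ * A (i + 1) := by
  have h : (2 * i + 1) / 2 = i := by omega
  rw [ch, if_neg (by rw [Nat.not_even_iff_odd]; exact ⟨i, rfl⟩), h]

/-- every index is `0`, odd or positive and even -/
theorem idx (j : ℕ) : j = 0 ∨ (∃ i, j = 2 * i + 1) ∨ ∃ i, j = 2 * i + 2 := by
  rcases Nat.even_or_odd' j with ⟨i, rfl | rfl⟩
  · rcases i with _ | i
    · exact Or.inl rfl
    · exact Or.inr (Or.inr ⟨i, by ring⟩)
  · exact Or.inr (Or.inl ⟨i, rfl⟩)

variable {k : ℕ}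

/-- the handle number `i` -/
def hdl (A B : ℕ → Γ) (i : ℕ) : Hd Γ k := ((A i, B i), (-(i : ZMod k), 0))

/-- the list of the first `m` handles -/
def hls (m : ℕ) (A B : ℕ → Γ) : List (Hd Γ k) := (List.range m).map (hdl A B)

theorem split_one {α : Type*} {N i : ℕ} (hi : i < N) (f : ℕ → α) : (List.range N).map f =
    (List.range i).map f ++ f i :: (List.range' (i + 1) (N - i - 1)).map f := by
  obtain ⟨r, rfl⟩ : ∃ r, N = i + (r + 1) := ⟨N - i - 1, by omega⟩
  have h : i + (r + 1) - i - 1 = r := by omega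
  rw [h, List.range_add, List.map_append]
  congr 1
  rw [List.range_succ_eq_map, List.map_cons, List.map_cons, Nat.add_zero, List.map_map,
    List.map_map, List.range'_eq_map_range, List.map_map]
  congr 1
  apply List.map_congr_left
  intro x _
  simp only [Function.comp_apply]
  congr 1
  omega

theorem split_two {α : Type*} {N i : ℕ} (hi : i + 1 < N) (f : ℕ → α) : (List.range N).map f =
    (List.range i).map f ++ f i :: f (i + 1) :: (List.range' (i + 2) (N - i - 2)).map f := by
  rw [split_one (by omega : i < N)]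
  congr 2
  obtain ⟨r, rfl⟩ : ∃ r, N = i + (r + 2) := ⟨N - i - 2, by omega⟩
  have h1 : i + (r + 2) - i - 1 = r + 1 := by omega
  have h2 : i + (r + 2) - i - 2 = r := by omega
  rw [h1, h2, List.range'_succ, List.map_cons]

theorem hls_one {m i : ℕ} (hi : i < m) {A B A' B' : ℕ → Γ} (Y : List (Hd Γ k))
    (hA : ∀ j, j ≠ i → A' j = A j) (hB : ∀ j, j ≠ i → B' j = B j)
    (h : WReach [(hdl A B i : Hd Γ k)] [hdl A' B' i]) :
    WReach (hls m A B ++ Y) (hls m A' B' ++ Y) := by
  have e : ∀ j, j ≠ i → (hdl A' B' j : Hd Γ k) = hdl A B j := fun j hj => by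
    rw [hdl, hdl, hA j hj, hB j hj]
  have h1 : hls m A' B' = (List.range i).map (hdl A B) ++ (hdl A' B' i : Hd Γ k) ::
      (List.range' (i + 1) (m - i - 1)).map (hdl A B) := by
    rw [hls, split_one hi]
    congr 1
    · apply List.map_congr_left
      intro j hj
      exact e j (by rw [List.mem_range] at hj; omega)
    · congr 1
      apply List.map_congr_left
      intro j hj
      exact e j (by rw [List.mem_range'_1] at hj; omega)
  rw [h1, hls, split_one hi]
  have h2 := (h.context ((List.range i).map (hdl A B))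
    ((List.range' (i + 1) (m - i - 1)).map (hdl A B) ++ Y))
  simp only [List.append_assoc, List.cons_append, List.nil_append] at h2 ⊢
  exact h2

theorem hls_two {m i : ℕ} (hi : i + 1 < m) {A B A' B' : ℕ → Γ} (Y : List (Hd Γ k))
    (hA : ∀ j, j ≠ i → j ≠ i + 1 → A' j = A j) (hB : ∀ j, j ≠ i → j ≠ i + 1 → B' j = B j)
    (h : WReach [(hdl A B i : Hd Γ k), hdl A B (i + 1)] [hdl A' B' i, hdl A' B' (i + 1)]) :
    WReach (hls m A B ++ Y) (hls m A' B' ++ Y) := by
  have e : ∀ j, j ≠ i → j ≠ i + 1 → (hdl A' B' j : Hd Γ k) = hdl A B j := fun j hj hj' => by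
    rw [hdl, hdl, hA j hj hj', hB j hj hj']
  have h1 : hls m A' B' = (List.range i).map (hdl A B) ++ (hdl A' B' i : Hd Γ k) ::
      hdl A' B' (i + 1) :: (List.range' (i + 2) (m - i - 2)).map (hdl A B) := by
    rw [hls, split_two hi]
    congr 1
    · apply List.map_congr_left
      intro j hj
      rw [List.mem_range] at hj
      exact e j (by omega) (by omega)
    · congr 2
      apply List.map_congr_left
      intro j hj
      rw [List.mem_range'_1] at hj
      exact e j (by omega) (by omega)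
  rw [h1, hls, split_two hi]
  have h2 := (h.context ((List.range i).map (hdl A B))
    ((List.range' (i + 2) (m - i - 2)).map (hdl A B) ++ Y))
  simp only [List.append_assoc, List.cons_append, List.nil_append] at h2 ⊢
  exact h2

/-! ### The twists as moves -/

theorem mv_zero (x y : Γ) (q : ZMod k) :
    WReach [((x, y), ((0 : ZMod k), q))] [((x, y * x), (0, q))] := by
  have h := WReach.of_step (WStep.tw [] [] x y (0 : ZMod k) q)
  simpa using h

theorem mv_zero' (x y : Γ) (q : ZMod k) :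
    WReach [((x, y), ((0 : ZMod k), q))] [((x, y * x⁻¹), (0, q))] := by
  have h := WReach.of_step (WStep.tw' [] [] x y (0 : ZMod k) q)
  simpa using h

theorem mv_odd (x y : Γ) (p : ZMod k) :
    WReach [((x, y), (p, (0 : ZMod k)))] [((x * y⁻¹, y), (p, 0))] := by
  have h1 := WReach.of_step (WStep.rot [] [] x y p (0 : ZMod k))
  have h2 := WReach.of_step (WStep.tw [] [] y⁻¹ (y * x * y⁻¹) (-0 : ZMod k) p)
  have h3 := WReach.of_step (WStep.rot' [] [] y⁻¹ (y * x * y⁻¹ * y⁻¹) (-0 : ZMod k) (p + -0))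
  have h := (h1.trans h2).trans h3
  have e1 : y⁻¹ * (y * x * y⁻¹ * y⁻¹) * y⁻¹⁻¹ = x * y⁻¹ := by group
  rw [e1, inv_inv, neg_zero, neg_zero, add_zero] at h
  simpa using h

theorem mv_odd' (x y : Γ) (p : ZMod k) :
    WReach [((x, y), (p, (0 : ZMod k)))] [((x * y, y), (p, 0))] := by
  have h1 := WReach.of_step (WStep.rot [] [] x y p (0 : ZMod k))
  have h2 := WReach.of_step (WStep.tw' [] [] y⁻¹ (y * x * y⁻¹) (-0 : ZMod k) p)
  have h3 := WReach.of_step (WStep.rot' [] [] y⁻¹ (y * x * y⁻¹ * y⁻¹⁻¹) (-0 : ZMod k) (p - -0))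
  have h := (h1.trans h2).trans h3
  have e1 : y⁻¹ * (y * x * y⁻¹ * y⁻¹⁻¹) * y⁻¹⁻¹ = x * y := by group
  rw [e1, inv_inv, neg_zero, neg_zero, sub_zero] at h
  simpa using h

theorem mv_even (a b a1 b1 : Γ) (p q p' q' : ZMod k) (hp : p' - p + 1 = 0) :
    WReach [((a, b), (p, q)), ((a1, b1), (p', q'))]
      [((a, (b * a⁻¹ * b⁻¹ * a1)⁻¹ * b), (p, q)),
        (((b * a⁻¹ * b⁻¹ * a1)⁻¹ * a1 * (b * a⁻¹ * b⁻¹ * a1), b1 * (b * a⁻¹ * b⁻¹ * a1)),
          (p', q'))] := by
  have h1 := WReach.of_step (WStep.sl [] [] a b a1 b1 p q p' q')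
  have h2 := WReach.of_step (WStep.tw [((a, b * a⁻¹ * b⁻¹ * a1 * b1 * a1⁻¹ * b),
    (p, q + q' - p + 1))] [] (b * a⁻¹ * b⁻¹ * a1) b1 (p' - p + 1) q')
  have h3 := WReach.of_step (WStep.sl' [] [] a (b * a⁻¹ * b⁻¹ * a1 * b1 * a1⁻¹ * b)
    (b * a⁻¹ * b⁻¹ * a1) (b1 * (b * a⁻¹ * b⁻¹ * a1)) p (q + q' - p + 1) (p' - p + 1)
    (q' + (p' - p + 1)))
  simp only [List.nil_append, List.cons_append] at h1 h2 h3
  have h := (h1.trans h2).trans h3
  have e1 : b * a⁻¹ * b⁻¹ * a1 * (b1 * (b * a⁻¹ * b⁻¹ * a1))⁻¹ * (b * a⁻¹ * b⁻¹ * a1)⁻¹ *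
      (b * a⁻¹ * b⁻¹ * a1 * b1 * a1⁻¹ * b) * a = (b * a⁻¹ * b⁻¹ * a1)⁻¹ * b := by group
  have e2 : b * a⁻¹ * b⁻¹ * a1 * (b1 * (b * a⁻¹ * b⁻¹ * a1))⁻¹ * (b * a⁻¹ * b⁻¹ * a1)⁻¹ *
      (b * a⁻¹ * b⁻¹ * a1 * b1 * a1⁻¹ * b) * a * (b * a⁻¹ * b⁻¹ * a1 * b1 * a1⁻¹ * b)⁻¹ *
      (b * a⁻¹ * b⁻¹ * a1) * (b1 * (b * a⁻¹ * b⁻¹ * a1)) =
      (b * a⁻¹ * b⁻¹ * a1)⁻¹ * a1 * (b * a⁻¹ * b⁻¹ * a1) := by group
  have w1 : q + q' - p + 1 - (q' + (p' - p + 1)) + p - 1 = q := by
    rw [hp]
    ring
  have w2 : p' - p + 1 + p - 1 = p' := by ring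
  have w3 : q' + (p' - p + 1) = q' := by rw [hp, add_zero]
  rw [e2, e1, w1, w2, w3] at h
  exact h

theorem mv_even' (a b a1 b1 : Γ) (p q p' q' : ZMod k) (hp : p' - p + 1 = 0) :
    WReach [((a, b), (p, q)), ((a1, b1), (p', q'))]
      [((a, (b * a⁻¹ * b⁻¹ * a1) * b), (p, q)),
        (((b * a⁻¹ * b⁻¹ * a1) * a1 * (b * a⁻¹ * b⁻¹ * a1)⁻¹, b1 * (b * a⁻¹ * b⁻¹ * a1)⁻¹),
          (p', q'))] := by
  have h1 := WReach.of_step (WStep.sl [] [] a b a1 b1 p q p' q')
  have h2 := WReach.of_step (WStep.tw' [((a, b * a⁻¹ * b⁻¹ * a1 * b1 * a1⁻¹ * b),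
    (p, q + q' - p + 1))] [] (b * a⁻¹ * b⁻¹ * a1) b1 (p' - p + 1) q')
  have h3 := WReach.of_step (WStep.sl' [] [] a (b * a⁻¹ * b⁻¹ * a1 * b1 * a1⁻¹ * b)
    (b * a⁻¹ * b⁻¹ * a1) (b1 * (b * a⁻¹ * b⁻¹ * a1)⁻¹) p (q + q' - p + 1) (p' - p + 1)
    (q' - (p' - p + 1)))
  simp only [List.nil_append, List.cons_append] at h1 h2 h3
  have h := (h1.trans h2).trans h3
  have e1 : b * a⁻¹ * b⁻¹ * a1 * (b1 * (b * a⁻¹ * b⁻¹ * a1)⁻¹)⁻¹ * (b * a⁻¹ * b⁻¹ * a1)⁻¹ *
      (b * a⁻¹ * b⁻¹ * a1 * b1 * a1⁻¹ * b) * a = (b * a⁻¹ * b⁻¹ * a1) * b := by group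
  have e2 : b * a⁻¹ * b⁻¹ * a1 * (b1 * (b * a⁻¹ * b⁻¹ * a1)⁻¹)⁻¹ * (b * a⁻¹ * b⁻¹ * a1)⁻¹ *
      (b * a⁻¹ * b⁻¹ * a1 * b1 * a1⁻¹ * b) * a * (b * a⁻¹ * b⁻¹ * a1 * b1 * a1⁻¹ * b)⁻¹ *
      (b * a⁻¹ * b⁻¹ * a1) * (b1 * (b * a⁻¹ * b⁻¹ * a1)⁻¹) =
      (b * a⁻¹ * b⁻¹ * a1) * a1 * (b * a⁻¹ * b⁻¹ * a1)⁻¹ := by group
  have w1 : q + q' - p + 1 - (q' - (p' - p + 1)) + p - 1 = q := by
    rw [hp]
    ring
  have w2 : p' - p + 1 + p - 1 = p' := by ring
  have w3 : q' - (p' - p + 1) = q' := by rw [hp, sub_zero]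
  rw [e2, e1, w1, w2, w3] at h
  exact h

/-! ### The invariant -/

/-- the chain `c` consists of the curves of a list of handles with the same weights -/
def Cinv (m : ℕ) (L₀ Y : List (Hd Γ k)) (c : Fin (2 * m) → Γ) : Prop :=
  ∃ A B : ℕ → Γ, WReach L₀ (hls m A B ++ Y) ∧ ∀ j : Fin (2 * m), c j = ch A B j

theorem twist_injective {n : ℕ} {i : Fin n} {c c' : Fin n → Γ}
    (h : Pool.Agent.H2R.twist i c = Pool.Agent.H2R.twist i c') : c = c' := by
  have hi : c i = c' i := by
    have := congrFun h i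
    simp only [Pool.Agent.H2R.twist] at this
    rwa [if_neg (by omega), if_neg (by omega), if_neg (by omega), if_neg (by omega)] at this
  funext j
  have hj := congrFun h j
  simp only [Pool.Agent.H2R.twist, hi] at hj
  split_ifs at hj with h1 h2
  · exact mul_right_cancel hj
  · exact mul_left_cancel hj
  · exact hj

/-- the twist on sequences -/
def Tw (i : ℕ) (f : ℕ → Γ) (j : ℕ) : Γ :=
  if j + 1 = i then f j * f i else if j = i + 1 then (f i)⁻¹ * f j else f j

theorem twist_eq {n : ℕ} (i : Fin n) {c : Fin n → Γ} {f : ℕ → Γ} (h : ∀ j : Fin n, c j = f j)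
    (j : Fin n) : Pool.Agent.H2R.twist i c j = Tw i f j := by
  simp only [Pool.Agent.H2R.twist, Tw, h]

theorem tw_zero (A B : ℕ → Γ) (j : ℕ) :
    ch A (Function.update B 0 (B 0 * A 0)) j = Tw 0 (ch A B) j := by
  rcases idx j with rfl | ⟨l, rfl⟩ | ⟨l, rfl⟩
  · rw [Tw, if_neg (by omega), if_neg (by omega), ch_zero, ch_zero]
  · rw [Tw, if_neg (by omega), ch_odd, ch_odd]
    by_cases hl : l = 0
    · subst hl
      rw [Function.update_self, if_pos (by omega), ch_zero, mul_inv_rev]
    · rw [Function.update_of_ne hl, if_neg (by omega)]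
  · rw [Tw, if_neg (by omega), if_neg (by omega), ch_even, ch_even]
    by_cases hl : l = 0
    · subst hl
      rw [Function.update_self]
      group
    · rw [Function.update_of_ne hl]

theorem tw_odd (A B : ℕ → Γ) (i j : ℕ) :
    ch (Function.update A i (A i * (B i)⁻¹)) B j = Tw (2 * i + 1) (ch A B) j := by
  rcases idx j with rfl | ⟨l, rfl⟩ | ⟨l, rfl⟩
  · rw [Tw, if_neg (by omega : ¬ 0 = 2 * i + 1 + 1), ch_zero, ch_zero, ch_odd]
    by_cases hi : i = 0
    · subst hi
      rw [Function.update_self, if_pos (by omega)]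
    · rw [Function.update_of_ne (Ne.symm hi), if_neg (by omega)]
  · rw [Tw, if_neg (by omega), if_neg (by omega), ch_odd, ch_odd]
  · rw [Tw, ch_even, ch_even, ch_odd]
    by_cases h1 : l + 1 = i
    · subst h1
      rw [Function.update_self, Function.update_of_ne (by omega), if_pos (by omega)]
      simp only [mul_assoc]
    · rw [Function.update_of_ne h1, if_neg (by omega)]
      by_cases h2 : l = i
      · subst h2
        rw [Function.update_self, if_pos (by omega)]
        group
      · rw [Function.update_of_ne h2, if_neg (by omega)]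

theorem tw_even (A B : ℕ → Γ) (i : ℕ) (c : Γ) (hc : c = B i * (A i)⁻¹ * (B i)⁻¹ * A (i + 1))
    (j : ℕ) : ch (Function.update A (i + 1) (c⁻¹ * A (i + 1) * c))
      (Function.update (Function.update B i (c⁻¹ * B i)) (i + 1) (B (i + 1) * c)) j =
        Tw (2 * i + 2) (ch A B) j := by
  have hA : A (i + 1) = B i * A i * (B i)⁻¹ * c := by
    rw [hc]
    group
  rcases idx j with rfl | ⟨l, rfl⟩ | ⟨l, rfl⟩
  · rw [Tw, if_neg (by omega), if_neg (by omega), ch_zero, ch_zero,
      Function.update_of_ne (by omega)]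
  · rw [Tw, ch_odd, ch_odd, ch_even, ← hc]
    by_cases h1 : l = i + 1
    · subst h1
      rw [Function.update_self, if_neg (by omega), if_pos (by omega), mul_inv_rev]
    · rw [Function.update_of_ne h1, if_neg (by omega : ¬ 2 * l + 1 = 2 * i + 2 + 1)]
      by_cases h2 : l = i
      · subst h2
        rw [Function.update_self, if_pos (by omega)]
        group
      · rw [Function.update_of_ne h2, if_neg (by omega)]
  · rw [Tw, if_neg (by omega), if_neg (by omega), ch_even, ch_even]
    by_cases h1 : l = i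
    · subst h1
      rw [Function.update_self, Function.update_of_ne (by omega : l ≠ l + 1),
        Function.update_of_ne (by omega : l ≠ l + 1), Function.update_self, ← hc]
      rw [hA]
      group
    · rw [Function.update_of_ne (by omega : l + 1 ≠ i + 1)]
      by_cases h2 : l = i + 1
      · subst h2
        rw [Function.update_self, Function.update_self]
        group
      · rw [Function.update_of_ne h2, Function.update_of_ne h2, Function.update_of_ne h1]

theorem Cinv.twist {m : ℕ} {L₀ Y : List (Hd Γ k)} {c : Fin (2 * m) → Γ} (h : Cinv m L₀ Y c)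
    (i : Fin (2 * m)) : Cinv m L₀ Y (Pool.Agent.H2R.twist i c) := by
  obtain ⟨A, B, hr, hc⟩ := h
  obtain ⟨i, hi⟩ := i
  rcases idx i with rfl | ⟨l, rfl⟩ | ⟨l, rfl⟩
  · refine ⟨A, Function.update B 0 (B 0 * A 0), hr.trans (hls_one (i := 0) (by omega) Y
      (fun _ _ => rfl) (fun j hj => Function.update_of_ne hj _ _) ?_), fun j => ?_⟩
    · have := mv_zero (A 0) (B 0) (0 : ZMod k)
      simpa [hdl] using this
    · rw [twist_eq _ hc, tw_zero]
  · refine ⟨Function.update A l (A l * (B l)⁻¹), B, hr.trans (hls_one (i := l) (by omega) Y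
      (fun j hj => Function.update_of_ne hj _ _) (fun _ _ => rfl) ?_), fun j => ?_⟩
    · have := mv_odd (A l) (B l) (-(l : ZMod k))
      simpa [hdl] using this
    · rw [twist_eq _ hc, tw_odd]
  · refine ⟨Function.update A (l + 1) ((B l * (A l)⁻¹ * (B l)⁻¹ * A (l + 1))⁻¹ * A (l + 1) *
        (B l * (A l)⁻¹ * (B l)⁻¹ * A (l + 1))),
      Function.update (Function.update B l ((B l * (A l)⁻¹ * (B l)⁻¹ * A (l + 1))⁻¹ * B l)) (l + 1)
        (B (l + 1) * (B l * (A l)⁻¹ * (B l)⁻¹ * A (l + 1))),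
      hr.trans (hls_two (i := l) (by omega) Y
      (fun j _ hj => Function.update_of_ne hj _ _)
      (fun j hj hj' => by rw [Function.update_of_ne hj', Function.update_of_ne hj]) ?_),
      fun j => ?_⟩
    · have := mv_even (A l) (B l) (A (l + 1)) (B (l + 1)) (-(l : ZMod k)) 0
        (-((l + 1 : ℕ) : ZMod k)) 0 (by push_cast; ring)
      have n1 : l ≠ l + 1 := by omega
      simpa [hdl, Function.update_of_ne n1] using this
    · rw [twist_eq _ hc, tw_even _ _ _ _ rfl]

theorem Cinv.untwist {m : ℕ} {L₀ Y : List (Hd Γ k)} {c : Fin (2 * m) → Γ} (i : Fin (2 * m))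
    (h : Cinv m L₀ Y (Pool.Agent.H2R.twist i c)) : Cinv m L₀ Y c := by
  obtain ⟨A, B, hr, hc⟩ := h
  -- it is enough to find handles whose twist is `A`, `B`
  have key : ∀ A' B' : ℕ → Γ, WReach (hls m A B ++ Y) (hls m A' B' ++ Y) →
      (∀ j : Fin (2 * m), Tw i (ch A' B') j = ch A B j) → Cinv m L₀ Y c := by
    intro A' B' hr' hT
    refine ⟨A', B', hr.trans hr', fun j => ?_⟩
    have h1 : Pool.Agent.H2R.twist i (fun j : Fin (2 * m) => ch A' B' j) =
        Pool.Agent.H2R.twist i c := by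
      funext j
      rw [hc j, ← hT j]
      exact twist_eq i (fun _ => rfl) j
    exact (congrFun (twist_injective h1) j).symm
  obtain ⟨i, hi⟩ := i
  rcases idx i with rfl | ⟨l, rfl⟩ | ⟨l, rfl⟩
  · refine key A (Function.update B 0 (B 0 * (A 0)⁻¹)) (hls_one (i := 0) (by omega) Y
      (fun _ _ => rfl) (fun j hj => Function.update_of_ne hj _ _) ?_) (fun j => ?_)
    · have := mv_zero' (A 0) (B 0) (0 : ZMod k)
      simpa [hdl] using this
    · change Tw 0 _ _ = _
      rw [← tw_zero, Function.update_self, Function.update_idem, inv_mul_cancel_right,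
        Function.update_eq_self]
  · refine key (Function.update A l (A l * B l)) B (hls_one (i := l) (by omega) Y
      (fun j hj => Function.update_of_ne hj _ _) (fun _ _ => rfl) ?_) (fun j => ?_)
    · have := mv_odd' (A l) (B l) (-(l : ZMod k))
      simpa [hdl] using this
    · change Tw (2 * l + 1) _ _ = _
      rw [← tw_odd, Function.update_self, Function.update_idem, mul_inv_cancel_right,
        Function.update_eq_self]
  · set d := B l * (A l)⁻¹ * (B l)⁻¹ * A (l + 1) with hd
    have n1 : l ≠ l + 1 := by omega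
    refine key (Function.update A (l + 1) (d * A (l + 1) * d⁻¹))
      (Function.update (Function.update B l (d * B l)) (l + 1) (B (l + 1) * d⁻¹))
      (hls_two (i := l) (by omega) Y
      (fun j _ hj => Function.update_of_ne hj _ _)
      (fun j hj hj' => by rw [Function.update_of_ne hj', Function.update_of_ne hj]) ?_)
      (fun j => ?_)
    · have := mv_even' (A l) (B l) (A (l + 1)) (B (l + 1)) (-(l : ZMod k)) 0
        (-((l + 1 : ℕ) : ZMod k)) 0 (by push_cast; ring)
      simpa [hdl, Function.update_of_ne n1, hd] using this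
    · change Tw (2 * l + 2) _ _ = _
      rw [← tw_even _ _ _ d ?_]
      · rw [Function.update_self, Function.update_idem, Function.update_self,
          Function.update_of_ne n1, Function.update_self]
        have e1 : d⁻¹ * (d * A (l + 1) * d⁻¹) * d = A (l + 1) := by group
        have e2 : d⁻¹ * (d * B l) = B l := by group
        have e3 : B (l + 1) * d⁻¹ * d = B (l + 1) := by group
        rw [e1, e2, e3, Function.update_eq_self]
        congr 1
        funext x
        by_cases h1 : x = l + 1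
        · subst h1
          rw [Function.update_self]
        · rw [Function.update_of_ne h1]
          by_cases h2 : x = l
          · subst h2
            rw [Function.update_self]
          · rw [Function.update_of_ne h2, Function.update_of_ne h1, Function.update_of_ne h2]
      · rw [Function.update_self, Function.update_of_ne n1, Function.update_self,
          Function.update_of_ne n1]
        have e4 : d * B l * (A l)⁻¹ * (d * B l)⁻¹ * (d * A (l + 1) * d⁻¹) =
            d * (B l * (A l)⁻¹ * (B l)⁻¹ * A (l + 1)) * d⁻¹ := by group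
        rw [e4, ← hd]
        group

theorem Cinv.twisted {m : ℕ} {L₀ Y : List (Hd Γ k)} {c c' : Fin (2 * m) → Γ}
    (h : Cinv m L₀ Y c) (ht : Twisted c c') : Cinv m L₀ Y c' := by
  induction ht with
  | refl => exact h
  | twist i _ ih => exact ih.twist i
  | untwist i _ ih => exact Cinv.untwist i ih

/-- the members of the chain are first components of weight zero of reachable lists -/
theorem Cinv.fst {m : ℕ} {L₀ Y : List (Hd Γ k)} {c : Fin (2 * m) → Γ}
    (h : Cinv m L₀ Y c) (j : Fin (2 * m)) :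
    ∃ (u v : List (Hd Γ k)) (y : Γ) (q : ZMod k), WReach L₀ (u ++ ((c j, y), (0, q)) :: v) := by
  obtain ⟨A, B, hr, hc⟩ := h
  rw [hc j]
  obtain ⟨j, hj⟩ := j
  simp only
  rcases idx j with rfl | ⟨l, rfl⟩ | ⟨l, rfl⟩
  · rw [hls, split_one (by omega : 0 < m)] at hr
    simp only [List.append_assoc, List.cons_append] at hr
    have e : (hdl A B 0 : Hd Γ k) = ((ch A B 0, B 0), (0, 0)) := by
      rw [ch_zero, hdl, Nat.cast_zero, neg_zero]
    rw [e] at hr
    exact ⟨_, _, _, _, hr⟩
  · rw [hls, split_one (by omega : l < m)] at hr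
    simp only [List.append_assoc, List.cons_append] at hr
    have h1 := hr.tail (WStep.rot ((List.range l).map (hdl A B))
      ((List.range' (l + 1) (m - l - 1)).map (hdl A B) ++ Y) (A l) (B l) (-(l : ZMod k)) 0)
    rw [neg_zero] at h1
    rw [ch_odd]
    exact ⟨_, _, _, _, h1⟩
  · rw [hls, split_two (by omega : l + 1 < m)] at hr
    simp only [List.append_assoc, List.cons_append] at hr
    have h1 := hr.tail (WStep.sl ((List.range l).map (hdl A B))
      ((List.range' (l + 2) (m - l - 2)).map (hdl A B) ++ Y) (A l) (B l) (A (l + 1)) (B (l + 1))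
      (-(l : ZMod k)) 0 (-((l + 1 : ℕ) : ZMod k)) 0)
    have e : -((l + 1 : ℕ) : ZMod k) - -(l : ZMod k) + 1 = 0 := by push_cast; ring
    rw [e] at h1
    rw [ch_even]
    refine ⟨(List.range l).map (hdl A B) ++ [((A l, B l * (A l)⁻¹ * (B l)⁻¹ * A (l + 1) *
      B (l + 1) * (A (l + 1))⁻¹ * B l), (-(l : ZMod k), 0 + 0 - -(l : ZMod k) + 1))],
      (List.range' (l + 2) (m - l - 2)).map (hdl A B) ++ Y, B (l + 1), 0, ?_⟩
    · simp only [List.append_assoc, List.cons_append, List.nil_append]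
      exact h1

/-- the chain generates the handles -/
theorem closure_ch (m : ℕ) (A B : ℕ → Γ) :
    Subgroup.closure (Set.range fun j : Fin (2 * m) => ch A B j) =
      Subgroup.closure {z | ∃ i < m, z = A i ∨ z = B i} := by
  apply le_antisymm
  · rw [Subgroup.closure_le]
    rintro _ ⟨⟨j, hj⟩, rfl⟩
    have hA : ∀ i < m, A i ∈ Subgroup.closure {z | ∃ i < m, z = A i ∨ z = B i} := fun i hi =>
      Subgroup.subset_closure ⟨i, hi, Or.inl rfl⟩
    have hB : ∀ i < m, B i ∈ Subgroup.closure {z | ∃ i < m, z = A i ∨ z = B i} := fun i hi =>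
      Subgroup.subset_closure ⟨i, hi, Or.inr rfl⟩
    simp only [SetLike.mem_coe]
    rcases idx j with rfl | ⟨l, rfl⟩ | ⟨l, rfl⟩
    · rw [ch_zero]
      exact hA 0 (by omega)
    · rw [ch_odd]
      exact inv_mem (hB l (by omega))
    · rw [ch_even]
      exact mul_mem (mul_mem (mul_mem (hB l (by omega)) (inv_mem (hA l (by omega))))
        (inv_mem (hB l (by omega)))) (hA (l + 1) (by omega))
  · rw [Subgroup.closure_le]
    have hc : ∀ j < 2 * m, ch A B j ∈
        Subgroup.closure (Set.range fun j : Fin (2 * m) => ch A B j) := fun j hj =>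
      Subgroup.subset_closure ⟨⟨j, hj⟩, rfl⟩
    have hB : ∀ i < m, B i ∈ Subgroup.closure (Set.range fun j : Fin (2 * m) => ch A B j) := by
      intro i hi
      have := hc (2 * i + 1) (by omega)
      rw [ch_odd] at this
      exact inv_mem_iff.1 this
    have hA : ∀ i < m, A i ∈ Subgroup.closure (Set.range fun j : Fin (2 * m) => ch A B j) := by
      intro i
      induction i with
      | zero =>
        intro hi
        have := hc 0 (by omega)
        rwa [ch_zero] at this
      | succ i ih =>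
        intro hi
        have h1 := hc (2 * i + 2) (by omega)
        rw [ch_even] at h1
        have h2 := ih (by omega)
        have h3 := hB i (by omega)
        have h4 := mul_mem (mul_mem (mul_mem h3 h2) (inv_mem h3)) h1
        have e : B i * A i * (B i)⁻¹ * (B i * (A i)⁻¹ * (B i)⁻¹ * A (i + 1)) = A (i + 1) := by
          group
        rwa [e] at h4
    rintro z ⟨i, hi, rfl | rfl⟩
    · exact hA i hi
    · exact hB i hi

end words

section surface

variable {k g : ℕ} {w : SurfaceGroup g → ZMod k}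

/-- **The chain.** If the winding numbers of the first `m` handles are `(-i, 0)` then these handles
are generated by a chain of length `2 m`, and all its vanishing cycles are non-separating simple
closed curves with winding number zero. -/
theorem spin_chain (hw : IsSpinStructure k w) {φ : SurfaceGroup g ≃* SurfaceGroup g}
    (hφ : IsOrientationPreserving φ) {m : ℕ} (hm : m ≤ g)
    (hτ : ∀ i : Fin g, (i : ℕ) < m → w (φ (a i)) = -((i : ℕ) : ZMod k) ∧ w (φ (b i)) = 0) :
    ∃ c : Fin (2 * m) → SurfaceGroup g,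
      Subgroup.closure (Set.range c) =
        Subgroup.closure {z | ∃ i : Fin g, (i : ℕ) < m ∧ (z = φ (a i) ∨ z = φ (b i))} ∧
      ∀ x, IsVanishing c x → IsNonseparatingSimple x ∧ w x = 0 := by
  let A : ℕ → SurfaceGroup g := fun i => if h : i < g then φ (a ⟨i, h⟩) else 1
  let B : ℕ → SurfaceGroup g := fun i => if h : i < g then φ (b ⟨i, h⟩) else 1
  have hA : ∀ i : Fin g, A i = φ (a i) := fun i => by simp only [A]; rw [dif_pos i.2]
  have hB : ∀ i : Fin g, B i = φ (b i) := fun i => by simp only [B]; rw [dif_pos i.2]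
  let Y : List (Hd (SurfaceGroup g) k) := (List.range' m (g - m)).map
    fun i => ((A i, B i), (w (A i), w (B i)))
  have hdec : decor w φ = hls m A B ++ Y := by
    have h1 : decor w φ = (List.range g).map fun i => ((A i, B i), (w (A i), w (B i))) := by
      rw [decor, List.ofFn_eq_map, ← List.map_coe_finRange_eq_range, List.map_map]
      apply List.map_congr_left
      intro i _
      simp only [Function.comp_apply, hA, hB]
    have h2 : List.range g = List.range m ++ List.range' m (g - m) := by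
      rw [List.range_eq_range', List.range_eq_range']
      have := List.range'_append_1 (s := 0) (m := m) (n := g - m)
      rw [Nat.zero_add] at this
      rw [this]
      congr 1
      omega
    rw [h1, h2, List.map_append]
    congr 1
    rw [hls]
    apply List.map_congr_left
    intro i hi
    rw [List.mem_range] at hi
    have h3 := hτ ⟨i, by omega⟩ hi
    have h4 := hA ⟨i, by omega⟩
    have h5 := hB ⟨i, by omega⟩
    simp only at h3 h4 h5
    rw [hdl, h4, h5, h3.1, h3.2]
  have hinv : Cinv m (decor w φ) Y (fun j : Fin (2 * m) => ch A B j) :=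
    ⟨A, B, by rw [hdec]; exact WReach.refl _, fun _ => rfl⟩
  refine ⟨fun j => ch A B j, ?_, ?_⟩
  · rw [closure_ch]
    congr 1
    ext z
    constructor
    · rintro ⟨i, hi, hz⟩
      refine ⟨⟨i, by omega⟩, hi, ?_⟩
      rw [← hA, ← hB]
      exact hz
    · rintro ⟨i, hi, hz⟩
      refine ⟨i, hi, ?_⟩
      rw [hA, hB]
      exact hz
  · rintro x ⟨c', hc', j, rfl⟩
    obtain ⟨u, v, y, q, h⟩ := (hinv.twisted hc').fst j
    obtain ⟨φ', hφ', he⟩ := reach_decor hw hφ h
    obtain ⟨i, -, hi⟩ := decor_get he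
    simp only [Prod.mk.injEq] at hi
    obtain ⟨⟨h1, -⟩, h2, -⟩ := hi
    rw [h1]
    exact ⟨simple_aut (simple_a i) φ', h2.symm⟩

end surface

end SpQ
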