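import Pool.Agent.SpQ.Front

/-!
Three handles lie in a subsurface which is spanned by a chain of admissible curves.
-/

namespace SpQ

open Helper12.Sc Helper12.Sc.SurfaceGroup

variable {g k : ℕ} {w : SurfaceGroup g → ZMod k}

/-- the number `m (m + 1) / 2` -/
def tri : ℕ → ℕ
  | 0 => 0
  | m + 1 => tri m + (m + 1)

theorem chain_arf (h2 : 2 ∣ k) (m : ℕ) :
    ∑ i : Fin m, (ZMod.castHom h2 (ZMod 2) (-((i : ℕ) : ZMod k)) + 1) *
      (ZMod.castHom h2 (ZMod 2) 0 + 1) = (tri m : ZMod 2) := by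
  induction m with
  | zero => simp [tri]
  | succ m ih =>
    rw [Fin.sum_univ_castSucc]
    simp only [Fin.val_castSucc, Fin.val_last] at ih ⊢
    rw [ih, tri]
    simp only [map_neg, map_natCast, map_zero, zero_add, mul_one]
    push_cast
    have : ∀ x y : ZMod 2, x + (-y + 1) = x + (y + 1) := by decide
    exact this _ _

/-- among four handles one is different from three given ones -/
theorem exists_omit {n : ℕ} (hn : 4 ≤ n) (i1 i2 i3 : Fin (n + 1)) :
    ∃ i0 : Fin (n + 1), (i0 : ℕ) < 4 ∧ i0 ≠ i1 ∧ i0 ≠ i2 ∧ i0 ≠ i3 := by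
  by_contra hno
  push Not at hno
  have h0 := hno ⟨0, by omega⟩ (by simp)
  have h1 := hno ⟨1, by omega⟩ (by simp)
  have h2 := hno ⟨2, by omega⟩ (by simp)
  have h3 := hno ⟨3, by omega⟩ (by simp)
  simp only [ne_eq, Fin.ext_iff] at h0 h1 h2 h3
  omega

/-- Any three handles of a suitable basis lie in the subgroup of a subsurface with a basis of
weights `(-i, 0)`.  The genus is at least five, or the whole surface has such a basis. -/
theorem exists_three (hg2 : 2 ≤ g) (hw : IsSpinStructure k w)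
    (hg : 5 ≤ g ∨ Odd k ∨ ∃ h2 : 2 ∣ k,
      ∑ i, (ZMod.castHom h2 (ZMod 2) (w (a i)) + 1) * (ZMod.castHom h2 (ZMod 2) (w (b i)) + 1) =
        (tri g : ZMod 2)) :
    ∃ (m : ℕ) (hm : m ≤ g), 2 ≤ m ∧ ∃ φ : SurfaceGroup g ≃* SurfaceGroup g,
      IsOrientationPreserving φ ∧ ∀ i1 i2 i3 : Fin g,
        ∃ φ' : SurfaceGroup g ≃* SurfaceGroup g, IsOrientationPreserving φ' ∧
          (∀ i : Fin m, w (φ' (a (Fin.castLE hm i))) = -((i : ℕ) : ZMod k) ∧
            w (φ' (b (Fin.castLE hm i))) = 0) ∧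
          ∀ i, (i = i1 ∨ i = i2 ∨ i = i3) →
            φ (a i) ∈ Subgroup.closure (Set.range (fun i : Fin m => φ' (a (Fin.castLE hm i))) ∪
              Set.range (fun i : Fin m => φ' (b (Fin.castLE hm i)))) ∧
            φ (b i) ∈ Subgroup.closure (Set.range (fun i : Fin m => φ' (a (Fin.castLE hm i))) ∪
              Set.range (fun i : Fin m => φ' (b (Fin.castLE hm i)))) := by
  by_cases hgood : Odd k ∨ ∃ h2 : 2 ∣ k,
      ∑ i, (ZMod.castHom h2 (ZMod 2) (w (a i)) + 1) * (ZMod.castHom h2 (ZMod 2) (w (b i)) + 1) =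
        (tri g : ZMod 2)
  · obtain ⟨φ, hφ, h1⟩ := exists_wtype (by omega) hw
      (fun i : Fin g => (-((i : ℕ) : ZMod k), 0)) (by
        rcases hgood with h | ⟨h2, h⟩
        · exact Or.inl h
        · exact Or.inr ⟨h2, h.trans (chain_arf h2 g).symm⟩)
    refine ⟨g, le_refl g, hg2, φ, hφ, fun i1 i2 i3 => ⟨φ, hφ, fun i => h1 i, fun i _ => ?_⟩⟩
    exact ⟨Subgroup.subset_closure (Or.inl ⟨i, rfl⟩),
      Subgroup.subset_closure (Or.inr ⟨i, rfl⟩)⟩
  · have hg5 : 5 ≤ g := hg.resolve_right hgood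
    push Not at hgood
    obtain ⟨hk, harf⟩ := hgood
    have h2 : 2 ∣ k := (Nat.not_odd_iff_even.1 hk).two_dvd
    obtain ⟨n, rfl⟩ : ∃ n, g = n + 1 := ⟨g - 1, by omega⟩
    have hbad := harf h2
    set A : ZMod 2 := ∑ i : Fin (n + 1), (ZMod.castHom h2 (ZMod 2) (w (a i)) + 1) *
      (ZMod.castHom h2 (ZMod 2) (w (b i)) + 1) with hA
    have hAt : A = (tri (n + 1) : ZMod 2) + 1 := by
      have : ∀ x y : ZMod 2, x ≠ y → x = y + 1 := by decide
      exact this _ _ hbad
    -- the weights of the basis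
    let e : ℕ := if A = 0 then 0 else 1
    have he : (e : ZMod 2) = A := by
      have h01 : ∀ x : ZMod 2, x ≠ 0 → x = 1 := by decide
      by_cases h : A = 0
      · simp [e, h]
      · simp [e, h, h01 A h]
    let τ : Fin (n + 1) → ZMod k × ZMod k := fun i =>
      (0, (((n + 1) + if i = Fin.last n then e else 0 : ℕ) : ZMod k))
    have hσ : ∀ i, (ZMod.castHom h2 (ZMod 2) (τ i).1 + 1) *
        (ZMod.castHom h2 (ZMod 2) (τ i).2 + 1) =
        ((n + 1 : ℕ) : ZMod 2) + 1 + if i = Fin.last n then A else 0 := by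
      intro i
      simp only [τ, map_zero, map_natCast, zero_add, one_mul]
      by_cases hi : i = Fin.last n
      · simp only [hi, if_true]
        push_cast
        rw [he]
        ring
      · simp only [hi, if_false]
        push_cast
        ring
    have hsum : ∑ i, (ZMod.castHom h2 (ZMod 2) (τ i).1 + 1) *
        (ZMod.castHom h2 (ZMod 2) (τ i).2 + 1) = A := by
      rw [Finset.sum_congr rfl fun i _ => hσ i, Finset.sum_add_distrib, Finset.sum_ite_eq']
      simp only [Finset.sum_const, Finset.card_univ, Fintype.card_fin, Finset.mem_univ, if_true,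
        nsmul_eq_mul]
      have : ∀ x y : ZMod 2, x * (x + 1) + y = y := by decide
      exact this _ _
    obtain ⟨φ, hφ, h1⟩ := exists_wtype (by omega) hw τ (Or.inr ⟨h2, hsum.symm⟩)
    refine ⟨n, by omega, by omega, φ, hφ, fun i1 i2 i3 => ?_⟩
    obtain ⟨i0, hi0, hn1, hn2, hn3⟩ := exists_omit (by omega) i1 i2 i3
    have hlast : i0 ≠ Fin.last n := by
      intro h
      rw [h, Fin.val_last] at hi0
      omega
    have htot : (∑ i : Fin n, (ZMod.castHom h2 (ZMod 2) (w (φ (a (i0.succAbove i)))) + 1) *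
        (ZMod.castHom h2 (ZMod 2) (w (φ (b (i0.succAbove i)))) + 1)) = (tri n : ZMod 2) := by
      have h3 : ∀ i, (ZMod.castHom h2 (ZMod 2) (w (φ (a i))) + 1) *
          (ZMod.castHom h2 (ZMod 2) (w (φ (b i))) + 1) =
          (ZMod.castHom h2 (ZMod 2) (τ i).1 + 1) * (ZMod.castHom h2 (ZMod 2) (τ i).2 + 1) := by
        intro i
        rw [(h1 i).1, (h1 i).2]
      rw [Finset.sum_congr rfl fun i _ => h3 _]
      have h4 := Fin.sum_univ_succAbove (fun i => (ZMod.castHom h2 (ZMod 2) (τ i).1 + 1) *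
        (ZMod.castHom h2 (ZMod 2) (τ i).2 + 1)) i0
      rw [hsum, hσ i0, if_neg hlast, hAt, tri] at h4
      push_cast at h4
      generalize (∑ i : Fin n, (ZMod.castHom h2 (ZMod 2) (τ (i0.succAbove i)).1 + 1) *
        (ZMod.castHom h2 (ZMod 2) (τ (i0.succAbove i)).2 + 1)) = y at h4 ⊢
      have : ∀ t x y : ZMod 2, t + (x + 1) + 1 = x + 1 + 1 + 0 + y → y = t := by
        decide
      exact this _ _ _ h4
    obtain ⟨φ', hφ', h5, h6⟩ := exists_front_wtype' (by omega) (by omega) hw hφ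
      (Fin.strictMono_succAbove i0) (fun i : Fin n => (-((i : ℕ) : ZMod k), 0))
      (Or.inr ⟨h2, htot.trans (chain_arf h2 n).symm⟩)
    refine ⟨φ', hφ', h5, fun i hi => ?_⟩
    have hi0' : i ≠ i0 := by
      rintro rfl
      rcases hi with h | h | h
      · exact hn1 h
      · exact hn2 h
      · exact hn3 h
    obtain ⟨j, rfl⟩ := Fin.exists_succAbove_eq hi0'
    rw [h6]
    exact ⟨Subgroup.subset_closure (Or.inl ⟨j, rfl⟩),
      Subgroup.subset_closure (Or.inr ⟨j, rfl⟩)⟩

end SpQ
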