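import Pool.Agent.SpQ.NormalForm

/-!
The weight types of the subsurfaces spanned by a set of handles.
-/

namespace SpQ

open Helper12.Sc Helper12.Sc.SurfaceGroup

variable {Γ : Type*} [Group Γ] {k : ℕ}

/-- a handle can be moved behind a block which does not change -/
theorem pass_block (S : List (Hd Γ k)) (s : Hd Γ k) :
    ∃ s', WReach (s :: S) (S ++ [s']) := by
  induction S generalizing s with
  | nil => exact ⟨s, WReach.refl _⟩
  | cons t S ih =>
    obtain ⟨s1, h1⟩ : ∃ s1, WReach [s, t] [t, s1] := ⟨_, move_left [s] t⟩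
    obtain ⟨s2, h2⟩ := ih s1
    refine ⟨s2, ?_⟩
    have h3 := h1.right S
    have h4 := h2.left [t]
    simp only [List.cons_append, List.nil_append] at h3 h4
    exact h3.trans h4

/-- a sublist can be moved to the front without a change of its members -/
theorem front {S L : List (Hd Γ k)} (h : S.Sublist L) : ∃ T, WReach L (S ++ T) := by
  induction h with
  | slnil => exact ⟨[], WReach.refl _⟩
  | cons s _ ih =>
    obtain ⟨T, hT⟩ := ih
    obtain ⟨s', hs⟩ := pass_block _ s
    refine ⟨s' :: T, ?_⟩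
    have h1 := hT.left [s]
    have h2 := hs.right T
    simp only [List.cons_append, List.nil_append, List.append_assoc] at h1 h2
    exact h1.trans h2
  | cons_cons s _ ih =>
    obtain ⟨T, hT⟩ := ih
    exact ⟨T, by simpa using hT.left [s]⟩

theorem ofFn_sublist {α : Type*} {h g : ℕ} (F : Fin g → α) {f : Fin h → Fin g}
    (hf : StrictMono f) : (List.ofFn fun i => F (f i)).Sublist (List.ofFn F) := by
  rw [List.sublist_iff_exists_fin_orderEmbedding_get_eq]
  refine ⟨((Fin.castOrderIso (by simp)).toOrderEmbedding.trans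
    (OrderEmbedding.ofStrictMono f hf)).trans
    (Fin.castOrderIso (by simp)).toOrderEmbedding, ?_⟩
  intro i
  simp
  rfl

theorem E_ofFn {h : ℕ} (F G : Fin h → Γ) (τ : Fin h → ZMod k × ZMod k) :
    E (List.ofFn fun i => ((F i, G i), τ i)) = Subgroup.closure (Set.range F ∪ Set.range G) := by
  unfold E entries
  congr 1
  ext x
  simp only [List.mem_ofFn, Set.mem_union, Set.mem_range]
  constructor
  · rintro ⟨_, ⟨i, rfl⟩, rfl | rfl⟩
    · exact Or.inl ⟨i, rfl⟩
    · exact Or.inr ⟨i, rfl⟩
  · rintro (⟨i, rfl⟩ | ⟨i, rfl⟩)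
    · exact ⟨_, ⟨i, rfl⟩, Or.inl rfl⟩
    · exact ⟨_, ⟨i, rfl⟩, Or.inr rfl⟩

variable {g : ℕ} {w : SurfaceGroup g → ZMod k}

/-- The weight types of subsurfaces: any `h ≥ 2` handles `f 0 < f 1 < ...` of the standard basis
span a subsurface which is also spanned by the first `h` handles of the image of the standard basis
under an orientation preserving automorphism `φ`, with any given weights, if the Arf invariants
agree. -/
theorem exists_front_wtype {h : ℕ} (hh : 2 ≤ h) (hg : h ≤ g) (hw : IsSpinStructure k w)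
    {f : Fin h → Fin g} (hf : StrictMono f) (τ : Fin h → ZMod k × ZMod k)
    (hτ : Odd k ∨ ∃ h2 : 2 ∣ k,
      ∑ i, (ZMod.castHom h2 (ZMod 2) (w (a (f i))) + 1) *
        (ZMod.castHom h2 (ZMod 2) (w (b (f i))) + 1) =
      ∑ i, (ZMod.castHom h2 (ZMod 2) (τ i).1 + 1) * (ZMod.castHom h2 (ZMod 2) (τ i).2 + 1)) :
    ∃ φ : SurfaceGroup g ≃* SurfaceGroup g, IsOrientationPreserving φ ∧
      (∀ i : Fin h, w (φ (a (Fin.castLE hg i))) = (τ i).1 ∧
        w (φ (b (Fin.castLE hg i))) = (τ i).2) ∧
      Subgroup.closure (Set.range (fun i : Fin h => φ (a (Fin.castLE hg i))) ∪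
          Set.range (fun i : Fin h => φ (b (Fin.castLE hg i)))) =
        Subgroup.closure (Set.range (fun i : Fin h => (a (f i) : SurfaceGroup g)) ∪
          Set.range (fun i : Fin h => (b (f i) : SurfaceGroup g))) := by
  obtain ⟨n, rfl⟩ : ∃ n, h = n + 2 := ⟨h - 2, by omega⟩
  obtain ⟨T, hT⟩ := front (ofFn_sublist (fun i : Fin g =>
    (((a i, b i), (w (a i), w (b i))) : Hd (SurfaceGroup g) k)) hf)
  have harf : ∀ (h2 : 2 ∣ k) (F : Fin (n + 2) → ZMod k × ZMod k), arf h2 (List.ofFn F) =
      ∑ i, (ZMod.castHom h2 (ZMod 2) (F i).1 + 1) * (ZMod.castHom h2 (ZMod 2) (F i).2 + 1) := by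
    intro h2 F
    unfold arf
    rw [List.map_ofFn, List.sum_ofFn]
    rfl
  have hWR : WR (List.ofFn fun i : Fin (n + 2) => (w (a (f i)), w (b (f i))))
      (List.ofFn τ) := by
    have h3 : Odd k ∨ ∃ h2 : 2 ∣ k,
        arf h2 (List.ofFn fun i : Fin (n + 2) => (w (a (f i)), w (b (f i)))) =
          arf h2 (List.ofFn τ) := by
      rcases hτ with h | ⟨h2, h⟩
      · exact Or.inl h
      · exact Or.inr ⟨h2, by rw [harf, harf]; exact h⟩
    rw [List.ofFn_succ, List.ofFn_succ, List.ofFn_succ (f := τ),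
      List.ofFn_succ (f := fun i : Fin (n + 1) => τ i.succ)] at h3 ⊢
    exact WR_of_arf (by simp) h3
  have e1 : wts (List.ofFn fun i : Fin (n + 2) =>
      (((a (f i), b (f i)), (w (a (f i)), w (b (f i)))) : Hd (SurfaceGroup g) k)) =
      List.ofFn fun i : Fin (n + 2) => (w (a (f i)), w (b (f i))) := by
    unfold wts
    rw [List.map_ofFn]
    rfl
  obtain ⟨M, hM, eM⟩ := hWR.lift e1
  have hE := hM.E_eq
  rw [E_ofFn] at hE
  have hdec : decor w (MulEquiv.refl (SurfaceGroup g)) = List.ofFn fun i : Fin g =>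
      (((a i, b i), (w (a i), w (b i))) : Hd (SurfaceGroup g) k) := rfl
  have hall : WReach (decor w (MulEquiv.refl (SurfaceGroup g))) (M ++ T) := by
    rw [hdec]
    exact hT.trans (hM.right T)
  obtain ⟨φ, hφ, hMT⟩ := reach_decor hw (op_refl _) hall
  have hlen : M.length = n + 2 := by
    have := hM.length_eq
    simpa using this
  have hMi : M = List.ofFn fun i : Fin (n + 2) =>
      (((φ (a (Fin.castLE hg i)), φ (b (Fin.castLE hg i))),
        (w (φ (a (Fin.castLE hg i))), w (φ (b (Fin.castLE hg i))))) :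
          Hd (SurfaceGroup g) k) := by
    apply List.ext_getElem
    · simp [hlen]
    · intro i h1 h2
      have h3 : i < (M ++ T).length := by
        rw [List.length_append]
        omega
      have h4 : (M ++ T)[i] = M[i] := List.getElem_append_left h1
      rw [← h4]
      simp only [hMT, decor, List.getElem_ofFn]
      rfl
  refine ⟨φ, hφ, ?_, ?_⟩
  · rw [hMi] at eM
    unfold wts at eM
    rw [List.map_ofFn] at eM
    have e3 := List.ofFn_injective eM
    intro i
    have e4 := congrFun e3 i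
    exact ⟨congrArg Prod.fst e4, congrArg Prod.snd e4⟩
  · rw [← hE, hMi, E_ofFn]

/-- the pull back of a spin structure under an orientation preserving automorphism -/
theorem spin_comp (hw : IsSpinStructure k w) {φ : SurfaceGroup g ≃* SurfaceGroup g}
    (hφ : IsOrientationPreserving φ) : IsSpinStructure k (fun x => w (φ x)) where
  inv x hx := by
    rw [map_inv]
    exact hw.inv _ (simple_aut hx φ)
  conj x h hx := by
    rw [map_mul, map_mul, map_inv]
    exact hw.conj _ _ (simple_aut hx φ)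
  twist ψ hψ i := hw.twist (ψ.trans φ) (op_trans hψ hφ) i
  pants ψ hψ i j hij := hw.pants (ψ.trans φ) (op_trans hψ hφ) i j hij

/-- `exists_front_wtype` for the image of the standard basis under an orientation preserving
automorphism `φ` -/
theorem exists_front_wtype' {h : ℕ} (hh : 2 ≤ h) (hg : h ≤ g) (hw : IsSpinStructure k w)
    {φ : SurfaceGroup g ≃* SurfaceGroup g} (hφ : IsOrientationPreserving φ)
    {f : Fin h → Fin g} (hf : StrictMono f) (τ : Fin h → ZMod k × ZMod k)
    (hτ : Odd k ∨ ∃ h2 : 2 ∣ k,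
      ∑ i, (ZMod.castHom h2 (ZMod 2) (w (φ (a (f i)))) + 1) *
        (ZMod.castHom h2 (ZMod 2) (w (φ (b (f i)))) + 1) =
      ∑ i, (ZMod.castHom h2 (ZMod 2) (τ i).1 + 1) * (ZMod.castHom h2 (ZMod 2) (τ i).2 + 1)) :
    ∃ φ' : SurfaceGroup g ≃* SurfaceGroup g, IsOrientationPreserving φ' ∧
      (∀ i : Fin h, w (φ' (a (Fin.castLE hg i))) = (τ i).1 ∧
        w (φ' (b (Fin.castLE hg i))) = (τ i).2) ∧
      Subgroup.closure (Set.range (fun i : Fin h => φ' (a (Fin.castLE hg i))) ∪
          Set.range (fun i : Fin h => φ' (b (Fin.castLE hg i)))) =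
        Subgroup.closure (Set.range (fun i : Fin h => φ (a (f i))) ∪
          Set.range (fun i : Fin h => φ (b (f i)))) := by
  obtain ⟨ψ, hψ, h1, h2⟩ := exists_front_wtype hh hg (spin_comp hw hφ) hf τ hτ
  refine ⟨ψ.trans φ, op_trans hψ hφ, h1, ?_⟩
  have h3 := congrArg (Subgroup.map (φ : SurfaceGroup g →* SurfaceGroup g)) h2
  rw [MonoidHom.map_closure, MonoidHom.map_closure, Set.image_union, Set.image_union,
    ← Set.range_comp, ← Set.range_comp, ← Set.range_comp, ← Set.range_comp] at h3
  exact h3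

end SpQ
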