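import Mathlib

/-!
Lists of handles (pairs of elements of a group) decorated with winding numbers modulo `k`, and the
elementary moves coming from the mapping classes of a surface with one boundary component.
-/

namespace SpQ

/-- A handle of a group `Γ` decorated with weights modulo `k`: a pair `(x, y)` together with the
winding numbers of `x` and of `y`. -/
abbrev Hd (Γ : Type*) (k : ℕ) := (Γ × Γ) × (ZMod k × ZMod k)

variable {Γ : Type*} [Group Γ] {k : ℕ}

/-- elementary moves on lists of decorated handles -/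
inductive WStep : List (Hd Γ k) → List (Hd Γ k) → Prop
  | tw (u v : List (Hd Γ k)) (x y : Γ) (p q : ZMod k) :
      WStep (u ++ ((x, y), (p, q)) :: v) (u ++ ((x, y * x), (p, q + p)) :: v)
  | tw' (u v : List (Hd Γ k)) (x y : Γ) (p q : ZMod k) :
      WStep (u ++ ((x, y), (p, q)) :: v) (u ++ ((x, y * x⁻¹), (p, q - p)) :: v)
  | rot (u v : List (Hd Γ k)) (x y : Γ) (p q : ZMod k) :
      WStep (u ++ ((x, y), (p, q)) :: v) (u ++ ((y⁻¹, y * x * y⁻¹), (-q, p)) :: v)
  | rot' (u v : List (Hd Γ k)) (x y : Γ) (p q : ZMod k) :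
      WStep (u ++ ((x, y), (p, q)) :: v) (u ++ ((x * y * x⁻¹, x⁻¹), (q, -p)) :: v)
  | sl (u v : List (Hd Γ k)) (a b c d : Γ) (p q p' q' : ZMod k) :
      WStep (u ++ ((a, b), (p, q)) :: ((c, d), (p', q')) :: v)
        (u ++ ((a, b * a⁻¹ * b⁻¹ * c * d * c⁻¹ * b), (p, q + q' - p + 1)) ::
          ((b * a⁻¹ * b⁻¹ * c, d), (p' - p + 1, q')) :: v)
  | sl' (u v : List (Hd Γ k)) (a b c d : Γ) (p q p' q' : ZMod k) :
      WStep (u ++ ((a, b), (p, q)) :: ((c, d), (p', q')) :: v)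
        (u ++ ((a, c * d⁻¹ * c⁻¹ * b * a), (p, q - q' + p - 1)) ::
          ((c * d⁻¹ * c⁻¹ * b * a * b⁻¹ * c * d, d), (p' + p - 1, q')) :: v)
  | br (u v : List (Hd Γ k)) (a b c d : Γ) (p q p' q' : ZMod k) :
      WStep (u ++ ((a, b), (p, q)) :: ((c, d), (p', q')) :: v)
        (u ++ ((a * b * a⁻¹ * b⁻¹ * c * (a * b * a⁻¹ * b⁻¹)⁻¹,
          a * b * a⁻¹ * b⁻¹ * d * (a * b * a⁻¹ * b⁻¹)⁻¹), (p', q')) :: ((a, b), (p, q)) :: v)
  | br' (u v : List (Hd Γ k)) (a b c d : Γ) (p q p' q' : ZMod k) :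
      WStep (u ++ ((a, b), (p, q)) :: ((c, d), (p', q')) :: v)
        (u ++ ((c, d), (p', q')) :: (((c * d * c⁻¹ * d⁻¹)⁻¹ * a * (c * d * c⁻¹ * d⁻¹),
          (c * d * c⁻¹ * d⁻¹)⁻¹ * b * (c * d * c⁻¹ * d⁻¹)), (p, q)) :: v)

/-- a list can be reached from another one by elementary moves -/
def WReach (L L' : List (Hd Γ k)) : Prop := Relation.ReflTransGen WStep L L'

theorem WStep.context {C C' : List (Hd Γ k)} (h : WStep C C') (l₁ l₂ : List (Hd Γ k)) :
    WStep (l₁ ++ C ++ l₂) (l₁ ++ C' ++ l₂) := by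
  cases h with
  | tw u v x y p q => simpa using WStep.tw (l₁ ++ u) (v ++ l₂) x y p q
  | tw' u v x y p q => simpa using WStep.tw' (l₁ ++ u) (v ++ l₂) x y p q
  | rot u v x y p q => simpa using WStep.rot (l₁ ++ u) (v ++ l₂) x y p q
  | rot' u v x y p q => simpa using WStep.rot' (l₁ ++ u) (v ++ l₂) x y p q
  | sl u v a b c d p q p' q' => simpa using WStep.sl (l₁ ++ u) (v ++ l₂) a b c d p q p' q'
  | sl' u v a b c d p q p' q' => simpa using WStep.sl' (l₁ ++ u) (v ++ l₂) a b c d p q p' q'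
  | br u v a b c d p q p' q' => simpa using WStep.br (l₁ ++ u) (v ++ l₂) a b c d p q p' q'
  | br' u v a b c d p q p' q' => simpa using WStep.br' (l₁ ++ u) (v ++ l₂) a b c d p q p' q'

theorem WReach.refl (L : List (Hd Γ k)) : WReach L L := Relation.ReflTransGen.refl

theorem WReach.trans {L L' L'' : List (Hd Γ k)} (h : WReach L L') (h' : WReach L' L'') :
    WReach L L'' := Relation.ReflTransGen.trans h h'

theorem WReach.context {C C' : List (Hd Γ k)} (h : WReach C C') (l₁ l₂ : List (Hd Γ k)) :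
    WReach (l₁ ++ C ++ l₂) (l₁ ++ C' ++ l₂) := by
  induction h with
  | refl => exact WReach.refl _
  | tail _ hs ih => exact Relation.ReflTransGen.tail ih (hs.context l₁ l₂)

theorem WReach.left {C C' : List (Hd Γ k)} (h : WReach C C') (l : List (Hd Γ k)) :
    WReach (l ++ C) (l ++ C') := by
  simpa using h.context l []

theorem WReach.right {C C' : List (Hd Γ k)} (h : WReach C C') (l : List (Hd Γ k)) :
    WReach (C ++ l) (C' ++ l) := by
  simpa using h.context [] l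

theorem WReach.of_step {L L' : List (Hd Γ k)} (h : WStep L L') : WReach L L' :=
  Relation.ReflTransGen.single h

theorem WStep.length_eq {L L' : List (Hd Γ k)} (h : WStep L L') : L'.length = L.length := by
  cases h <;> simp

theorem WReach.length_eq {L L' : List (Hd Γ k)} (h : WReach L L') : L'.length = L.length := by
  induction h with
  | refl => rfl
  | tail _ hs ih => rw [hs.length_eq, ih]

/-- the set of all entries of a list of handles -/
def entries (X : List (Hd Γ k)) : Set Γ := {z | ∃ h ∈ X, z = h.1.1 ∨ z = h.1.2}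

/-- the subgroup generated by the entries of a list of handles -/
def E (X : List (Hd Γ k)) : Subgroup Γ := Subgroup.closure (entries X)

/-- the boundary of a handle -/
def bd (h : Hd Γ k) : Γ := h.1.1 * h.1.2 * h.1.1⁻¹ * h.1.2⁻¹

/-- conjugation of a handle -/
def cj1 (u : Γ) (h : Hd Γ k) : Hd Γ k := ((u⁻¹ * h.1.1 * u, u⁻¹ * h.1.2 * u), h.2)

/-- conjugation of a list of handles -/
def cj (u : Γ) (X : List (Hd Γ k)) : List (Hd Γ k) := X.map (cj1 u)

/-- a good handle: the winding numbers are `-1` and `1` -/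
def Good (h : Hd Γ k) : Prop := h.2 = (-1, 1)

theorem Good.cj1 {h : Hd Γ k} (hh : Good h) (u : Γ) : Good (cj1 u h) := hh

theorem good_cj {X : List (Hd Γ k)} (hX : ∀ h ∈ X, Good h) (u : Γ) : ∀ h ∈ cj u X, Good h := by
  intro h hh
  obtain ⟨h', hh', rfl⟩ := List.mem_map.1 hh
  exact (hX h' hh').cj1 u

@[simp] theorem cj_length (u : Γ) (X : List (Hd Γ k)) : (cj u X).length = X.length := by
  simp [cj]

@[simp] theorem cj_append (u : Γ) (X Y : List (Hd Γ k)) : cj u (X ++ Y) = cj u X ++ cj u Y := by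
  simp [cj]

@[simp] theorem cj_nil (u : Γ) : cj u ([] : List (Hd Γ k)) = [] := rfl

@[simp] theorem cj_cons (u : Γ) (h : Hd Γ k) (X : List (Hd Γ k)) :
    cj u (h :: X) = cj1 u h :: cj u X := rfl

theorem entries_append (X Y : List (Hd Γ k)) : entries (X ++ Y) = entries X ∪ entries Y := by
  ext z
  simp only [entries, List.mem_append, Set.mem_setOf_eq, Set.mem_union]
  constructor
  · rintro ⟨h, hh | hh, hz⟩
    · exact Or.inl ⟨h, hh, hz⟩
    · exact Or.inr ⟨h, hh, hz⟩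
  · rintro (⟨h, hh, hz⟩ | ⟨h, hh, hz⟩)
    · exact ⟨h, Or.inl hh, hz⟩
    · exact ⟨h, Or.inr hh, hz⟩

theorem E_append (X Y : List (Hd Γ k)) : E (X ++ Y) = E X ⊔ E Y := by
  unfold E
  rw [entries_append, Subgroup.closure_union]

theorem E_nil : E ([] : List (Hd Γ k)) = ⊥ := by
  unfold E entries
  simp

theorem E_cons (h : Hd Γ k) (X : List (Hd Γ k)) : E (h :: X) = E [h] ⊔ E X := by
  rw [← E_append]
  rfl

theorem E_singleton_le {h : Hd Γ k} {H : Subgroup Γ} :
    E [h] ≤ H ↔ h.1.1 ∈ H ∧ h.1.2 ∈ H := by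
  unfold E
  rw [Subgroup.closure_le]
  constructor
  · intro hh
    exact ⟨hh ⟨h, by simp, Or.inl rfl⟩, hh ⟨h, by simp, Or.inr rfl⟩⟩
  · rintro ⟨h1, h2⟩ z ⟨h', hh', hz⟩
    rw [List.mem_singleton] at hh'
    subst hh'
    rcases hz with rfl | rfl
    · exact h1
    · exact h2

theorem E_le {X : List (Hd Γ k)} {H : Subgroup Γ} :
    E X ≤ H ↔ ∀ h ∈ X, h.1.1 ∈ H ∧ h.1.2 ∈ H := by
  unfold E
  rw [Subgroup.closure_le]
  constructor
  · intro hh h hX
    exact ⟨hh ⟨h, hX, Or.inl rfl⟩, hh ⟨h, hX, Or.inr rfl⟩⟩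
  · rintro hh z ⟨h, hX, hz⟩
    rcases hz with rfl | rfl
    · exact (hh h hX).1
    · exact (hh h hX).2

theorem fst_mem_E {X : List (Hd Γ k)} {h : Hd Γ k} (hh : h ∈ X) : h.1.1 ∈ E X :=
  Subgroup.subset_closure ⟨h, hh, Or.inl rfl⟩

theorem snd_mem_E {X : List (Hd Γ k)} {h : Hd Γ k} (hh : h ∈ X) : h.1.2 ∈ E X :=
  Subgroup.subset_closure ⟨h, hh, Or.inr rfl⟩

theorem bd_mem {h : Hd Γ k} {H : Subgroup Γ} (h1 : h.1.1 ∈ H) (h2 : h.1.2 ∈ H) : bd h ∈ H :=
  H.mul_mem (H.mul_mem (H.mul_mem h1 h2) (H.inv_mem h1)) (H.inv_mem h2)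

theorem bd_mem_E {X : List (Hd Γ k)} {h : Hd Γ k} (hh : h ∈ X) : bd h ∈ E X :=
  bd_mem (fst_mem_E hh) (snd_mem_E hh)

end SpQ
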