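import Pool.Agent.SpQ.Moves
import Pool.Agent.Helper12.ScExt

/-!
Moves of undecorated lists lift to moves of decorated lists.
-/

namespace SpQ

open Helper12.Sc (Step Reach)

variable {Γ : Type*} [Group Γ] {k : ℕ}

/-- the list without the decorations -/
def bare (L : List (Hd Γ k)) : List (Γ × Γ) := L.map Prod.fst

omit [Group Γ] in
@[simp] theorem bare_append (L L' : List (Hd Γ k)) : bare (L ++ L') = bare L ++ bare L' := by
  simp [bare]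

omit [Group Γ] in
@[simp] theorem bare_length (L : List (Hd Γ k)) : (bare L).length = L.length := by
  simp [bare]

theorem entries_bare (L : List (Hd Γ k)) : Helper12.Sc.entries (bare L) = entries L := by
  ext z
  unfold Helper12.Sc.entries entries bare
  constructor
  · rintro ⟨p, hp, hz⟩
    obtain ⟨h, hh, rfl⟩ := List.mem_map.1 hp
    exact ⟨h, hh, hz⟩
  · rintro ⟨h, hh, hz⟩
    exact ⟨h.1, List.mem_map_of_mem hh, hz⟩

theorem step_lift {L : List (Hd Γ k)} {M M' : List (Γ × Γ)} (hM : bare L = M) (h : Step M M') :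
    ∃ L', WStep L L' ∧ bare L' = M' := by
  unfold bare at hM ⊢
  cases h with
  | tw u v x y =>
    obtain ⟨s₁, t, rfl, rfl, h⟩ := List.map_eq_append_iff.1 hM
    obtain ⟨⟨⟨x', y'⟩, ⟨p, q⟩⟩, s₂, rfl, hp, rfl⟩ := List.map_eq_cons_iff.1 h
    simp only [Prod.mk.injEq] at hp
    obtain ⟨rfl, rfl⟩ := hp
    exact ⟨_, WStep.tw s₁ s₂ x' y' p q, by simp⟩
  | tw' u v x y =>
    obtain ⟨s₁, t, rfl, rfl, h⟩ := List.map_eq_append_iff.1 hM
    obtain ⟨⟨⟨x', y'⟩, ⟨p, q⟩⟩, s₂, rfl, hp, rfl⟩ := List.map_eq_cons_iff.1 h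
    simp only [Prod.mk.injEq] at hp
    obtain ⟨rfl, rfl⟩ := hp
    exact ⟨_, WStep.tw' s₁ s₂ x' y' p q, by simp⟩
  | rot u v x y =>
    obtain ⟨s₁, t, rfl, rfl, h⟩ := List.map_eq_append_iff.1 hM
    obtain ⟨⟨⟨x', y'⟩, ⟨p, q⟩⟩, s₂, rfl, hp, rfl⟩ := List.map_eq_cons_iff.1 h
    simp only [Prod.mk.injEq] at hp
    obtain ⟨rfl, rfl⟩ := hp
    exact ⟨_, WStep.rot s₁ s₂ x' y' p q, by simp⟩
  | rot' u v x y =>
    obtain ⟨s₁, t, rfl, rfl, h⟩ := List.map_eq_append_iff.1 hM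
    obtain ⟨⟨⟨x', y'⟩, ⟨p, q⟩⟩, s₂, rfl, hp, rfl⟩ := List.map_eq_cons_iff.1 h
    simp only [Prod.mk.injEq] at hp
    obtain ⟨rfl, rfl⟩ := hp
    exact ⟨_, WStep.rot' s₁ s₂ x' y' p q, by simp⟩
  | sl u v a b c d =>
    obtain ⟨s₁, t, rfl, rfl, h⟩ := List.map_eq_append_iff.1 hM
    obtain ⟨⟨⟨a', b'⟩, ⟨p, q⟩⟩, t₂, rfl, hp, h⟩ := List.map_eq_cons_iff.1 h
    obtain ⟨⟨⟨c', d'⟩, ⟨p', q'⟩⟩, s₂, rfl, hq, rfl⟩ := List.map_eq_cons_iff.1 h
    simp only [Prod.mk.injEq] at hp hq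
    obtain ⟨rfl, rfl⟩ := hp
    obtain ⟨rfl, rfl⟩ := hq
    exact ⟨_, WStep.sl s₁ s₂ a' b' c' d' p q p' q', by simp⟩
  | sl' u v a b c d =>
    obtain ⟨s₁, t, rfl, rfl, h⟩ := List.map_eq_append_iff.1 hM
    obtain ⟨⟨⟨a', b'⟩, ⟨p, q⟩⟩, t₂, rfl, hp, h⟩ := List.map_eq_cons_iff.1 h
    obtain ⟨⟨⟨c', d'⟩, ⟨p', q'⟩⟩, s₂, rfl, hq, rfl⟩ := List.map_eq_cons_iff.1 h
    simp only [Prod.mk.injEq] at hp hq
    obtain ⟨rfl, rfl⟩ := hp
    obtain ⟨rfl, rfl⟩ := hq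
    exact ⟨_, WStep.sl' s₁ s₂ a' b' c' d' p q p' q', by simp⟩
  | br u v a b c d =>
    obtain ⟨s₁, t, rfl, rfl, h⟩ := List.map_eq_append_iff.1 hM
    obtain ⟨⟨⟨a', b'⟩, ⟨p, q⟩⟩, t₂, rfl, hp, h⟩ := List.map_eq_cons_iff.1 h
    obtain ⟨⟨⟨c', d'⟩, ⟨p', q'⟩⟩, s₂, rfl, hq, rfl⟩ := List.map_eq_cons_iff.1 h
    simp only [Prod.mk.injEq] at hp hq
    obtain ⟨rfl, rfl⟩ := hp
    obtain ⟨rfl, rfl⟩ := hq
    exact ⟨_, WStep.br s₁ s₂ a' b' c' d' p q p' q', by simp⟩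
  | br' u v a b c d =>
    obtain ⟨s₁, t, rfl, rfl, h⟩ := List.map_eq_append_iff.1 hM
    obtain ⟨⟨⟨a', b'⟩, ⟨p, q⟩⟩, t₂, rfl, hp, h⟩ := List.map_eq_cons_iff.1 h
    obtain ⟨⟨⟨c', d'⟩, ⟨p', q'⟩⟩, s₂, rfl, hq, rfl⟩ := List.map_eq_cons_iff.1 h
    simp only [Prod.mk.injEq] at hp hq
    obtain ⟨rfl, rfl⟩ := hp
    obtain ⟨rfl, rfl⟩ := hq
    exact ⟨_, WStep.br' s₁ s₂ a' b' c' d' p q p' q', by simp⟩

theorem reach_lift {L : List (Hd Γ k)} {M M' : List (Γ × Γ)} (hM : bare L = M)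
    (h : Reach M M') : ∃ L', WReach L L' ∧ bare L' = M' := by
  induction h with
  | refl => exact ⟨L, WReach.refl _, hM⟩
  | tail _ hs ih =>
    obtain ⟨L', hL', hb⟩ := ih
    obtain ⟨L'', hL'', hb'⟩ := step_lift hb hs
    exact ⟨L'', hL'.trans (WReach.of_step hL''), hb'⟩

/-- `Q` can be obtained from `L` as the end of a reachable list -/
def WExt (L Q : List (Hd Γ k)) : Prop := ∃ junk, WReach L (junk ++ Q)

theorem WExt.of_reach {L Q : List (Hd Γ k)} (h : WReach L Q) : WExt L Q := ⟨[], h⟩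

theorem WExt.refl (L : List (Hd Γ k)) : WExt L L := WExt.of_reach (WReach.refl L)

theorem WExt.trans {B Q R : List (Hd Γ k)} (h1 : WExt B Q) (h2 : WExt Q R) : WExt B R := by
  obtain ⟨j1, h1⟩ := h1
  obtain ⟨j2, h2⟩ := h2
  refine ⟨j1 ++ j2, h1.trans ?_⟩
  have := h2.left j1
  simpa using this

theorem WExt.drop_left (Q1 Q2 : List (Hd Γ k)) : WExt (Q1 ++ Q2) Q2 := ⟨Q1, WReach.refl _⟩

theorem move_block (Q U : List (Hd Γ k)) : ∃ U', WReach (Q ++ U) (U' ++ Q) := by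
  induction Q generalizing U with
  | nil => exact ⟨U, by simpa using WReach.refl U⟩
  | cons p Q ih =>
    obtain ⟨U', hU'⟩ := ih U
    refine ⟨cj (bd p)⁻¹ U', ?_⟩
    have h1 := hU'.left [p]
    have h2 := (move_right U' p).right Q
    simp only [List.cons_append, List.nil_append] at h1 h2
    have h3 := h1.trans h2
    simpa using h3

theorem WExt.drop_right (Q1 Q2 : List (Hd Γ k)) : WExt (Q1 ++ Q2) Q1 := move_block Q1 Q2

theorem WExt.append {B1 Q1 B2 Q2 : List (Hd Γ k)} (h1 : WExt B1 Q1) (h2 : WExt B2 Q2) :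
    WExt (B1 ++ B2) (Q1 ++ Q2) := by
  obtain ⟨j1, h1⟩ := h1
  obtain ⟨j2, h2⟩ := h2
  obtain ⟨j3, h3⟩ := move_block Q1 j2
  refine ⟨j1 ++ j3, ?_⟩
  have e1 := h1.right B2
  have e2 := h2.left (j1 ++ Q1)
  have e3 := (h3.left j1).right Q2
  simp only [List.append_assoc] at e1 e2 e3 ⊢
  exact (e1.trans e2).trans e3

theorem WExt.mem {C : List (Hd Γ k)} {p : Hd Γ k} (hp : p ∈ C) : WExt C [p] := by
  obtain ⟨s, t, rfl⟩ := List.append_of_mem hp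
  have h1 := WExt.drop_left s (p :: t)
  have h2 := WExt.drop_right [p] t
  exact h1.trans h2

theorem WExt.rot (x y : Γ) (p q : ZMod k) :
    WExt [((x, y), (p, q))] [((y⁻¹, y * x * y⁻¹), (-q, p))] :=
  WExt.of_reach (by simpa using WReach.of_step (WStep.rot [] [] x y p q))

theorem WExt.rot' (x y : Γ) (p q : ZMod k) :
    WExt [((x, y), (p, q))] [((x * y * x⁻¹, x⁻¹), (q, -p))] :=
  WExt.of_reach (by simpa using WReach.of_step (WStep.rot' [] [] x y p q))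

/-- merging two handles -/
theorem WExt.merge (a b c d : Γ) (p q p' q' : ZMod k) :
    WExt [((a, b), (p, q)), ((c, d), (p', q'))] [((a * c, d), (p + p' + 1, q'))] := by
  obtain ⟨h, hh⟩ := SpQ.merge a b c d p q p' q'
  exact ⟨[h], hh⟩

end SpQ
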