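import Pool.Agent.SpQ.Defs

/-!
Consequences of the elementary moves.
-/

namespace SpQ

variable {Γ : Type*} [Group Γ] {k : ℕ}

theorem E_one_eq {x y x' y' : Γ} {w w' : ZMod k × ZMod k}
    (h1 : ∀ H : Subgroup Γ, x ∈ H → y ∈ H → x' ∈ H ∧ y' ∈ H)
    (h2 : ∀ H : Subgroup Γ, x' ∈ H → y' ∈ H → x ∈ H ∧ y ∈ H) :
    E [((x', y'), w')] = E [((x, y), w)] := by
  apply le_antisymm
  · rw [E_singleton_le]
    exact h1 _ (fst_mem_E (h := ((x, y), w)) (by simp)) (snd_mem_E (h := ((x, y), w)) (by simp))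
  · rw [E_singleton_le]
    exact h2 _ (fst_mem_E (h := ((x', y'), w')) (by simp))
      (snd_mem_E (h := ((x', y'), w')) (by simp))

theorem E_two_eq {a b c d a' b' c' d' : Γ} {w w' z z' : ZMod k × ZMod k}
    (h1 : ∀ H : Subgroup Γ, a ∈ H → b ∈ H → c ∈ H → d ∈ H →
      (a' ∈ H ∧ b' ∈ H) ∧ c' ∈ H ∧ d' ∈ H)
    (h2 : ∀ H : Subgroup Γ, a' ∈ H → b' ∈ H → c' ∈ H → d' ∈ H →
      (a ∈ H ∧ b ∈ H) ∧ c ∈ H ∧ d ∈ H) :
    E [((a', b'), w'), ((c', d'), z')] = E [((a, b), w), ((c, d), z)] := by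
  apply le_antisymm
  · rw [E_le]
    have := h1 (E [((a, b), w), ((c, d), z)])
      (fst_mem_E (h := ((a, b), w)) (by simp)) (snd_mem_E (h := ((a, b), w)) (by simp))
      (fst_mem_E (h := ((c, d), z)) (by simp)) (snd_mem_E (h := ((c, d), z)) (by simp))
    intro h hh
    simp only [List.mem_cons, List.not_mem_nil, or_false] at hh
    rcases hh with rfl | rfl
    · exact this.1
    · exact this.2
  · rw [E_le]
    have := h2 (E [((a', b'), w'), ((c', d'), z')])
      (fst_mem_E (h := ((a', b'), w')) (by simp)) (snd_mem_E (h := ((a', b'), w')) (by simp))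
      (fst_mem_E (h := ((c', d'), z')) (by simp)) (snd_mem_E (h := ((c', d'), z')) (by simp))
    intro h hh
    simp only [List.mem_cons, List.not_mem_nil, or_false] at hh
    rcases hh with rfl | rfl
    · exact this.1
    · exact this.2

theorem mem_of_eq_word {H : Subgroup Γ} {x y : Γ} (h : x = y) (hy : y ∈ H) : x ∈ H := h ▸ hy

theorem WStep.E_eq {L L' : List (Hd Γ k)} (h : WStep L L') : E L' = E L := by
  have key1 : ∀ (u v : List (Hd Γ k)) (h h' : Hd Γ k), E [h'] = E [h] →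
      E (u ++ h' :: v) = E (u ++ h :: v) := by
    intro u v h h' hh
    rw [E_append, E_append, E_cons h' v, E_cons h v, hh]
  have key2 : ∀ (u v : List (Hd Γ k)) (h1 h2 h1' h2' : Hd Γ k), E [h1', h2'] = E [h1, h2] →
      E (u ++ h1' :: h2' :: v) = E (u ++ h1 :: h2 :: v) := by
    intro u v h1 h2 h1' h2' hh
    have e1 : E (h1' :: h2' :: v) = E [h1', h2'] ⊔ E v := by rw [← E_append]; rfl
    have e2 : E (h1 :: h2 :: v) = E [h1, h2] ⊔ E v := by rw [← E_append]; rfl
    rw [E_append, E_append, e1, e2, hh]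
  cases h with
  | tw u v x y p q =>
    refine key1 _ _ _ _ (E_one_eq ?_ ?_)
    · intro H h1 h2
      exact ⟨h1, H.mul_mem h2 h1⟩
    · intro H h1 h2
      refine ⟨h1, ?_⟩
      have := H.mul_mem h2 (H.inv_mem h1)
      rwa [mul_inv_cancel_right] at this
  | tw' u v x y p q =>
    refine key1 _ _ _ _ (E_one_eq ?_ ?_)
    · intro H h1 h2
      exact ⟨h1, H.mul_mem h2 (H.inv_mem h1)⟩
    · intro H h1 h2
      refine ⟨h1, ?_⟩
      have := H.mul_mem h2 h1
      rwa [inv_mul_cancel_right] at this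
  | rot u v x y p q =>
    refine key1 _ _ _ _ (E_one_eq ?_ ?_)
    · intro H h1 h2
      exact ⟨H.inv_mem h2, H.mul_mem (H.mul_mem h2 h1) (H.inv_mem h2)⟩
    · intro H h1 h2
      have h3 : y ∈ H := by simpa using H.inv_mem h1
      refine ⟨?_, h3⟩
      have := H.mul_mem (H.mul_mem (H.inv_mem h3) h2) h3
      exact mem_of_eq_word (by group) this
  | rot' u v x y p q =>
    refine key1 _ _ _ _ (E_one_eq ?_ ?_)
    · intro H h1 h2
      exact ⟨H.mul_mem (H.mul_mem h1 h2) (H.inv_mem h1), H.inv_mem h1⟩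
    · intro H h1 h2
      have h3 : x ∈ H := by simpa using H.inv_mem h2
      refine ⟨h3, ?_⟩
      have := H.mul_mem (H.mul_mem (H.inv_mem h3) h1) h3
      exact mem_of_eq_word (by group) this
  | sl u v a b c d p q p' q' =>
    refine key2 _ _ _ _ _ _ (E_two_eq ?_ ?_)
    · intro H ha hb hc hd
      have hai := H.inv_mem ha
      have hbi := H.inv_mem hb
      have hci := H.inv_mem hc
      exact ⟨⟨ha, H.mul_mem (H.mul_mem (H.mul_mem (H.mul_mem (H.mul_mem (H.mul_mem hb hai) hbi) hc)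
        hd) hci) hb⟩, H.mul_mem (H.mul_mem (H.mul_mem hb hai) hbi) hc, hd⟩
    · intro H ha hb' hc' hd
      have hb : b ∈ H := by
        have := H.mul_mem (H.mul_mem (H.mul_mem (H.mul_mem hc' (H.inv_mem hd)) (H.inv_mem hc'))
          hb') ha
        exact mem_of_eq_word (by group) this
      refine ⟨⟨ha, hb⟩, ?_, hd⟩
      have := H.mul_mem (H.mul_mem (H.mul_mem hb ha) (H.inv_mem hb)) hc'
      exact mem_of_eq_word (by group) this
  | sl' u v a b c d p q p' q' =>
    refine key2 _ _ _ _ _ _ (E_two_eq ?_ ?_)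
    · intro H ha hb hc hd
      have hai := H.inv_mem ha
      have hbi := H.inv_mem hb
      have hci := H.inv_mem hc
      have hdi := H.inv_mem hd
      have h1 : c * d⁻¹ * c⁻¹ * b * a ∈ H :=
        H.mul_mem (H.mul_mem (H.mul_mem (H.mul_mem hc hdi) hci) hb) ha
      exact ⟨⟨ha, h1⟩, H.mul_mem (H.mul_mem (H.mul_mem h1 hbi) hc) hd, hd⟩
    · intro H ha hb' hc' hd
      have h1 : b⁻¹ * c ∈ H := by
        have := H.mul_mem (H.mul_mem (H.inv_mem hb') hc') (H.inv_mem hd)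
        exact mem_of_eq_word (by group) this
      have hc : c ∈ H := by
        have h2 := H.mul_mem hb' (H.inv_mem ha)
        have := H.mul_mem (H.mul_mem h2 h1) hd
        exact mem_of_eq_word (by group) this
      have hb : b ∈ H := by
        have := H.mul_mem hc (H.inv_mem h1)
        exact mem_of_eq_word (by group) this
      exact ⟨⟨ha, hb⟩, hc, hd⟩
  | br u v a b c d p q p' q' =>
    refine key2 _ _ _ _ _ _ (E_two_eq ?_ ?_)
    · intro H ha hb hc hd
      have hδ : a * b * a⁻¹ * b⁻¹ ∈ H :=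
        H.mul_mem (H.mul_mem (H.mul_mem ha hb) (H.inv_mem ha)) (H.inv_mem hb)
      exact ⟨⟨H.mul_mem (H.mul_mem hδ hc) (H.inv_mem hδ),
        H.mul_mem (H.mul_mem hδ hd) (H.inv_mem hδ)⟩, ha, hb⟩
    · intro H hc' hd' ha hb
      have hδ : a * b * a⁻¹ * b⁻¹ ∈ H :=
        H.mul_mem (H.mul_mem (H.mul_mem ha hb) (H.inv_mem ha)) (H.inv_mem hb)
      refine ⟨⟨ha, hb⟩, ?_, ?_⟩
      · have := H.mul_mem (H.mul_mem (H.inv_mem hδ) hc') hδ
        exact mem_of_eq_word (by group) this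
      · have := H.mul_mem (H.mul_mem (H.inv_mem hδ) hd') hδ
        exact mem_of_eq_word (by group) this
  | br' u v a b c d p q p' q' =>
    refine key2 _ _ _ _ _ _ (E_two_eq ?_ ?_)
    · intro H ha hb hc hd
      have hδ : c * d * c⁻¹ * d⁻¹ ∈ H :=
        H.mul_mem (H.mul_mem (H.mul_mem hc hd) (H.inv_mem hc)) (H.inv_mem hd)
      exact ⟨⟨hc, hd⟩, H.mul_mem (H.mul_mem (H.inv_mem hδ) ha) hδ,
        H.mul_mem (H.mul_mem (H.inv_mem hδ) hb) hδ⟩
    · intro H hc hd ha' hb'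
      have hδ : c * d * c⁻¹ * d⁻¹ ∈ H :=
        H.mul_mem (H.mul_mem (H.mul_mem hc hd) (H.inv_mem hc)) (H.inv_mem hd)
      refine ⟨⟨?_, ?_⟩, hc, hd⟩
      · have := H.mul_mem (H.mul_mem hδ ha') (H.inv_mem hδ)
        exact mem_of_eq_word (by group) this
      · have := H.mul_mem (H.mul_mem hδ hb') (H.inv_mem hδ)
        exact mem_of_eq_word (by group) this

theorem WReach.E_eq {L L' : List (Hd Γ k)} (h : WReach L L') : E L' = E L := by
  induction h with
  | refl => rfl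
  | tail _ hs ih => rw [hs.E_eq, ih]

/-- a handle moves to the left unchanged, the handles it passes get conjugated -/
theorem move_left (X : List (Hd Γ k)) (s : Hd Γ k) :
    WReach (X ++ [s]) (s :: cj (bd s) X) := by
  induction X using List.reverseRecOn with
  | nil => exact WReach.refl _
  | append_singleton X h ih =>
    obtain ⟨⟨a, b⟩, ⟨p, q⟩⟩ := h
    obtain ⟨⟨c, d⟩, ⟨p', q'⟩⟩ := s
    have h1 := WReach.of_step (WStep.br' X [] a b c d p q p' q')
    have h2 := ih.right [cj1 (bd ((c, d), (p', q'))) ((a, b), (p, q))]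
    refine WReach.trans (L' := X ++ ((c, d), (p', q')) ::
      [cj1 (bd ((c, d), (p', q'))) ((a, b), (p, q))]) ?_ ?_
    · simpa [cj1, bd] using h1
    · simpa using h2

/-- a handle moves to the right unchanged -/
theorem move_right (X : List (Hd Γ k)) (s : Hd Γ k) :
    WReach (s :: X) (cj (bd s)⁻¹ X ++ [s]) := by
  induction X with
  | nil => exact WReach.refl _
  | cons h X ih =>
    obtain ⟨⟨a, b⟩, ⟨p, q⟩⟩ := s
    obtain ⟨⟨c, d⟩, ⟨p', q'⟩⟩ := h
    have h1 := WReach.of_step (WStep.br [] X a b c d p q p' q')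
    have h2 := ih.left [cj1 (bd ((a, b), (p, q)))⁻¹ ((c, d), (p', q'))]
    refine WReach.trans (L' := cj1 (bd ((a, b), (p, q)))⁻¹ ((c, d), (p', q')) ::
      ((a, b), (p, q)) :: X) ?_ ?_
    · simpa [cj1, bd] using h1
    · simpa using h2

/-- merging two handles -/
theorem merge (a b c d : Γ) (p q p' q' : ZMod k) :
    ∃ h : Hd Γ k, WReach [((a, b), (p, q)), ((c, d), (p', q'))]
      [h, ((a * c, d), (p + p' + 1, q'))] := by
  have h1 := WReach.of_step (WStep.rot' [] [((c, d), (p', q'))] a b p q)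
  have h2 := WReach.of_step (WStep.rot' [] [((c, d), (p', q'))] (a * b * a⁻¹) a⁻¹ q (-p))
  have h3 := WReach.of_step (WStep.sl [] [] (a * b * a⁻¹ * a⁻¹ * (a * b * a⁻¹)⁻¹)
    (a * b * a⁻¹)⁻¹ c d (-p) (-q) p' q')
  have e : (a * b * a⁻¹)⁻¹ * (a * b * a⁻¹ * a⁻¹ * (a * b * a⁻¹)⁻¹)⁻¹ * (a * b * a⁻¹)⁻¹⁻¹ * c =
      a * c := by group
  have e2 : p' - -p + 1 = p + p' + 1 := by ring
  rw [e, e2] at h3
  simp only [List.nil_append] at h1 h2 h3
  exact ⟨_, (h1.trans h2).trans h3⟩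

end SpQ
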