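import Pool.Agent.SpQ.Norm
import Pool.Agent.SpQ.Bridge

/-!
The weight types of a spin structure: for genus at least two, every weight type with the right Arf
invariant is the weight type of an orientation preserving automorphism.
-/

namespace SpQ

open Helper12.Sc Helper12.Sc.SurfaceGroup

variable {Γ Δ : Type*} [Group Γ] [Group Δ] {k : ℕ}

/-- the list of weights of a decorated list -/
def wts (L : List (Hd Γ k)) : List (ZMod k × ZMod k) := L.map Prod.snd

@[simp] theorem wts_nil : wts ([] : List (Hd Γ k)) = [] := rfl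

@[simp] theorem wts_cons (h : Hd Γ k) (L : List (Hd Γ k)) : wts (h :: L) = h.2 :: wts L := rfl

@[simp] theorem wts_append (L M : List (Hd Γ k)) : wts (L ++ M) = wts L ++ wts M := by
  simp [wts]

theorem split1 {L : List (Hd Δ k)} {s t : List (ZMod k × ZMod k)} {z : ZMod k × ZMod k}
    (h : wts L = s ++ z :: t) : ∃ (u v : List (Hd Δ k)) (x y : Δ),
      L = u ++ ((x, y), z) :: v ∧ wts u = s ∧ wts v = t := by
  unfold wts at h ⊢
  obtain ⟨u, v', rfl, hu, hv'⟩ := List.map_eq_append_iff.1 h
  obtain ⟨⟨⟨x, y⟩, z'⟩, v, rfl, hz, hv⟩ := List.map_eq_cons_iff.1 hv'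
  simp only at hz
  subst hz
  exact ⟨u, v, x, y, rfl, hu, hv⟩

theorem split2 {L : List (Hd Δ k)} {s t : List (ZMod k × ZMod k)} {z z' : ZMod k × ZMod k}
    (h : wts L = s ++ z :: z' :: t) : ∃ (u v : List (Hd Δ k)) (x y x' y' : Δ),
      L = u ++ ((x, y), z) :: ((x', y'), z') :: v ∧ wts u = s ∧ wts v = t := by
  obtain ⟨u, v, x, y, rfl, hu, hv⟩ := split1 h
  obtain ⟨u', v', x', y', rfl, hu', hv'⟩ := split1 (s := []) hv
  have hu'' : u' = [] := by
    unfold wts at hu'
    exact List.map_eq_nil_iff.1 hu'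
  subst hu''
  exact ⟨u, v', x, y, x', y', rfl, hu, hv'⟩

/-- the weights after a move only depend on the weights before it -/
theorem step_wts {L M : List (Hd Γ k)} (h : WStep L M) {L' : List (Hd Δ k)}
    (e : wts L' = wts L) : ∃ M' : List (Hd Δ k), WStep L' M' ∧ wts M' = wts M := by
  cases h with
  | tw u v x y p q =>
    obtain ⟨u', v', x', y', rfl, hu, hv⟩ := split1 (by simpa using e)
    exact ⟨_, WStep.tw u' v' x' y' p q, by simp [hu, hv]⟩
  | tw' u v x y p q =>
    obtain ⟨u', v', x', y', rfl, hu, hv⟩ := split1 (by simpa using e)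
    exact ⟨_, WStep.tw' u' v' x' y' p q, by simp [hu, hv]⟩
  | rot u v x y p q =>
    obtain ⟨u', v', x', y', rfl, hu, hv⟩ := split1 (by simpa using e)
    exact ⟨_, WStep.rot u' v' x' y' p q, by simp [hu, hv]⟩
  | rot' u v x y p q =>
    obtain ⟨u', v', x', y', rfl, hu, hv⟩ := split1 (by simpa using e)
    exact ⟨_, WStep.rot' u' v' x' y' p q, by simp [hu, hv]⟩
  | sl u v a b c d p q p' q' =>
    obtain ⟨u', v', x', y', z', t', rfl, hu, hv⟩ := split2 (by simpa using e)
    exact ⟨_, WStep.sl u' v' x' y' z' t' p q p' q', by simp [hu, hv]⟩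
  | sl' u v a b c d p q p' q' =>
    obtain ⟨u', v', x', y', z', t', rfl, hu, hv⟩ := split2 (by simpa using e)
    exact ⟨_, WStep.sl' u' v' x' y' z' t' p q p' q', by simp [hu, hv]⟩
  | br u v a b c d p q p' q' =>
    obtain ⟨u', v', x', y', z', t', rfl, hu, hv⟩ := split2 (by simpa using e)
    exact ⟨_, WStep.br u' v' x' y' z' t' p q p' q', by simp [hu, hv]⟩
  | br' u v a b c d p q p' q' =>
    obtain ⟨u', v', x', y', z', t', rfl, hu, hv⟩ := split2 (by simpa using e)
    exact ⟨_, WStep.br' u' v' x' y' z' t' p q p' q', by simp [hu, hv]⟩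

/-- the weights before a move can be recovered -/
theorem step_rev {L M : List (Hd Γ k)} (h : WStep L M) :
    ∃ L' : List (Hd Γ k), WStep M L' ∧ wts L' = wts L := by
  cases h with
  | tw u v x y p q => exact ⟨_, WStep.tw' u v _ _ _ _, by simp⟩
  | tw' u v x y p q => exact ⟨_, WStep.tw u v _ _ _ _, by simp⟩
  | rot u v x y p q => exact ⟨_, WStep.rot' u v _ _ _ _, by simp⟩
  | rot' u v x y p q => exact ⟨_, WStep.rot u v _ _ _ _, by simp⟩
  | sl u v a b c d p q p' q' =>
    refine ⟨_, WStep.sl' u v _ _ _ _ _ _ _ _, ?_⟩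
    simp only [wts_append, wts_cons]
    congr 2
    · ring_nf
    · congr 1
      ring_nf
  | sl' u v a b c d p q p' q' =>
    refine ⟨_, WStep.sl u v _ _ _ _ _ _ _ _, ?_⟩
    simp only [wts_append, wts_cons]
    congr 2
    · ring_nf
    · congr 1
      ring_nf
  | br u v a b c d p q p' q' => exact ⟨_, WStep.br' u v _ _ _ _ _ _ _ _, by simp⟩
  | br' u v a b c d p q p' q' => exact ⟨_, WStep.br u v _ _ _ _ _ _ _ _, by simp⟩

theorem reach_wts {L M : List (Hd Γ k)} (h : WReach L M) {L' : List (Hd Δ k)}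
    (e : wts L' = wts L) : ∃ M' : List (Hd Δ k), WReach L' M' ∧ wts M' = wts M := by
  induction h with
  | refl => exact ⟨L', WReach.refl _, e⟩
  | tail _ hs ih =>
    obtain ⟨M', h1, h2⟩ := ih
    obtain ⟨M'', h3, h4⟩ := step_wts hs h2
    exact ⟨M'', h1.tail h3, h4⟩

/-- the relation on lists of weights: the second one can be reached from the first one -/
def WR (s t : List (ZMod k × ZMod k)) : Prop :=
  ∀ L : List (Hd PUnit.{1} k), wts L = s → ∃ M, WReach L M ∧ wts M = t

theorem WR.of_reach {L M : List (Hd Γ k)} (h : WReach L M) : WR (wts L) (wts M) :=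
  fun _ e => reach_wts h e

theorem WR.rfl' {s : List (ZMod k × ZMod k)} : WR s s := fun L e => ⟨L, WReach.refl L, e⟩

theorem WR.trans {s t u : List (ZMod k × ZMod k)} (h1 : WR s t) (h2 : WR t u) : WR s u := by
  intro L e
  obtain ⟨M, hM, eM⟩ := h1 L e
  obtain ⟨M', hM', eM'⟩ := h2 M eM
  exact ⟨M', hM.trans hM', eM'⟩

theorem exists_wts (s : List (ZMod k × ZMod k)) : ∃ L : List (Hd PUnit.{1} k), wts L = s :=
  ⟨s.map fun z => ((PUnit.unit, PUnit.unit), z), by simp [wts, Function.comp_def]⟩

theorem reach_rev {L M : List (Hd PUnit.{1} k)} (h : WReach L M) : WR (wts M) (wts L) := by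
  induction h with
  | refl => exact WR.rfl'
  | tail _ hs ih =>
    obtain ⟨L', h1, h2⟩ := step_rev hs
    have h3 := WR.of_reach (WReach.of_step h1)
    rw [h2] at h3
    exact h3.trans ih

theorem WR.symm {s t : List (ZMod k × ZMod k)} (h : WR s t) : WR t s := by
  obtain ⟨L, hL⟩ := exists_wts s
  obtain ⟨M, hM, eM⟩ := h L hL
  have h1 := reach_rev hM
  rwa [hL, eM] at h1

theorem WR.lift {s t : List (ZMod k × ZMod k)} (h : WR s t) {L : List (Hd Γ k)}
    (e : wts L = s) : ∃ M, WReach L M ∧ wts M = t := by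
  obtain ⟨L', hL'⟩ := exists_wts s
  obtain ⟨M', hM', eM'⟩ := h L' hL'
  obtain ⟨M, hM, eM⟩ := reach_wts hM' (e.trans hL'.symm)
  exact ⟨M, hM, eM.trans eM'⟩

/-- the Arf invariant of a list of weights -/
def arf (h : 2 ∣ k) (s : List (ZMod k × ZMod k)) : ZMod 2 :=
  (s.map fun z => (ZMod.castHom h (ZMod 2) z.1 + 1) * (ZMod.castHom h (ZMod 2) z.2 + 1)).sum

theorem arf_append (h : 2 ∣ k) (s t : List (ZMod k × ZMod k)) :
    arf h (s ++ t) = arf h s + arf h t := by simp [arf]

theorem arf_cons (h : 2 ∣ k) (z : ZMod k × ZMod k) (t : List (ZMod k × ZMod k)) :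
    arf h (z :: t) = (ZMod.castHom h (ZMod 2) z.1 + 1) * (ZMod.castHom h (ZMod 2) z.2 + 1) +
      arf h t := by simp [arf]

theorem arf1 (x y : ZMod 2) : (x + 1) * (y + x + 1) = (x + 1) * (y + 1) := by
  revert x y; decide

theorem arf2 (x y : ZMod 2) : (x + 1) * (y - x + 1) = (x + 1) * (y + 1) := by
  revert x y; decide

theorem arf3 (x y : ZMod 2) : (-y + 1) * (x + 1) = (x + 1) * (y + 1) := by
  revert x y; decide

theorem arf4 (x y : ZMod 2) : (y + 1) * (-x + 1) = (x + 1) * (y + 1) := by
  revert x y; decide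

theorem arf5 (x y x' y' : ZMod 2) : (x + 1) * (y + y' - x + 1 + 1) +
    (x' - x + 1 + 1) * (y' + 1) = (x + 1) * (y + 1) + (x' + 1) * (y' + 1) := by
  revert x y x' y'; decide

theorem arf6 (x y x' y' : ZMod 2) : (x + 1) * (y - y' + x - 1 + 1) +
    (x' + x - 1 + 1) * (y' + 1) = (x + 1) * (y + 1) + (x' + 1) * (y' + 1) := by
  revert x y x' y'; decide

theorem arf_step (h2 : 2 ∣ k) {L M : List (Hd Γ k)} (h : WStep L M) :
    arf h2 (wts M) = arf h2 (wts L) := by
  cases h with
  | tw u v x y p q => simp only [wts_append, wts_cons, arf_append, arf_cons, map_add, arf1]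
  | tw' u v x y p q => simp only [wts_append, wts_cons, arf_append, arf_cons, map_sub, arf2]
  | rot u v x y p q => simp only [wts_append, wts_cons, arf_append, arf_cons, map_neg, arf3]
  | rot' u v x y p q => simp only [wts_append, wts_cons, arf_append, arf_cons, map_neg, arf4]
  | sl u v a b c d p q p' q' =>
    simp only [wts_append, wts_cons, arf_append, arf_cons, map_add, map_sub, map_one]
    rw [← add_assoc ((_ : ZMod 2) * _), arf5, add_assoc]
  | sl' u v a b c d p q p' q' =>
    simp only [wts_append, wts_cons, arf_append, arf_cons, map_add, map_sub, map_one]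
    rw [← add_assoc ((_ : ZMod 2) * _), arf6, add_assoc]
  | br u v a b c d p q p' q' =>
    simp only [wts_append, wts_cons, arf_append, arf_cons]
    ring
  | br' u v a b c d p q p' q' =>
    simp only [wts_append, wts_cons, arf_append, arf_cons]
    ring

theorem arf_reach (h2 : 2 ∣ k) {L M : List (Hd Γ k)} (h : WReach L M) :
    arf h2 (wts M) = arf h2 (wts L) := by
  induction h with
  | refl => rfl
  | tail _ hs ih => exact (arf_step h2 hs).trans ih

theorem WR.arf_eq (h2 : 2 ∣ k) {s t : List (ZMod k × ZMod k)} (h : WR s t) :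
    arf h2 t = arf h2 s := by
  obtain ⟨L, hL⟩ := exists_wts s
  obtain ⟨M, hM, eM⟩ := h L hL
  rw [← hL, ← eM]
  exact arf_reach h2 hM

/-- the second weight of the first handle can be changed by two -/
theorem shift_one (q : ZMod k) (t : List (ZMod k × ZMod k)) :
    WR ((0, q) :: (-1, 1) :: t) ((0, q + 2) :: (-1, 1) :: t) := by
  obtain ⟨T, rfl⟩ := exists_wts t
  have h1 := WReach.of_step (WStep.sl [] T (PUnit.unit) PUnit.unit PUnit.unit PUnit.unit
    (0 : ZMod k) q (-1) 1)
  have h2 := WReach.of_step (WStep.rot [((PUnit.unit, PUnit.unit), ((0 : ZMod k), q + 2))] T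
    PUnit.unit PUnit.unit 0 1)
  have h3 := WReach.of_step (WStep.tw' [((PUnit.unit, PUnit.unit), ((0 : ZMod k), q + 2))] T
    PUnit.unit PUnit.unit (-1) 0)
  have w1 := WR.of_reach h1
  have w2 := WR.of_reach h2
  have w3 := WR.of_reach h3
  simp only [List.nil_append, List.cons_append, wts_cons, sub_zero, zero_sub, neg_neg,
    neg_add_cancel, add_assoc, one_add_one_eq_two] at w1 w2 w3
  exact (w1.trans w2).trans w3

theorem shift_nat (q : ZMod k) (t : List (ZMod k × ZMod k)) (m : ℕ) :
    WR ((0, q) :: (-1, 1) :: t) ((0, q + 2 * m) :: (-1, 1) :: t) := by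
  induction m with
  | zero => simpa using WR.rfl'
  | succ m ih =>
    have h := shift_one (q + 2 * (m : ZMod k)) t
    have e : q + 2 * (m : ZMod k) + 2 = q + 2 * ((m + 1 : ℕ) : ZMod k) := by push_cast; ring
    rw [e] at h
    exact ih.trans h

theorem shift_int (q : ZMod k) (t : List (ZMod k × ZMod k)) (m : ℤ) :
    WR ((0, q) :: (-1, 1) :: t) ((0, q + 2 * m) :: (-1, 1) :: t) := by
  rcases Int.eq_nat_or_neg m with ⟨n, rfl | rfl⟩
  · simpa using shift_nat q t n
  · have h := (shift_nat (q + 2 * ((-(n : ℤ) : ℤ) : ZMod k)) t n).symm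
    have e : q + 2 * ((-(n : ℤ) : ℤ) : ZMod k) + 2 * (n : ZMod k) = q := by push_cast; ring
    rwa [e] at h

/-- every list of at least two weights can be brought to the normal form -/
theorem normal (z z' : ZMod k × ZMod k) (t : List (ZMod k × ZMod k)) :
    ∃ q : ZMod k, (q = 0 ∨ q = 1) ∧
      WR (z :: z' :: t) ((0, q) :: (-1, 1) :: t.map fun _ => (-1, 1)) := by
  obtain ⟨L, hL⟩ := exists_wts (z :: z' :: t)
  obtain ⟨u, v, x, y, rfl, hu, hv⟩ := split1 (s := []) hL
  have hu' : u = [] := by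
    unfold wts at hu
    exact List.map_eq_nil_iff.1 hu
  subst hu'
  obtain ⟨h', G, hG, hgood⟩ := exists_good ((x, y), z) v
  obtain ⟨h'', hh, hz⟩ := exists_zero h'
  have hw := WR.of_reach (hG.trans (hh.right G))
  have hlen : G.length = v.length := by
    have := hG.length_eq
    simpa using this
  have hGw : wts G = (z' :: t).map fun _ => (-1, 1) := by
    rw [← hv]
    unfold wts
    rw [List.map_map]
    apply List.ext_getElem
    · simp [hlen]
    · intro i h1 h2
      have h3 : i < G.length := by simpa using h1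
      simp only [List.getElem_map]
      have := hgood G[i] (List.getElem_mem h3)
      simpa [Good] using this
  obtain ⟨Q, hQ⟩ := ZMod.intCast_surjective h''.2.2
  have h0 : h''.2 = (0, (Q : ZMod k)) := Prod.ext hz hQ.symm
  rw [List.nil_append] at hL
  rw [hL] at hw
  simp only [List.cons_append, List.nil_append, wts_cons, hGw, h0, List.map_cons] at hw
  have hs := shift_int (Q : ZMod k) (t.map fun _ => ((-1 : ZMod k), (1 : ZMod k))) (-(Q / 2))
  have e : (Q : ZMod k) + 2 * ((-(Q / 2) : ℤ) : ZMod k) = ((Q % 2 : ℤ) : ZMod k) := by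
    rw [Int.emod_def]
    push_cast
    ring
  rw [e] at hs
  refine ⟨((Q % 2 : ℤ) : ZMod k), ?_, hw.trans hs⟩
  rcases Int.emod_two_eq_zero_or_one Q with h | h
  · left; simp [h]
  · right; simp [h]

theorem arf_good (h2 : 2 ∣ k) (t : List (ZMod k × ZMod k)) :
    arf h2 (t.map fun _ => ((-1 : ZMod k), (1 : ZMod k))) = 0 := by
  unfold arf
  rw [List.map_map]
  apply List.sum_eq_zero
  intro x hx
  obtain ⟨y, -, rfl⟩ := List.mem_map.1 hx
  simp only [Function.comp_apply, map_neg, map_one]
  decide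

/-- two lists of weights of the same length, at least two, with the same Arf invariant are
equivalent -/
theorem WR_of_arf {z z' y y' : ZMod k × ZMod k} {t u : List (ZMod k × ZMod k)}
    (hlen : t.length = u.length)
    (ha : Odd k ∨ ∃ h2 : 2 ∣ k, arf h2 (z :: z' :: t) = arf h2 (y :: y' :: u)) :
    WR (z :: z' :: t) (y :: y' :: u) := by
  obtain ⟨q, hq, h1⟩ := normal z z' t
  obtain ⟨r, hr, h3⟩ := normal y y' u
  have hmap : (t.map fun _ => ((-1 : ZMod k), (1 : ZMod k))) = u.map fun _ => (-1, 1) := by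
    apply List.ext_getElem
    · simp [hlen]
    · intro i h1 h2
      simp
  rw [← hmap] at h3
  have key : WR ((0, q) :: (-1, 1) :: t.map fun _ => ((-1 : ZMod k), (1 : ZMod k)))
      ((0, r) :: (-1, 1) :: t.map fun _ => ((-1 : ZMod k), (1 : ZMod k))) := by
    rcases ha with ⟨m, hm⟩ | ⟨h2, ha⟩
    · -- `k = 2 m + 1`
      have hk : (2 * (m : ZMod k) + 1) = 0 := by
        have : ((2 * m + 1 : ℕ) : ZMod k) = 0 := by rw [← hm]; exact ZMod.natCast_self k
        push_cast at this
        exact this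
      have e01 : (0 : ZMod k) + 2 * (((m : ℤ) + 1 : ℤ) : ZMod k) = 1 := by
        push_cast
        linear_combination hk
      have h01 := shift_int (0 : ZMod k) (t.map fun _ => ((-1 : ZMod k), (1 : ZMod k))) (m + 1)
      rw [e01] at h01
      rcases hq with rfl | rfl <;> rcases hr with rfl | rfl
      · exact WR.rfl'
      · exact h01
      · exact h01.symm
      · exact WR.rfl'
    · have e1 := h1.arf_eq h2
      have e3 := h3.arf_eq h2
      rw [← ha, ← e1] at e3
      simp only [arf_cons, map_zero, map_neg, map_one, arf_good] at e3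
      rcases hq with rfl | rfl <;> rcases hr with rfl | rfl
      · exact WR.rfl'
      · exfalso
        simp only [map_zero, map_one] at e3
        revert e3
        decide
      · exfalso
        simp only [map_zero, map_one] at e3
        revert e3
        decide
      · exact WR.rfl'
  exact (h1.trans key).trans h3.symm

variable {g : ℕ} {w : SurfaceGroup g → ZMod k}

/-- The weight types of a spin structure: for genus at least two every weight type with the right
Arf invariant is realised by an orientation preserving automorphism. -/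
theorem exists_wtype (hg : 2 ≤ g) (hw : IsSpinStructure k w) (τ : Fin g → ZMod k × ZMod k)
    (hτ : Odd k ∨ ∃ h2 : 2 ∣ k,
      ∑ i, (ZMod.castHom h2 (ZMod 2) (w (a i)) + 1) * (ZMod.castHom h2 (ZMod 2) (w (b i)) + 1) =
      ∑ i, (ZMod.castHom h2 (ZMod 2) (τ i).1 + 1) * (ZMod.castHom h2 (ZMod 2) (τ i).2 + 1)) :
    ∃ φ : SurfaceGroup g ≃* SurfaceGroup g, IsOrientationPreserving φ ∧
      ∀ i, w (φ (a i)) = (τ i).1 ∧ w (φ (b i)) = (τ i).2 := by
  obtain ⟨n, rfl⟩ : ∃ n, g = n + 2 := ⟨g - 2, by omega⟩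
  have e1 : wts (decor w (MulEquiv.refl (SurfaceGroup (n + 2)))) =
      List.ofFn fun i : Fin (n + 2) => (w (a i), w (b i)) := by
    unfold wts decor
    rw [List.map_ofFn]
    rfl
  have harf : ∀ (h2 : 2 ∣ k) (f : Fin (n + 2) → ZMod k × ZMod k), arf h2 (List.ofFn f) =
      ∑ i, (ZMod.castHom h2 (ZMod 2) (f i).1 + 1) * (ZMod.castHom h2 (ZMod 2) (f i).2 + 1) := by
    intro h2 f
    unfold arf
    rw [List.map_ofFn, List.sum_ofFn]
    rfl
  have hWR : WR (List.ofFn fun i : Fin (n + 2) => (w (a i), w (b i))) (List.ofFn τ) := by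
    have h3 : Odd k ∨ ∃ h2 : 2 ∣ k,
        arf h2 (List.ofFn fun i : Fin (n + 2) => (w (a i), w (b i))) =
          arf h2 (List.ofFn τ) := by
      rcases hτ with h | ⟨h2, h⟩
      · exact Or.inl h
      · exact Or.inr ⟨h2, by rw [harf, harf]; exact h⟩
    rw [List.ofFn_succ, List.ofFn_succ, List.ofFn_succ (f := τ),
      List.ofFn_succ (f := fun i : Fin (n + 1) => τ i.succ)] at h3 ⊢
    exact WR_of_arf (by simp) h3
  obtain ⟨M, hM, eM⟩ := hWR.lift e1
  obtain ⟨φ, hφ, rfl⟩ := reach_decor hw (op_refl _) hM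
  refine ⟨φ, hφ, ?_⟩
  have e2 : wts (decor w φ) = List.ofFn fun i : Fin (n + 2) => (w (φ (a i)), w (φ (b i))) := by
    unfold wts decor
    rw [List.map_ofFn]
    rfl
  rw [e2] at eM
  have e3 := List.ofFn_injective eM
  intro i
  have e4 := congrFun e3 i
  exact ⟨congrArg Prod.fst e4, congrArg Prod.snd e4⟩

end SpQ
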