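import Pool.Agent.SpQ.Spin

/-!
Elementary moves of the standard list come from orientation preserving automorphisms.
-/

namespace SpQ

open Helper12.Sc Helper12.Sc.SurfaceGroup

/-- the standard list of generators of the free group -/
def stdF (g : ℕ) : List (FreeGroup (Fin g × Bool) × FreeGroup (Fin g × Bool)) :=
  List.ofFn fun i : Fin g => (FreeGroup.of (i, false), FreeGroup.of (i, true))

theorem stdF_length (g : ℕ) : (stdF g).length = g := by simp [stdF]

theorem map_stdF (g : ℕ) :
    (stdF g).map (Prod.map (PresentedGroup.mk {surfaceRelator g})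
      (PresentedGroup.mk {surfaceRelator g})) = std g := by
  unfold stdF std
  rw [List.map_ofFn]
  rfl

theorem comm_stdF (g : ℕ) : Helper12.Sc.comm (stdF g) = surfaceRelator g := by
  unfold Helper12.Sc.comm stdF surfaceRelator
  rw [List.map_ofFn]
  rfl

theorem comm_map {Γ Δ : Type*} [Group Γ] [Group Δ] (f : Γ →* Δ) (S : List (Γ × Γ)) :
    Helper12.Sc.comm (S.map (Prod.map f f)) = f (Helper12.Sc.comm S) := by
  unfold Helper12.Sc.comm
  rw [map_list_prod, List.map_map, List.map_map]
  congr 1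
  apply List.map_congr_left
  rintro ⟨x, y⟩ _
  simp only [Function.comp, Prod.map_apply, map_mul, map_inv]

/-- every list of the right length is the image of the standard list -/
theorem exists_homF {g : ℕ} {Γ : Type*} [Group Γ] (L : List (Γ × Γ)) (hlen : L.length = g) :
    ∃ ψ : FreeGroup (Fin g × Bool) →* Γ, (stdF g).map (Prod.map ψ ψ) = L := by
  subst hlen
  refine ⟨FreeGroup.lift fun p : Fin L.length × Bool =>
    if p.2 then (L.get p.1).2 else (L.get p.1).1, ?_⟩
  unfold stdF
  rw [List.map_ofFn]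
  conv_rhs => rw [← List.ofFn_get L]
  congr 1
  funext i
  simp only [Function.comp, Prod.map_apply, FreeGroup.lift_apply_of]
  rfl

theorem homF_ext {g : ℕ} {Γ : Type*} [Group Γ] {ψ ψ' : FreeGroup (Fin g × Bool) →* Γ}
    (h : (stdF g).map (Prod.map ψ ψ) = (stdF g).map (Prod.map ψ' ψ')) : ψ = ψ' := by
  unfold stdF at h
  rw [List.map_ofFn, List.map_ofFn] at h
  have h' := List.ofFn_injective h
  apply FreeGroup.ext_hom
  rintro ⟨i, c⟩
  have hi := congrFun h' i
  simp only [Function.comp, Prod.map_apply, Prod.mk.injEq] at hi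
  cases c
  · exact hi.1
  · exact hi.2

/-- one half of the inverse of the endomorphism of an elementary move -/
theorem exists_right_inv {g : ℕ} {S : List (FreeGroup (Fin g × Bool) × FreeGroup (Fin g × Bool))}
    (hS : Step (stdF g) S) {Ψ : FreeGroup (Fin g × Bool) →* FreeGroup (Fin g × Bool)}
    (hΨ : (stdF g).map (Prod.map Ψ Ψ) = S) :
    ∃ Ψ' : FreeGroup (Fin g × Bool) →* FreeGroup (Fin g × Bool),
      Step (stdF g) ((stdF g).map (Prod.map Ψ' Ψ')) ∧ ∀ x, Ψ (Ψ' x) = x := by
  obtain ⟨S', hS', hm⟩ := Step.lift Ψ hΨ hS.symm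
  obtain ⟨Ψ', hΨ'⟩ := exists_homF S' (by rw [hS'.length_eq, stdF_length])
  refine ⟨Ψ', by rw [hΨ']; exact hS', ?_⟩
  have h1 : (Ψ.comp Ψ') = MonoidHom.id _ := by
    apply homF_ext
    rw [← hΨ'] at hm
    rw [List.map_map] at hm
    have e1 : (stdF g).map (Prod.map (Ψ.comp Ψ') (Ψ.comp Ψ')) = stdF g := by
      rw [← hm]
      apply congrArg₂ _ _ hm
      rfl
    rw [e1]
    have e2 : (Prod.map (MonoidHom.id (FreeGroup (Fin g × Bool)))
        (MonoidHom.id (FreeGroup (Fin g × Bool)))) = id := by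
      funext x
      rfl
    rw [e2, List.map_id]
  intro x
  exact DFunLike.congr_fun h1 x

/-- an elementary move of the standard list of the free group is an automorphism -/
theorem exists_autF {g : ℕ} {S : List (FreeGroup (Fin g × Bool) × FreeGroup (Fin g × Bool))}
    (hS : Step (stdF g) S) :
    ∃ Φ : FreeGroup (Fin g × Bool) ≃* FreeGroup (Fin g × Bool),
      (stdF g).map (Prod.map Φ Φ) = S ∧ Φ (surfaceRelator g) = surfaceRelator g := by
  obtain ⟨Ψ, hΨ⟩ := exists_homF S (by rw [hS.length_eq, stdF_length])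
  obtain ⟨Ψ', hΨ', h1⟩ := exists_right_inv hS hΨ
  obtain ⟨Ψ'', -, h2⟩ := exists_right_inv hΨ' rfl
  have h3 : ∀ x, Ψ' (Ψ x) = x := by
    intro x
    have e := h1 (Ψ'' x)
    rw [h2] at e
    rw [e, h2]
  refine ⟨MulEquiv.mk' ⟨Ψ, Ψ', h3, h1⟩ (map_mul Ψ), hΨ, ?_⟩
  show Ψ (surfaceRelator g) = surfaceRelator g
  rw [← comm_stdF, ← comm_map, hΨ, hS.comm_eq]

/-- an endomorphism of the free group fixing the relator descends to the surface group -/
theorem exists_descend {g : ℕ} (Φ : FreeGroup (Fin g × Bool) →* FreeGroup (Fin g × Bool))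
    (hΦ : Φ (surfaceRelator g) = surfaceRelator g) :
    ∃ ψ : SurfaceGroup g →* SurfaceGroup g,
      ∀ x, ψ (PresentedGroup.mk {surfaceRelator g} x) =
        PresentedGroup.mk {surfaceRelator g} (Φ x) := by
  have hone : PresentedGroup.mk {surfaceRelator g} (surfaceRelator g) = 1 :=
    PresentedGroup.mk_eq_one_iff.2 (Subgroup.subset_normalClosure (Set.mem_singleton _))
  let f : Fin g × Bool → SurfaceGroup g := fun p =>
    PresentedGroup.mk {surfaceRelator g} (Φ (FreeGroup.of p))
  have hlift : FreeGroup.lift f = (PresentedGroup.mk {surfaceRelator g}).comp Φ := by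
    apply FreeGroup.ext_hom
    intro p
    rw [FreeGroup.lift_apply_of]
    rfl
  have hf : ∀ r ∈ ({surfaceRelator g} : Set (FreeGroup (Fin g × Bool))),
      FreeGroup.lift f r = 1 := by
    rintro r rfl
    rw [hlift, MonoidHom.comp_apply, hΦ, hone]
  refine ⟨PresentedGroup.toGroup hf, ?_⟩
  have h2 : (PresentedGroup.toGroup hf).comp (PresentedGroup.mk {surfaceRelator g}) =
      (PresentedGroup.mk {surfaceRelator g}).comp Φ := by
    apply FreeGroup.ext_hom
    intro p
    exact PresentedGroup.toGroup.of hf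
  intro x
  exact DFunLike.congr_fun h2 x

/-- an automorphism of the free group fixing the relator descends to an automorphism of the surface
group -/
theorem exists_descend_equiv {g : ℕ} (Φ : FreeGroup (Fin g × Bool) ≃* FreeGroup (Fin g × Bool))
    (hΦ : Φ (surfaceRelator g) = surfaceRelator g) :
    ∃ ψ : SurfaceGroup g ≃* SurfaceGroup g, IsOrientationPreserving ψ ∧
      ∀ x, ψ (PresentedGroup.mk {surfaceRelator g} x) =
        PresentedGroup.mk {surfaceRelator g} (Φ x) := by
  obtain ⟨ψ, hψ⟩ := exists_descend Φ.toMonoidHom hΦ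
  have hΦ' : Φ.symm (surfaceRelator g) = surfaceRelator g := by
    rw [MulEquiv.symm_apply_eq, hΦ]
  obtain ⟨ψ', hψ'⟩ := exists_descend Φ.symm.toMonoidHom hΦ'
  refine ⟨MulEquiv.mk' ⟨ψ, ψ', ?_, ?_⟩ (map_mul ψ), ⟨Φ, fun x => (hψ x).symm, hΦ⟩, hψ⟩
  · intro x
    obtain ⟨y, rfl⟩ := PresentedGroup.mk_surjective {surfaceRelator g} x
    rw [hψ, hψ']
    exact congrArg _ (Φ.symm_apply_apply y)
  · intro x
    obtain ⟨y, rfl⟩ := PresentedGroup.mk_surjective {surfaceRelator g} x
    rw [hψ', hψ]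
    exact congrArg _ (Φ.apply_symm_apply y)

/-- The lists reached from the standard list by an elementary move are the images of the standard
list under orientation preserving automorphisms. -/
theorem exists_op_aut {g : ℕ} {L : List (SurfaceGroup g × SurfaceGroup g)}
    (h : Step (std g) L) :
    ∃ ψ : SurfaceGroup g ≃* SurfaceGroup g, IsOrientationPreserving ψ ∧
      L = (std g).map (Prod.map ψ ψ) := by
  obtain ⟨S, hS, hm⟩ := Step.lift (PresentedGroup.mk {surfaceRelator g}) (map_stdF g) h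
  obtain ⟨Φ, hΦ, hR⟩ := exists_autF hS
  obtain ⟨ψ, hψ, hψm⟩ := exists_descend_equiv Φ hR
  refine ⟨ψ, hψ, ?_⟩
  rw [← hm, ← hΦ, ← map_stdF, List.map_map, List.map_map]
  apply List.map_congr_left
  rintro ⟨x, y⟩ _
  simp only [Function.comp, Prod.map_apply]
  rw [hψm, hψm]

theorem op_refl (g : ℕ) : IsOrientationPreserving (MulEquiv.refl (SurfaceGroup g)) :=
  ⟨MulEquiv.refl _, fun _ => rfl, rfl⟩

theorem op_trans {g : ℕ} {φ ψ : SurfaceGroup g ≃* SurfaceGroup g}
    (hφ : IsOrientationPreserving φ) (hψ : IsOrientationPreserving ψ) :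
    IsOrientationPreserving (φ.trans ψ) := by
  obtain ⟨Φ, h1, h2⟩ := hφ
  obtain ⟨Ψ, h3, h4⟩ := hψ
  refine ⟨Φ.trans Ψ, ?_, ?_⟩
  · intro x
    show PresentedGroup.mk {surfaceRelator g} (Ψ (Φ x)) = ψ (φ (PresentedGroup.mk _ x))
    rw [h3, h1]
  · show Ψ (Φ (surfaceRelator g)) = surfaceRelator g
    rw [h2, h4]

theorem op_symm {g : ℕ} {φ : SurfaceGroup g ≃* SurfaceGroup g}
    (hφ : IsOrientationPreserving φ) : IsOrientationPreserving φ.symm := by
  obtain ⟨Φ, h1, h2⟩ := hφ
  refine ⟨Φ.symm, ?_, ?_⟩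
  · intro x
    apply φ.injective
    rw [MulEquiv.apply_symm_apply, ← h1, MulEquiv.apply_symm_apply]
  · rw [MulEquiv.symm_apply_eq, h2]

end SpQ
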