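import Pool.Agent.SpQ.OpAut

/-!
The orientation preserving automorphisms belonging to the elementary moves, and the winding numbers
of the new curves.
-/

namespace SpQ

open Helper12.Sc Helper12.Sc.SurfaceGroup

variable {g : ℕ}

theorem std_get (i : Fin g) : (std g)[(i : ℕ)]? = some (a i, b i) := by
  unfold std
  rw [List.getElem?_ofFn]
  simp

theorem std_drop (j : Fin g) :
    (std g).drop j = (a j, b j) :: (std g).drop (j + 1) := by
  have h1 : (j : ℕ) < (std g).length := by rw [std_length]; exact j.2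
  have h2 : (std g)[(j : ℕ)] = (a j, b j) := by
    have := std_get j
    rw [List.getElem?_eq_getElem h1] at this
    exact Option.some_injective _ this
  rw [List.drop_eq_getElem_cons h1, h2]

theorem std_split (i : Fin g) :
    std g = (std g).take i ++ (a i, b i) :: (std g).drop (i + 1) := by
  conv_lhs => rw [← List.take_append_drop i (std g), std_drop]

theorem std_split2 (i j : Fin g) (hij : (j : ℕ) = i + 1) :
    std g = (std g).take i ++ (a i, b i) :: (a j, b j) :: (std g).drop (i + 2) := by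
  have h1 := std_split i
  have h2 := std_drop j
  rw [hij] at h2
  rw [h2] at h1
  exact h1

theorem op_at {i : Fin g} {x y : SurfaceGroup g}
    (h : Step (std g) ((std g).take i ++ (x, y) :: (std g).drop (i + 1))) :
    ∃ ψ : SurfaceGroup g ≃* SurfaceGroup g, IsOrientationPreserving ψ ∧ ψ (a i) = x ∧
      ψ (b i) = y ∧ ∀ j, j ≠ i → ψ (a j) = a j ∧ ψ (b j) = b j := by
  obtain ⟨ψ, hψ, hL⟩ := exists_op_aut h
  have hlen : ((std g).take (i : ℕ)).length = (i : ℕ) := by
    rw [List.length_take, std_length]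
    have := i.2
    omega
  have key : ∀ j : Fin g, ((std g).take i ++ (x, y) :: (std g).drop (i + 1))[(j : ℕ)]? =
      some (ψ (a j), ψ (b j)) := by
    intro j
    rw [hL, List.getElem?_map, std_get]
    rfl
  refine ⟨ψ, hψ, ?_, ?_, ?_⟩
  · have := key i
    rw [List.getElem?_append_right (by rw [hlen]), hlen] at this
    simp at this
    exact this.1.symm
  · have := key i
    rw [List.getElem?_append_right (by rw [hlen]), hlen] at this
    simp at this
    exact this.2.symm
  · intro j hj
    have h1 := key j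
    have h2 : ((std g).take i ++ (x, y) :: (std g).drop (i + 1))[(j : ℕ)]? =
        (std g)[(j : ℕ)]? := by
      have hne : (j : ℕ) ≠ i := fun e => hj (Fin.ext e)
      conv_rhs => rw [std_split i]
      rcases lt_or_gt_of_ne hne with h | h
      · rw [List.getElem?_append_left (by rw [hlen]; exact h),
          List.getElem?_append_left (by rw [hlen]; exact h)]
      · rw [List.getElem?_append_right (by rw [hlen]; omega),
          List.getElem?_append_right (by rw [hlen]; omega), hlen]
        obtain ⟨m, hm⟩ : ∃ m, (j : ℕ) - i = m + 1 := ⟨j - i - 1, by omega⟩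
        rw [hm, List.getElem?_cons_succ, List.getElem?_cons_succ]
    rw [h2, std_get] at h1
    have h3 := Option.some_injective _ h1
    exact ⟨(congrArg Prod.fst h3).symm, (congrArg Prod.snd h3).symm⟩

theorem op_at2 {i j : Fin g} (hij : (j : ℕ) = i + 1) {x y z t : SurfaceGroup g}
    (h : Step (std g) ((std g).take i ++ (x, y) :: (z, t) :: (std g).drop (i + 2))) :
    ∃ ψ : SurfaceGroup g ≃* SurfaceGroup g, IsOrientationPreserving ψ ∧ (ψ (a i) = x ∧
      ψ (b i) = y) ∧ ψ (a j) = z ∧ ψ (b j) = t := by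
  obtain ⟨ψ, hψ, hL⟩ := exists_op_aut h
  have hlen : ((std g).take (i : ℕ)).length = (i : ℕ) := by
    rw [List.length_take, std_length]
    have := i.2
    omega
  have key : ∀ j : Fin g, ((std g).take i ++ (x, y) :: (z, t) :: (std g).drop (i + 2))[(j : ℕ)]? =
      some (ψ (a j), ψ (b j)) := by
    intro j
    rw [hL, List.getElem?_map, std_get]
    rfl
  have h1 := key i
  rw [List.getElem?_append_right (by rw [hlen]), hlen, Nat.sub_self,
    List.getElem?_cons_zero] at h1
  have h2 := key j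
  rw [List.getElem?_append_right (by rw [hlen]; omega), hlen, hij, Nat.add_sub_cancel_left,
    List.getElem?_cons_succ, List.getElem?_cons_zero] at h2
  have h3 := Option.some_injective _ h1
  have h4 := Option.some_injective _ h2
  exact ⟨ψ, hψ, ⟨(congrArg Prod.fst h3).symm, (congrArg Prod.snd h3).symm⟩,
    (congrArg Prod.fst h4).symm, (congrArg Prod.snd h4).symm⟩

theorem exists_tw (i : Fin g) : ∃ ψ : SurfaceGroup g ≃* SurfaceGroup g,
    IsOrientationPreserving ψ ∧ ψ (a i) = a i ∧ ψ (b i) = b i * a i ∧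
      ∀ j, j ≠ i → ψ (a j) = a j ∧ ψ (b j) = b j := by
  refine op_at ?_
  have := Step.tw ((std g).take i) ((std g).drop (i + 1)) (a i) (b i)
  rwa [← std_split] at this

theorem exists_tw' (i : Fin g) : ∃ ψ : SurfaceGroup g ≃* SurfaceGroup g,
    IsOrientationPreserving ψ ∧ ψ (a i) = a i ∧ ψ (b i) = b i * (a i)⁻¹ ∧
      ∀ j, j ≠ i → ψ (a j) = a j ∧ ψ (b j) = b j := by
  refine op_at ?_
  have := Step.tw' ((std g).take i) ((std g).drop (i + 1)) (a i) (b i)
  rwa [← std_split] at this

theorem exists_rot (i : Fin g) : ∃ ψ : SurfaceGroup g ≃* SurfaceGroup g,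
    IsOrientationPreserving ψ ∧ ψ (a i) = (b i)⁻¹ ∧ ψ (b i) = b i * a i * (b i)⁻¹ ∧
      ∀ j, j ≠ i → ψ (a j) = a j ∧ ψ (b j) = b j := by
  refine op_at ?_
  have := Step.rot ((std g).take i) ((std g).drop (i + 1)) (a i) (b i)
  rwa [← std_split] at this

theorem exists_rot' (i : Fin g) : ∃ ψ : SurfaceGroup g ≃* SurfaceGroup g,
    IsOrientationPreserving ψ ∧ ψ (a i) = a i * b i * (a i)⁻¹ ∧ ψ (b i) = (a i)⁻¹ ∧
      ∀ j, j ≠ i → ψ (a j) = a j ∧ ψ (b j) = b j := by
  refine op_at ?_
  have := Step.rot' ((std g).take i) ((std g).drop (i + 1)) (a i) (b i)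
  rwa [← std_split] at this

theorem exists_sl (i j : Fin g) (hij : (j : ℕ) = i + 1) :
    ∃ ψ : SurfaceGroup g ≃* SurfaceGroup g, IsOrientationPreserving ψ ∧
      (ψ (a i) = a i ∧ ψ (b i) = b i * (a i)⁻¹ * (b i)⁻¹ * a j * b j * (a j)⁻¹ * b i) ∧
      ψ (a j) = b i * (a i)⁻¹ * (b i)⁻¹ * a j ∧ ψ (b j) = b j := by
  refine op_at2 hij ?_
  have := Step.sl ((std g).take i) ((std g).drop (i + 2)) (a i) (b i) (a j) (b j)
  rwa [← std_split2 i j hij] at this

theorem exists_sl' (i j : Fin g) (hij : (j : ℕ) = i + 1) :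
    ∃ ψ : SurfaceGroup g ≃* SurfaceGroup g, IsOrientationPreserving ψ ∧
      (ψ (a i) = a i ∧ ψ (b i) = a j * (b j)⁻¹ * (a j)⁻¹ * b i * a i) ∧
      ψ (a j) = a j * (b j)⁻¹ * (a j)⁻¹ * b i * a i * (b i)⁻¹ * a j * b j ∧ ψ (b j) = b j := by
  refine op_at2 hij ?_
  have := Step.sl' ((std g).take i) ((std g).drop (i + 2)) (a i) (b i) (a j) (b j)
  rwa [← std_split2 i j hij] at this

/-! ### non-separating simple curves -/

theorem simple_aut {x : SurfaceGroup g} (hx : IsNonseparatingSimple x)
    (φ : SurfaceGroup g ≃* SurfaceGroup g) : IsNonseparatingSimple (φ x) := by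
  obtain ⟨ψ, i, rfl⟩ := hx
  exact ⟨ψ.trans φ, i, rfl⟩

theorem simple_a (i : Fin g) : IsNonseparatingSimple (a i) := ⟨MulEquiv.refl _, i, rfl⟩

theorem simple_conj {x : SurfaceGroup g} (hx : IsNonseparatingSimple x) (h : SurfaceGroup g) :
    IsNonseparatingSimple (h * x * h⁻¹) := by
  have := simple_aut hx (MulAut.conj h)
  simpa using this

theorem simple_b (i : Fin g) : IsNonseparatingSimple (b i) := by
  obtain ⟨ψ, -, h1, -, -⟩ := exists_rot' i
  have h2 := simple_aut (simple_a i) ψ
  rw [h1] at h2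
  have h3 := simple_conj h2 (a i)⁻¹
  have e : (a i)⁻¹ * (a i * b i * (a i)⁻¹) * (a i)⁻¹⁻¹ = b i := by group
  rwa [e] at h3

end SpQ
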