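import Pool.Agent.SpQ.Defs
import Pool.Agent.Helper12.ScBridge

/-!
Spin structures on surface groups.
-/

namespace SpQ

open Helper12.Sc Helper12.Sc.SurfaceGroup

/-- The automorphism of the surface group is induced by an orientation preserving homeomorphism: it
lifts to an automorphism of the free group on the `a_i`, `b_i` which fixes the relator
`[a_1, b_1] ... [a_g, b_g]`. -/
def IsOrientationPreserving {g : ℕ} (φ : SurfaceGroup g ≃* SurfaceGroup g) : Prop :=
  ∃ Φ : FreeGroup (Fin g × Bool) ≃* FreeGroup (Fin g × Bool),
    (∀ x, PresentedGroup.mk {surfaceRelator g} (Φ x) =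
      φ (PresentedGroup.mk {surfaceRelator g} x)) ∧ Φ (surfaceRelator g) = surfaceRelator g

/-- The function `w` is the winding number function of a `k`-spin structure: on the non-separating
simple closed curves it changes sign with the orientation, it is invariant under conjugation, it is
twist linear and homologically coherent. -/
structure IsSpinStructure (k : ℕ) {g : ℕ} (w : SurfaceGroup g → ZMod k) : Prop where
  inv : ∀ x : SurfaceGroup g, IsNonseparatingSimple x → w x⁻¹ = -w x
  conj : ∀ x h : SurfaceGroup g, IsNonseparatingSimple x → w (h * x * h⁻¹) = w x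
  twist : ∀ φ : SurfaceGroup g ≃* SurfaceGroup g, IsOrientationPreserving φ → ∀ i : Fin g,
    w (φ (b i * a i)) = w (φ (b i)) + w (φ (a i))
  pants : ∀ φ : SurfaceGroup g ≃* SurfaceGroup g, IsOrientationPreserving φ →
    ∀ i j : Fin g, (j : ℕ) = i + 1 → w (φ (a i * a j)) = w (φ (a i)) + w (φ (a j)) + 1

/-- the decorated list of an automorphism -/
def decor {k g : ℕ} (w : SurfaceGroup g → ZMod k) (φ : SurfaceGroup g ≃* SurfaceGroup g) :
    List (Hd (SurfaceGroup g) k) :=
  List.ofFn fun i : Fin g => ((φ (a i), φ (b i)), (w (φ (a i)), w (φ (b i))))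

end SpQ
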