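import Pool.Agent.SpQ.Prim

/-!
Winding numbers of the curves produced by the elementary moves.
-/

namespace SpQ

open Helper12.Sc Helper12.Sc.SurfaceGroup

variable {g k : ℕ} {w : SurfaceGroup g → ZMod k}

theorem w_conj (hw : IsSpinStructure k w) {x : SurfaceGroup g} (hx : IsNonseparatingSimple x)
    {y : SurfaceGroup g} (h : SurfaceGroup g) (hy : y = h * x * h⁻¹) : w y = w x := by
  rw [hy]
  exact hw.conj x h hx

theorem w_tw' (hw : IsSpinStructure k w) {φ : SurfaceGroup g ≃* SurfaceGroup g}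
    (hφ : IsOrientationPreserving φ) (i : Fin g) :
    w (φ (b i) * (φ (a i))⁻¹) = w (φ (b i)) - w (φ (a i)) := by
  obtain ⟨ψ, hψ, h1, h2, -⟩ := exists_tw' i
  have h3 := hw.twist (ψ.trans φ) (op_trans hψ hφ) i
  simp only [MulEquiv.trans_apply, map_mul, h1, h2, map_inv] at h3
  rw [inv_mul_cancel_right] at h3
  rw [h3]
  ring

theorem w_sl (hw : IsSpinStructure k w) {φ : SurfaceGroup g ≃* SurfaceGroup g}
    (hφ : IsOrientationPreserving φ) (i j : Fin g) (hij : (j : ℕ) = i + 1) :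
    w (φ (b i) * (φ (a i))⁻¹ * (φ (b i))⁻¹ * φ (a j)) = w (φ (a j)) - w (φ (a i)) + 1 := by
  have hne : j ≠ i := by
    rintro rfl
    omega
  obtain ⟨ψ, hψ, h1, h2, h3⟩ := exists_rot i
  have h4 := hw.pants ((ψ.trans ψ).trans φ) (op_trans (op_trans hψ hψ) hφ) i j hij
  simp only [MulEquiv.trans_apply, map_mul, h1, h2, (h3 j hne).1, map_inv] at h4
  have h5 : w (φ (b i) * (φ (a i))⁻¹ * (φ (b i))⁻¹) = -w (φ (a i)) := by
    rw [← hw.inv _ (simple_aut (simple_a i) φ)]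
    refine w_conj hw ?_ (φ (b i)) rfl
    have := simple_aut (simple_b i) (ψ.trans φ)
    obtain ⟨χ, -, h6, h7, -⟩ := exists_rot i
    have h8 := simple_conj (simple_aut (simple_a i) ((χ.trans χ).trans φ)) (φ (b i))⁻¹
    simp only [MulEquiv.trans_apply, map_mul, h6, h7, map_inv] at h8
    have e : (φ (b i))⁻¹ * (φ (b i) * φ (a i) * (φ (b i))⁻¹)⁻¹ * (φ (b i))⁻¹⁻¹ =
        (φ (a i))⁻¹ := by group
    rw [e] at h8
    exact h8
  have e2 : (φ (b i) * φ (a i) * (φ (b i))⁻¹)⁻¹ = φ (b i) * (φ (a i))⁻¹ * (φ (b i))⁻¹ := by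
    group
  rw [e2, h5] at h4
  rw [h4]
  ring

theorem w_sl2 (hw : IsSpinStructure k w) {φ : SurfaceGroup g ≃* SurfaceGroup g}
    (hφ : IsOrientationPreserving φ) (i j : Fin g) (hij : (j : ℕ) = i + 1) :
    w (φ (b i) * (φ (a i))⁻¹ * (φ (b i))⁻¹ * φ (a j) * φ (b j) * (φ (a j))⁻¹ * φ (b i)) =
      w (φ (b i)) + w (φ (b j)) - w (φ (a i)) + 1 := by
  have hne : j ≠ i := by
    rintro rfl
    omega
  obtain ⟨σ, hσ, ⟨hσa, hσb⟩, -, -⟩ := exists_sl i j hij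
  obtain ⟨ρ, hρ, hρa, hρb, hρ3⟩ := exists_rot i
  obtain ⟨ρ', hρ', hρa', hρb', hρ3'⟩ := exists_rot' j
  obtain ⟨τ, hτ, hτa, hτb, -⟩ := exists_tw i
  have h1 := hw.twist (σ.trans φ) (op_trans hσ hφ) i
  simp only [MulEquiv.trans_apply, map_mul, map_inv, hσa, hσb] at h1
  -- the curve `φ (b' a)` is simple
  have h2 : IsNonseparatingSimple (φ (σ (τ (b i)))) :=
    simple_aut (simple_b i) ((τ.trans σ).trans φ)
  rw [hτb] at h2
  simp only [map_mul, map_inv, hσa, hσb] at h2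
  have h3 := hw.pants (((ρ'.trans (ρ.trans ρ)).trans ρ).trans φ)
    (op_trans (op_trans (op_trans hρ' (op_trans hρ hρ)) hρ) hφ) i j hij
  have e1 : ρ' (a i) = a i := (hρ3' i hne.symm).1
  have e2 : ρ (a j) = a j := (hρ3 j hne).1
  have e3 : ρ (b j) = b j := (hρ3 j hne).2
  simp only [MulEquiv.trans_apply, map_mul, map_inv, e1, e2, e3, hρa, hρb, hρa'] at h3
  have h4 : w (φ (b i) * φ (a i) * (φ (b i))⁻¹ * (φ (b i))⁻¹ *
      (φ (b i) * φ (a i) * (φ (b i))⁻¹)⁻¹)⁻¹ = w (φ (b i)) :=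
    w_conj hw (simple_aut (simple_b i) φ) (φ (b i) * φ (a i) * (φ (b i))⁻¹) (by group)
  have h5 : w (φ (a j) * φ (b j) * (φ (a j))⁻¹) = w (φ (b j)) :=
    w_conj hw (simple_aut (simple_b j) φ) (φ (a j)) rfl
  have h6 : w ((φ (b i) * φ (a i) * (φ (b i))⁻¹ * (φ (b i))⁻¹ *
      (φ (b i) * φ (a i) * (φ (b i))⁻¹)⁻¹)⁻¹ * (φ (a j) * φ (b j) * (φ (a j))⁻¹)) =
      w (φ (b i) * (φ (a i))⁻¹ * (φ (b i))⁻¹ * φ (a j) * φ (b j) * (φ (a j))⁻¹ * φ (b i) *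
        φ (a i)) :=
    w_conj hw h2 (φ (b i) * φ (a i)) (by group)
  rw [h4, h5, h6, h1] at h3
  rw [eq_sub_of_add_eq h3]
  ring

theorem w_sl' (hw : IsSpinStructure k w) {φ : SurfaceGroup g ≃* SurfaceGroup g}
    (hφ : IsOrientationPreserving φ) (i j : Fin g) (hij : (j : ℕ) = i + 1) :
    w (φ (a j) * (φ (b j))⁻¹ * (φ (a j))⁻¹ * φ (b i) * φ (a i)) =
        w (φ (b i)) - w (φ (b j)) + w (φ (a i)) - 1 ∧
      w (φ (a j) * (φ (b j))⁻¹ * (φ (a j))⁻¹ * φ (b i) * φ (a i) * (φ (b i))⁻¹ * φ (a j) *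
        φ (b j)) = w (φ (a j)) + w (φ (a i)) - 1 := by
  obtain ⟨σ, hσ, ⟨hσa, hσb⟩, hσc, hσd⟩ := exists_sl' i j hij
  have h1 := w_sl hw (op_trans hσ hφ) i j hij
  have h2 := w_sl2 hw (op_trans hσ hφ) i j hij
  simp only [MulEquiv.trans_apply, map_mul, map_inv, hσa, hσb, hσc, hσd] at h1 h2
  have e1 : φ (a j) * (φ (b j))⁻¹ * (φ (a j))⁻¹ * φ (b i) * φ (a i) * (φ (a i))⁻¹ *
      (φ (a j) * (φ (b j))⁻¹ * (φ (a j))⁻¹ * φ (b i) * φ (a i))⁻¹ *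
      (φ (a j) * (φ (b j))⁻¹ * (φ (a j))⁻¹ * φ (b i) * φ (a i) * (φ (b i))⁻¹ * φ (a j) *
        φ (b j)) = φ (a j) := by group
  have e2 : φ (a j) * (φ (b j))⁻¹ * (φ (a j))⁻¹ * φ (b i) * φ (a i) * (φ (a i))⁻¹ *
      (φ (a j) * (φ (b j))⁻¹ * (φ (a j))⁻¹ * φ (b i) * φ (a i))⁻¹ *
      (φ (a j) * (φ (b j))⁻¹ * (φ (a j))⁻¹ * φ (b i) * φ (a i) * (φ (b i))⁻¹ * φ (a j) *
        φ (b j)) * φ (b j) * (φ (a j) * (φ (b j))⁻¹ * (φ (a j))⁻¹ * φ (b i) * φ (a i) *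
        (φ (b i))⁻¹ * φ (a j) * φ (b j))⁻¹ *
      (φ (a j) * (φ (b j))⁻¹ * (φ (a j))⁻¹ * φ (b i) * φ (a i)) = φ (b i) := by group
  rw [e1] at h1
  rw [e2] at h2
  constructor
  · rw [h2]
    ring
  · rw [h1]
    ring

end SpQ
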